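import Pool.Agent.TF.E.Src

/-!
# Bounds of potentials, one step of the scheme
-/

set_option autoImplicit false

namespace Pool.Agent.TF

open MeasureTheory Set Filter Topology Pool.Agent.TO Pool.Agent.TB Pool.Agent.TC Pool.Agent.TP
open scoped ENNReal NNReal Real InnerProductSpace SchwartzMap LineDeriv ContDiff

/-- bounds of a potential and its derivatives up to order two, in the sup norm and in `L²` -/
structure Bo (a0 a1 a2 m0 m1 m2 : ℝ) (f : E3 → E3) : Prop where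
  nc : Nc f
  s0 : ∀ x, ‖f x‖ ≤ a0
  s1 : ∀ i x, ‖pd i f x‖ ≤ a1
  s2 : ∀ i j x, ‖pd i (pd j f) x‖ ≤ a2
  t0 : ‖vL f‖ ≤ m0
  t1 : ∀ i, ‖vL (pd i f)‖ ≤ m1
  t2 : ∀ i j, ‖vL (pd i (pd j f))‖ ≤ m2

variable {a0 a1 a2 m0 m1 m2 a0' a1' a2' m0' m1' m2' : ℝ} {f g : E3 → E3}

theorem Bo.mono (h : Bo a0 a1 a2 m0 m1 m2 f) (h0 : a0 ≤ a0') (h1 : a1 ≤ a1') (h2 : a2 ≤ a2')
    (k0 : m0 ≤ m0') (k1 : m1 ≤ m1') (k2 : m2 ≤ m2') : Bo a0' a1' a2' m0' m1' m2' f :=
  ⟨h.nc, fun x => (h.s0 x).trans h0, fun i x => (h.s1 i x).trans h1,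
    fun i j x => (h.s2 i j x).trans h2, h.t0.trans k0, fun i => (h.t1 i).trans k1,
    fun i j => (h.t2 i j).trans k2⟩

theorem Bo.add (h : Bo a0 a1 a2 m0 m1 m2 f) (h' : Bo a0' a1' a2' m0' m1' m2' g) :
    Bo (a0 + a0') (a1 + a1') (a2 + a2') (m0 + m0') (m1 + m1') (m2 + m2')
      (fun x => f x + g x) := by
  refine ⟨nc_add h.nc h'.nc, fun x => (norm_add_le _ _).trans (add_le_add (h.s0 x) (h'.s0 x)),
    fun i x => ?_, fun i j x => ?_, ?_, fun i => ?_, fun i j => ?_⟩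
  · rw [pd_add_nc h.nc h'.nc]
    exact (norm_add_le _ _).trans (add_le_add (h.s1 i x) (h'.s1 i x))
  · rw [pd_pd_add_nc h.nc h'.nc]
    exact (norm_add_le _ _).trans (add_le_add (h.s2 i j x) (h'.s2 i j x))
  · rw [vL_add h.nc.m0 h'.nc.m0]
    exact (norm_add_le _ _).trans (add_le_add h.t0 h'.t0)
  · rw [pd_add_nc h.nc h'.nc, vL_add (h.nc.m1 i) (h'.nc.m1 i)]
    exact (norm_add_le _ _).trans (add_le_add (h.t1 i) (h'.t1 i))
  · rw [pd_pd_add_nc h.nc h'.nc, vL_add (h.nc.m2 i j) (h'.nc.m2 i j)]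
    exact (norm_add_le _ _).trans (add_le_add (h.t2 i j) (h'.t2 i j))

theorem Bo.smul (h : Bo a0 a1 a2 m0 m1 m2 f) (c : ℝ) :
    Bo (|c| * a0) (|c| * a1) (|c| * a2) (|c| * m0) (|c| * m1) (|c| * m2) (fun x => c • f x) := by
  refine ⟨nc_smul c h.nc, fun x => ?_, fun i x => ?_, fun i j x => ?_, ?_, fun i => ?_,
    fun i j => ?_⟩
  · rw [norm_smul, Real.norm_eq_abs]
    exact mul_le_mul_of_nonneg_left (h.s0 x) (abs_nonneg _)
  · rw [pd_smul_nc c h.nc, norm_smul, Real.norm_eq_abs]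
    exact mul_le_mul_of_nonneg_left (h.s1 i x) (abs_nonneg _)
  · rw [pd_pd_smul_nc c h.nc, norm_smul, Real.norm_eq_abs]
    exact mul_le_mul_of_nonneg_left (h.s2 i j x) (abs_nonneg _)
  · rw [vL_smul c h.nc.m0, norm_smul, Real.norm_eq_abs]
    exact mul_le_mul_of_nonneg_left h.t0 (abs_nonneg _)
  · rw [pd_smul_nc c h.nc, vL_smul c (h.nc.m1 i), norm_smul, Real.norm_eq_abs]
    exact mul_le_mul_of_nonneg_left (h.t1 i) (abs_nonneg _)
  · rw [pd_pd_smul_nc c h.nc, vL_smul c (h.nc.m2 i j), norm_smul, Real.norm_eq_abs]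
    exact mul_le_mul_of_nonneg_left (h.t2 i j) (abs_nonneg _)

theorem Bo.neg (h : Bo a0 a1 a2 m0 m1 m2 f) : Bo a0 a1 a2 m0 m1 m2 (fun x => -f x) := by
  have h1 := h.smul (-1)
  simpa using h1

/-- averaging does not increase the bounds -/
theorem Bo.cvf {κ : E3 → ℝ} (hs : SmN 2 κ) (hk : KK κ 1) (h : Bo a0 a1 a2 m0 m1 m2 f) :
    Bo a0 a1 a2 m0 m1 m2 (TP.cvf κ f) := by
  refine ⟨nc_cvf hs h.nc, fun x => ?_, fun i x => ?_, fun i j x => ?_, ?_, fun i => ?_,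
    fun i j => ?_⟩
  · have := norm_cvf_le_sup hk h.s0 x
    rwa [one_mul] at this
  · rw [pd_cvf_nc hk h.nc]
    have := norm_cvf_le_sup hk (h.s1 i) x
    rwa [one_mul] at this
  · rw [pd_pd_cvf_nc hk h.nc]
    have := norm_cvf_le_sup hk (h.s2 i j) x
    rwa [one_mul] at this
  · have := norm_vL_cvf_le hk h.nc.cont.stronglyMeasurable h.nc.m0
    rw [one_mul] at this
    exact this.trans h.t0
  · rw [pd_cvf_nc hk h.nc]
    have := norm_vL_cvf_le hk (h.nc.pc i).continuous.stronglyMeasurable (h.nc.m1 i)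
    rw [one_mul] at this
    exact this.trans (h.t1 i)
  · rw [pd_pd_cvf_nc hk h.nc]
    have := norm_vL_cvf_le hk (h.nc.ppc i j).stronglyMeasurable (h.nc.m2 i j)
    rw [one_mul] at this
    exact this.trans (h.t2 i j)

theorem Bo.heat {s : ℝ} (hs : 0 < s) (h : Bo a0 a1 a2 m0 m1 m2 f) :
    Bo a0 a1 a2 m0 m1 m2 (TB.heat s f) := h.cvf (smN_hk hs) (kk_hk hs)

theorem SrcB.bo {m C a b : ℝ} {F : E3 → E3} (h : SrcB m C a b F) :
    Bo m (C * a) (C * a) b (C * b) (C * b) F :=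
  ⟨h.nc, h.s0, h.s1, h.s2, h.t0, h.t1, h.t2⟩

/-! ### `L²` bounds from pointwise bounds -/

variable {c r Λ : ℝ} {b : E3 → E3} {lam : E3 → ℝ}

theorem l2_of_ptw (hc : Coef c r Λ b lam) {d : ℝ} (hd : 0 ≤ d) (h1 : d * Λ ≤ 1) {ι : Type}
    (S : Finset ι) {G F0 : E3 → E3} {Fa : ι → E3 → E3} (hG : Continuous G) (hF0 : Continuous F0)
    (hFa : ∀ a, Continuous (Fa a)) (m0 : MemLp F0 2 (volume : Measure E3))
    (ma : ∀ a, MemLp (Fa a) 2 (volume : Measure E3)) {e : ℝ} (he : 0 ≤ e)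
    (h : ∀ x, ‖G x‖ ≤ ‖F0 (x - d • b x)‖ + e * ∑ a ∈ S, ‖Fa a (x - d • b x)‖) :
    MemLp G 2 (volume : Measure E3) ∧
      ‖vL G‖ ≤ (1 + (d * Λ) ^ 2) * (‖vL F0‖ + e * ∑ a ∈ S, ‖vL (Fa a)‖) := by
  -- the majorant as a vector field
  set w : E3 → E3 := fun z => (‖F0 z‖ + e * ∑ a ∈ S, ‖Fa a z‖) • (ee 0 : E3) with hw
  have hpos : ∀ z, 0 ≤ ‖F0 z‖ + e * ∑ a ∈ S, ‖Fa a z‖ := fun z =>
    add_nonneg (norm_nonneg _) (mul_nonneg he (Finset.sum_nonneg fun _ _ => norm_nonneg _))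
  have hwn : ∀ z, ‖w z‖ = ‖F0 z‖ + e * ∑ a ∈ S, ‖Fa a z‖ := by
    intro z
    rw [hw]
    simp only
    rw [norm_smul, ee_norm, mul_one, Real.norm_of_nonneg (hpos z)]
  have hwc : Continuous w := by
    have h2 : Continuous fun z => ∑ a ∈ S, ‖Fa a z‖ :=
      continuous_finsetSum _ fun a _ => (hFa a).norm
    exact ((hF0.norm).add (continuous_const.mul h2)).smul continuous_const
  have hn : ∀ {F : E3 → E3}, MemLp F 2 (volume : Measure E3) →
      MemLp (fun z => ‖F z‖ • (ee 0 : E3)) 2 (volume : Measure E3) ∧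
        ‖vL (fun z => ‖F z‖ • (ee 0 : E3))‖ = ‖vL F‖ := by
    intro F hF
    have h2 : MemLp (fun z => ‖F z‖ • (ee 0 : E3)) 2 (volume : Measure E3) := by
      have h3 : AEStronglyMeasurable (fun z => ‖F z‖ • (ee 0 : E3)) (volume : Measure E3) :=
        hF.1.norm.smul_const _
      refine hF.congr_norm h3 (Eventually.of_forall fun z => ?_)
      rw [norm_smul, ee_norm, mul_one, norm_norm]
    refine ⟨h2, ?_⟩
    rw [norm_vL h2, norm_vL hF]
    congr 1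
    apply eLpNorm_congr_norm_ae
    refine Eventually.of_forall fun z => ?_
    rw [norm_smul, ee_norm, mul_one, norm_norm]
  have hwe : w = fun z => ‖F0 z‖ • (ee 0 : E3) +
      (fun z => e • ∑ a ∈ S, ‖Fa a z‖ • (ee 0 : E3)) z := by
    funext z
    rw [hw]
    simp only
    rw [add_smul, mul_smul, Finset.sum_smul]
  have hms : MemLp (fun z => ∑ a ∈ S, ‖Fa a z‖ • (ee 0 : E3)) 2 (volume : Measure E3) :=
    memLp_finsetSum _ fun a _ => (hn (ma a)).1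
  have hm2 : MemLp (fun z => e • ∑ a ∈ S, ‖Fa a z‖ • (ee 0 : E3)) 2 (volume : Measure E3) :=
    hms.const_smul e
  have hwm : MemLp w 2 (volume : Measure E3) := by
    rw [hwe]
    exact (hn m0).1.add hm2
  have hwv : ‖vL w‖ ≤ ‖vL F0‖ + e * ∑ a ∈ S, ‖vL (Fa a)‖ := by
    rw [hwe, vL_add (hn m0).1 hm2, vL_smul e hms,
      vL_sum S (fun a z => ‖Fa a z‖ • (ee 0 : E3)) fun a _ => (hn (ma a)).1]
    refine (norm_add_le _ _).trans ?_
    rw [(hn m0).2, norm_smul, Real.norm_of_nonneg he]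
    gcongr
    refine (norm_sum_le _ _).trans (Finset.sum_le_sum fun a _ => ?_)
    rw [(hn (ma a)).2]
  have hsh := hc.memLp_shift hd h1 hwc hwm
  have hG2 := norm_vL_le_of_lintegral (C := 1) hG.aestronglyMeasurable hsh.1 zero_le_one (by
    rw [one_pow, ENNReal.ofReal_one, one_mul]
    refine lintegral_mono fun x => ?_
    have h3 : ‖G x‖ₑ ≤ ‖w (x - d • b x)‖ₑ := by
      rw [← ofReal_norm, ← ofReal_norm (w _), hwn]
      exact ENNReal.ofReal_le_ofReal (h x)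
    exact pow_le_pow_left₀ zero_le h3 2)
  refine ⟨hG2.1, hG2.2.trans ?_⟩
  rw [one_mul]
  exact hsh.2.trans (mul_le_mul_of_nonneg_left hwv (by positivity))

end Pool.Agent.TF
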