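import Pool.Agent.TO.Defs

/-!
# Change of variables for small shifts without divergence
-/

set_option autoImplicit false

namespace Pool.Agent.TF

open MeasureTheory Set Filter Topology Pool.Agent.TO
open scoped ENNReal NNReal

/-- a matrix without trace and with small entries: the determinant of `1 + M` -/
theorem det_one_add_ge (M : Matrix (Fin 3) (Fin 3) ℝ) {δ : ℝ} (h0 : 0 ≤ δ) (h1 : δ ≤ 1 / 6)
    (hM : ∀ i j, |M i j| ≤ δ) (ht : M 0 0 + M 1 1 + M 2 2 = 0) :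
    1 - 7 * δ ^ 2 ≤ (1 + M).det := by
  have hab : ∀ i j k l, |M i j * M k l| ≤ δ ^ 2 := by
    intro i j k l
    rw [abs_mul, sq]
    exact mul_le_mul (hM i j) (hM k l) (abs_nonneg _) h0
  have habc : ∀ i j k l p q, |M i j * M k l * M p q| ≤ δ ^ 3 := by
    intro i j k l p q
    rw [abs_mul, pow_succ]
    exact mul_le_mul (hab i j k l) (hM p q) (abs_nonneg _) (by positivity)
  have h3 : δ ^ 3 ≤ δ ^ 2 * (1 / 6) := by
    rw [pow_succ]
    exact mul_le_mul_of_nonneg_left h1 (by positivity)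
  have e : (1 + M).det = 1 + (M 0 0 + M 1 1 + M 2 2)
      + (M 0 0 * M 1 1 + M 0 0 * M 2 2 + M 1 1 * M 2 2)
      - (M 0 1 * M 1 0 + M 0 2 * M 2 0 + M 1 2 * M 2 1)
      + (M 0 0 * M 1 1 * M 2 2 - M 0 0 * M 1 2 * M 2 1 - M 0 1 * M 1 0 * M 2 2
        + M 0 1 * M 1 2 * M 2 0 + M 0 2 * M 1 0 * M 2 1 - M 0 2 * M 1 1 * M 2 0) := by
    rw [Matrix.det_fin_three]
    have o00 : (1 : Matrix (Fin 3) (Fin 3) ℝ) 0 0 = 1 := rfl
    have o11 : (1 : Matrix (Fin 3) (Fin 3) ℝ) 1 1 = 1 := rfl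
    have o22 : (1 : Matrix (Fin 3) (Fin 3) ℝ) 2 2 = 1 := rfl
    have o01 : (1 : Matrix (Fin 3) (Fin 3) ℝ) 0 1 = 0 := rfl
    have o02 : (1 : Matrix (Fin 3) (Fin 3) ℝ) 0 2 = 0 := rfl
    have o10 : (1 : Matrix (Fin 3) (Fin 3) ℝ) 1 0 = 0 := rfl
    have o12 : (1 : Matrix (Fin 3) (Fin 3) ℝ) 1 2 = 0 := rfl
    have o20 : (1 : Matrix (Fin 3) (Fin 3) ℝ) 2 0 = 0 := rfl
    have o21 : (1 : Matrix (Fin 3) (Fin 3) ℝ) 2 1 = 0 := rfl
    simp only [Matrix.add_apply, o00, o11, o22, o01, o02, o10, o12, o20, o21]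
    ring
  rw [e, ht]
  have a1 := (abs_le.1 (hab 0 0 1 1)).1
  have a2 := (abs_le.1 (hab 0 0 2 2)).1
  have a3 := (abs_le.1 (hab 1 1 2 2)).1
  have a4 := (abs_le.1 (hab 0 1 1 0)).2
  have a5 := (abs_le.1 (hab 0 2 2 0)).2
  have a6 := (abs_le.1 (hab 1 2 2 1)).2
  have b1 := (abs_le.1 (habc 0 0 1 1 2 2)).1
  have b2 := (abs_le.1 (habc 0 0 1 2 2 1)).2
  have b3 := (abs_le.1 (habc 0 1 1 0 2 2)).2
  have b4 := (abs_le.1 (habc 0 1 1 2 2 0)).1
  have b5 := (abs_le.1 (habc 0 2 1 0 2 1)).1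
  have b6 := (abs_le.1 (habc 0 2 1 1 2 0)).2
  linarith

/-- the coordinates of a linear map -/
theorem det_id_add (A : E3 →L[ℝ] E3) : (ContinuousLinearMap.id ℝ E3 + A).det =
    (1 + Matrix.of fun i j => A (ee j) i : Matrix (Fin 3) (Fin 3) ℝ).det := by
  have h := LinearMap.det_toMatrix (EuclideanSpace.basisFun (Fin 3) ℝ).toBasis
    ((ContinuousLinearMap.id ℝ E3 + A : E3 →L[ℝ] E3) : E3 →ₗ[ℝ] E3)
  change LinearMap.det _ = _
  rw [← h]
  congr 1
  ext i j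
  rw [LinearMap.toMatrix_apply]
  simp [Matrix.one_apply, Matrix.of_apply]

theorem opNorm_le_three {A : E3 →L[ℝ] E3} {δ : ℝ} (h0 : 0 ≤ δ) (hA : ∀ i k, |A (ee i) k| ≤ δ) :
    ‖A‖ ≤ 3 * δ := by
  refine A.opNorm_le_bound (by positivity) fun v => ?_
  have hv : v = ∑ i, v i • (ee i : E3) := by
    have := (EuclideanSpace.basisFun (Fin 3) ℝ).sum_repr v
    simpa using this.symm
  have h1 : ∀ k, |A v k| ≤ δ * ∑ i, |v i| := by
    intro k
    have e : A v k = ∑ i, v i * A (ee i) k := by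
      conv_lhs => rw [hv]
      simp [map_sum]
    rw [e, Finset.mul_sum]
    refine (Finset.abs_sum_le_sum_abs _ _).trans (Finset.sum_le_sum fun i _ => ?_)
    rw [abs_mul, mul_comm δ]
    exact mul_le_mul_of_nonneg_left (hA i k) (abs_nonneg _)
  have h2 : (∑ i, |v i|) ^ 2 ≤ 3 * ‖v‖ ^ 2 := by
    rw [EuclideanSpace.norm_sq_eq, Fin.sum_univ_three, Fin.sum_univ_three]
    simp only [Real.norm_eq_abs]
    nlinarith [sq_nonneg (|v 0| - |v 1|), sq_nonneg (|v 0| - |v 2|), sq_nonneg (|v 1| - |v 2|)]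
  have h3 : ‖A v‖ ^ 2 ≤ (3 * δ * ‖v‖) ^ 2 := by
    rw [EuclideanSpace.norm_sq_eq]
    calc ∑ i, ‖A v i‖ ^ 2 ≤ ∑ i : Fin 3, (δ * ∑ i, |v i|) ^ 2 := by
          refine Finset.sum_le_sum fun i _ => ?_
          rw [Real.norm_eq_abs]
          exact pow_le_pow_left₀ (abs_nonneg _) (h1 i) 2
      _ = 3 * δ ^ 2 * (∑ i, |v i|) ^ 2 := by
          rw [Finset.sum_const, Finset.card_univ, Fintype.card_fin, nsmul_eq_mul]
          push_cast
          ring
      _ ≤ 3 * δ ^ 2 * (3 * ‖v‖ ^ 2) := mul_le_mul_of_nonneg_left h2 (by positivity)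
      _ = _ := by ring
  exact abs_le_of_sq_le_sq' h3 (by positivity) |>.2

variable {a : E3 → E3} {δ : ℝ}

theorem shift_inj (h0 : 0 ≤ δ) (h1 : δ ≤ 1 / 6) (ha : Differentiable ℝ a)
    (hb : ∀ x i k, |fderiv ℝ a x (ee i) k| ≤ δ) : Function.Injective fun x => x + a x := by
  intro x y hxy
  simp only at hxy
  have h2 : ‖a x - a y‖ ≤ (3 * δ) * ‖x - y‖ :=
    Convex.norm_image_sub_le_of_norm_fderiv_le (s := univ) (fun x _ => ha x)
      (fun x _ => opNorm_le_three h0 (hb x)) convex_univ (mem_univ y) (mem_univ x)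
  have h3 : x - y = -(a x - a y) := by
    have : x - y + (a x - a y) = 0 := by
      rw [show x - y + (a x - a y) = (x + a x) - (y + a y) by abel, hxy, sub_self]
    exact eq_neg_of_add_eq_zero_left this
  have h4 : ‖x - y‖ ≤ (1 / 2) * ‖x - y‖ := by
    calc ‖x - y‖ = ‖a x - a y‖ := by rw [h3, norm_neg]
      _ ≤ (3 * δ) * ‖x - y‖ := h2
      _ ≤ _ := mul_le_mul_of_nonneg_right (by linarith) (norm_nonneg _)
  have h5 : ‖x - y‖ = 0 := by
    have := norm_nonneg (x - y)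
    linarith
  exact sub_eq_zero.1 (norm_eq_zero.1 h5)

/-- change of variables: a shift by a small field without divergence costs `1 + C δ²` -/
theorem lintegral_shift_le (h0 : 0 ≤ δ) (h1 : δ ≤ 1 / 6) (ha : Differentiable ℝ a)
    (hb : ∀ x i k, |fderiv ℝ a x (ee i) k| ≤ δ) (hdiv : ∀ x, ∑ i, fderiv ℝ a x (ee i) i = 0)
    (F : E3 → ℝ≥0∞) :
    ∫⁻ x, F (x + a x) ≤ ENNReal.ofReal (1 + 14 * δ ^ 2) * ∫⁻ x, F x := by
  have hd : ∀ x, HasFDerivAt (fun x => x + a x) (ContinuousLinearMap.id ℝ E3 + fderiv ℝ a x) x :=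
    fun x => (hasFDerivAt_id x).add (ha x).hasFDerivAt
  have hdet : ∀ x, 1 - 7 * δ ^ 2 ≤ (ContinuousLinearMap.id ℝ E3 + fderiv ℝ a x).det := by
    intro x
    rw [det_id_add]
    apply det_one_add_ge _ h0 h1
    · intro i j
      exact hb x j i
    · have := hdiv x
      rw [Fin.sum_univ_three] at this
      exact this
  have key := lintegral_image_eq_lintegral_abs_det_fderiv_mul (volume : Measure E3)
    MeasurableSet.univ (fun x _ => (hd x).hasFDerivWithinAt) ((shift_inj h0 h1 ha hb).injOn) F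
  have h2 : ENNReal.ofReal (1 - 7 * δ ^ 2) * ∫⁻ x, F (x + a x) ≤ ∫⁻ x, F x := by
    calc ENNReal.ofReal (1 - 7 * δ ^ 2) * ∫⁻ x, F (x + a x)
        = ∫⁻ x, ENNReal.ofReal (1 - 7 * δ ^ 2) * F (x + a x) :=
          (lintegral_const_mul' _ _ ENNReal.ofReal_ne_top).symm
      _ ≤ ∫⁻ x, ENNReal.ofReal |(ContinuousLinearMap.id ℝ E3 + fderiv ℝ a x).det| *
          F (x + a x) := by
          refine lintegral_mono fun x => ?_
          exact mul_le_mul_left (ENNReal.ofReal_le_ofReal ((hdet x).trans (le_abs_self _))) _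
      _ = ∫⁻ x in (fun x => x + a x) '' univ, F x := by
          rw [key, Measure.restrict_univ]
      _ ≤ ∫⁻ x, F x := setLIntegral_le_lintegral _ _
  have h3 : (1 + 14 * δ ^ 2) * (1 - 7 * δ ^ 2) ≥ 1 := by
    have h4 : δ ^ 2 ≤ 1 / 36 := by nlinarith
    nlinarith [mul_nonneg (sq_nonneg δ) (sub_nonneg.2 h4)]
  calc ∫⁻ x, F (x + a x) = 1 * ∫⁻ x, F (x + a x) := (one_mul _).symm
    _ ≤ ENNReal.ofReal ((1 + 14 * δ ^ 2) * (1 - 7 * δ ^ 2)) * ∫⁻ x, F (x + a x) := by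
        refine mul_le_mul_left ?_ _
        rw [← ENNReal.ofReal_one]
        exact ENNReal.ofReal_le_ofReal h3
    _ = ENNReal.ofReal (1 + 14 * δ ^ 2) *
        (ENNReal.ofReal (1 - 7 * δ ^ 2) * ∫⁻ x, F (x + a x)) := by
        rw [ENNReal.ofReal_mul (by positivity), mul_assoc]
    _ ≤ _ := mul_le_mul_right h2 _

end Pool.Agent.TF
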