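import Pool.Agent.TF.E.Dk3

/-!
# Closure properties of the class of nice functions
-/

set_option autoImplicit false

namespace Pool.Agent.TF

open MeasureTheory Set Filter Topology Pool.Agent.TO Pool.Agent.TB Pool.Agent.TC Pool.Agent.TP
open scoped ENNReal NNReal Real InnerProductSpace SchwartzMap LineDeriv ContDiff

variable {κ : E3 → ℝ} {L : ℝ} {f g : E3 → E3}

theorem heat_eq_cvf {F : Type*} [NormedAddCommGroup F] [NormedSpace ℝ F] (s : ℝ) (f : E3 → F) :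
    heat s f = cvf (hk s) f := rfl

/-- pointwise bound of a convolution by the `L²` norm -/
theorem norm_cvf_le_l2 (h : KK κ L) {C : ℝ} (hb : ∀ y, |κ y| ≤ C) (f : V3) (x : E3) :
    ‖cvf κ f x‖ ≤ √(C * L) * ‖f‖ := by
  have hC : 0 ≤ C := (abs_nonneg _).trans (hb 0)
  have hL := h.nonneg
  have h1 := sq_cvf_le h (Lp.stronglyMeasurable f) x
  have h2 : ∫⁻ y, ‖κ y‖ₑ * ‖f (x - y)‖ₑ ^ 2 ≤ ENNReal.ofReal C * ‖f‖ₑ ^ 2 := by
    calc ∫⁻ y, ‖κ y‖ₑ * ‖f (x - y)‖ₑ ^ 2 ≤ ∫⁻ y, ENNReal.ofReal C * ‖f (x - y)‖ₑ ^ 2 := by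
          apply lintegral_mono
          intro y
          have h5 : ‖κ y‖ₑ ≤ ENNReal.ofReal C := by
            rw [← ofReal_norm]
            exact ENNReal.ofReal_le_ofReal (hb y)
          exact mul_le_mul_left h5 _
      _ = ENNReal.ofReal C * ∫⁻ y, ‖f y‖ₑ ^ 2 := by
          rw [lintegral_const_mul _ ((meas_shift (Lp.stronglyMeasurable f) x).pow_const 2),
            lintegral_sub_left_eq_self (fun y => ‖f y‖ₑ ^ 2) x]
      _ = _ := by rw [lintegral_sq_V3]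
  have h3 : ‖cvf κ f x‖ₑ ^ 2 ≤ ENNReal.ofReal L * (ENNReal.ofReal C * ‖f‖ₑ ^ 2) :=
    h1.trans (mul_le_mul_right h2 _)
  have e1 : ∀ {G : Type} [NormedAddCommGroup G] (v : G), ‖v‖ₑ ^ 2 = ENNReal.ofReal (‖v‖ ^ 2) := by
    intro G _ v
    rw [← ofReal_norm, ← ENNReal.ofReal_pow (norm_nonneg _)]
  have e2 : ‖f‖ₑ ^ 2 = ENNReal.ofReal (‖f‖ ^ 2) := by
    rw [← ofReal_norm, ← ENNReal.ofReal_pow (norm_nonneg _)]
  rw [e1, e2, ← ENNReal.ofReal_mul hC, ← ENNReal.ofReal_mul hL,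
    ENNReal.ofReal_le_ofReal_iff (by positivity)] at h3
  have h4 : ‖cvf κ f x‖ ^ 2 ≤ (√(C * L) * ‖f‖) ^ 2 := by
    rw [mul_pow, Real.sq_sqrt (by positivity)]
    linarith
  exact abs_le_of_sq_le_sq' h4 (by positivity) |>.2

theorem Nc.cont (h : Nc f) : Continuous f := h.c2.continuous

theorem Nc.c1 (h : Nc f) : ContDiff ℝ 1 f := h.c2.of_le (by norm_num)

theorem Nc.pc (h : Nc f) (i : Fin 3) : ContDiff ℝ 1 (pd i f) := by
  have h1 : ContDiff ℝ ((1 + 1 : ℕ) : WithTop ℕ∞) f := by exact_mod_cast h.c2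
  exact_mod_cast contDiff_pd_nat (n := 1) h1 i

theorem Nc.ppc (h : Nc f) (i j : Fin 3) : Continuous (pd i (pd j f)) := by
  have h1 : ContDiff ℝ ((0 + 1 : ℕ) : WithTop ℕ∞) (pd j f) := by exact_mod_cast h.pc j
  exact (contDiff_pd_nat (n := 0) h1 i).continuous

theorem Nc.gf (h : Nc f) : Gf f := gf_l2 h.m0

theorem pd_cvf_nc (h : KK κ L) (hf : Nc f) (i : Fin 3) : pd i (cvf κ f) = cvf κ (pd i f) := by
  obtain ⟨C, hC⟩ := hf.b0
  obtain ⟨C', hC'⟩ := hf.b1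
  exact pd_cvf_right h.int hf.c1 hC hC' i

theorem pd_pd_cvf_nc (h : KK κ L) (hf : Nc f) (i j : Fin 3) :
    pd i (pd j (cvf κ f)) = cvf κ (pd i (pd j f)) := by
  obtain ⟨C, hC⟩ := hf.b1
  obtain ⟨C', hC'⟩ := hf.b2
  rw [pd_cvf_nc h hf j]
  exact pd_cvf_right h.int (hf.pc j) (hC j) (fun i x => hC' i j x) i

/-- smoothing of nice functions -/
theorem nc_cvf (h : SmN 2 κ) (hf : Nc f) : Nc (cvf κ f) := by
  have hk := h.kk
  obtain ⟨C0, h0⟩ := hf.b0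
  obtain ⟨C1, h1⟩ := hf.b1
  obtain ⟨C2, h2⟩ := hf.b2
  refine ⟨contDiff_cvf hf.gf h, ⟨_, norm_cvf_le_sup hk h0⟩, ⟨(∫ y, |κ y|) * C1, fun i x => ?_⟩,
    ⟨(∫ y, |κ y|) * C2, fun i j x => ?_⟩, ?_, fun i => ?_, fun i j => ?_⟩
  · rw [pd_cvf_nc hk hf]
    exact norm_cvf_le_sup hk (h1 i) x
  · rw [pd_pd_cvf_nc hk hf]
    exact norm_cvf_le_sup hk (h2 i j) x
  · exact memLp_cvf_fun hk hf.cont.stronglyMeasurable hf.m0
  · rw [pd_cvf_nc hk hf]
    exact memLp_cvf_fun hk (hf.pc i).continuous.stronglyMeasurable (hf.m1 i)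
  · rw [pd_pd_cvf_nc hk hf]
    exact memLp_cvf_fun hk (hf.ppc i j).stronglyMeasurable (hf.m2 i j)

/-- smoothing of square integrable functions -/
theorem nc_cvf_V3 (h : SmN 2 κ) (f : V3) : Nc (cvf κ f) := by
  have hf : Gf (f : E3 → E3) := gf_l2 (Lp.memLp f)
  have h1 : SmN 1 κ := h.mono (by norm_num)
  have hb : ∀ {κ' : E3 → ℝ} {n : ℕ}, SmN n κ' → ∃ C, ∀ x, ‖cvf κ' f x‖ ≤ C := by
    intro κ' n h'
    obtain ⟨C, hC, hC'⟩ := h'.kk.bdd
    exact ⟨_, norm_cvf_le_l2 h'.kk hC' f⟩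
  refine ⟨contDiff_cvf hf h, hb h, ?_, ?_, memLp_cvf h.kk f, fun i => ?_, fun i j => ?_⟩
  · choose C hC using fun i => hb (h1.pd (n := 0) i)
    refine ⟨C 0 ⊔ C 1 ⊔ C 2, fun i x => ?_⟩
    rw [pd_cvf hf h1]
    refine (hC i x).trans ?_
    fin_cases i
    · exact le_sup_left.trans le_sup_left
    · exact le_sup_right.trans le_sup_left
    · exact le_sup_right
  · choose C hC using fun i j => hb ((h.pd (n := 1) j).pd (n := 0) i)
    refine ⟨∑ i, ∑ j, |C i j|, fun i j x => ?_⟩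
    rw [pd_pd_cvf hf h]
    refine (hC i j x).trans ((le_abs_self _).trans ?_)
    refine (Finset.single_le_sum (f := fun j => |C i j|) (fun _ _ => abs_nonneg _)
      (Finset.mem_univ j)).trans ?_
    exact Finset.single_le_sum (f := fun i => ∑ j, |C i j|)
      (fun _ _ => Finset.sum_nonneg fun _ _ => abs_nonneg _) (Finset.mem_univ i)
  · rw [pd_cvf hf h1]
    exact memLp_cvf (h1.pd (n := 0) i).kk f
  · rw [pd_pd_cvf hf h]
    exact memLp_cvf ((h.pd (n := 1) j).pd (n := 0) i).kk f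

theorem pd_add_nc (hf : Nc f) (hg : Nc g) (i : Fin 3) :
    pd i (fun x => f x + g x) = fun x => pd i f x + pd i g x := by
  funext x
  have h1 := (hf.c1.differentiable one_ne_zero x).hasFDerivAt.add
    (hg.c1.differentiable one_ne_zero x).hasFDerivAt
  have h2 : fderiv ℝ (fun x => f x + g x) x = _ := h1.fderiv
  unfold pd
  rw [h2]
  rfl

theorem pd_pd_add_nc (hf : Nc f) (hg : Nc g) (i j : Fin 3) :
    pd i (pd j (fun x => f x + g x)) = fun x => pd i (pd j f) x + pd i (pd j g) x := by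
  rw [pd_add_nc hf hg]
  funext x
  have h1 := ((hf.pc j).differentiable one_ne_zero x).hasFDerivAt.add
    ((hg.pc j).differentiable one_ne_zero x).hasFDerivAt
  have h2 : fderiv ℝ (fun x => pd j f x + pd j g x) x = _ := h1.fderiv
  unfold pd at h2 ⊢
  rw [h2]
  rfl

theorem nc_add (hf : Nc f) (hg : Nc g) : Nc fun x => f x + g x := by
  obtain ⟨C0, h0⟩ := hf.b0
  obtain ⟨C1, h1⟩ := hf.b1
  obtain ⟨C2, h2⟩ := hf.b2
  obtain ⟨D0, k0⟩ := hg.b0
  obtain ⟨D1, k1⟩ := hg.b1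
  obtain ⟨D2, k2⟩ := hg.b2
  refine ⟨hf.c2.add hg.c2, ⟨C0 + D0, fun x => (norm_add_le _ _).trans (add_le_add (h0 x) (k0 x))⟩,
    ⟨C1 + D1, fun i x => ?_⟩, ⟨C2 + D2, fun i j x => ?_⟩, hf.m0.add hg.m0, fun i => ?_,
    fun i j => ?_⟩
  · rw [pd_add_nc hf hg]
    exact (norm_add_le _ _).trans (add_le_add (h1 i x) (k1 i x))
  · rw [pd_pd_add_nc hf hg]
    exact (norm_add_le _ _).trans (add_le_add (h2 i j x) (k2 i j x))
  · rw [pd_add_nc hf hg]
    exact (hf.m1 i).add (hg.m1 i)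
  · rw [pd_pd_add_nc hf hg]
    exact (hf.m2 i j).add (hg.m2 i j)

theorem pd_smul_c (c : ℝ) {f : E3 → E3} (hf : Differentiable ℝ f) (i : Fin 3) :
    pd i (fun x => c • f x) = fun x => c • pd i f x := by
  funext x
  have h2 : fderiv ℝ (fun x => c • f x) x = _ := ((hf x).hasFDerivAt.const_smul c).fderiv
  unfold pd
  rw [h2]
  rfl

theorem pd_smul_nc (c : ℝ) (hf : Nc f) (i : Fin 3) :
    pd i (fun x => c • f x) = fun x => c • pd i f x :=
  pd_smul_c c (hf.c1.differentiable one_ne_zero) i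

theorem pd_pd_smul_nc (c : ℝ) (hf : Nc f) (i j : Fin 3) :
    pd i (pd j (fun x => c • f x)) = fun x => c • pd i (pd j f) x := by
  rw [pd_smul_nc c hf]
  exact pd_smul_c c ((hf.pc j).differentiable one_ne_zero) i

theorem nc_smul (c : ℝ) (hf : Nc f) : Nc fun x => c • f x := by
  obtain ⟨C0, h0⟩ := hf.b0
  obtain ⟨C1, h1⟩ := hf.b1
  obtain ⟨C2, h2⟩ := hf.b2
  refine ⟨hf.c2.const_smul c, ⟨|c| * C0, fun x => ?_⟩,
    ⟨|c| * C1, fun i x => ?_⟩, ⟨|c| * C2, fun i j x => ?_⟩, hf.m0.const_smul c, fun i => ?_,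
    fun i j => ?_⟩
  · rw [norm_smul, Real.norm_eq_abs]
    exact mul_le_mul_of_nonneg_left (h0 x) (abs_nonneg _)
  · rw [pd_smul_nc c hf, norm_smul, Real.norm_eq_abs]
    exact mul_le_mul_of_nonneg_left (h1 i x) (abs_nonneg _)
  · rw [pd_pd_smul_nc c hf, norm_smul, Real.norm_eq_abs]
    exact mul_le_mul_of_nonneg_left (h2 i j x) (abs_nonneg _)
  · rw [pd_smul_nc c hf]
    exact (hf.m1 i).const_smul c
  · rw [pd_pd_smul_nc c hf]
    exact (hf.m2 i j).const_smul c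

theorem nc_neg (hf : Nc f) : Nc fun x => -f x := by
  have h := nc_smul (-1) hf
  simpa using h

end Pool.Agent.TF
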