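import Pool.Agent.TF.E.Ini
import Pool.Agent.TF.E.NcC

/-!
# Block E, row E2: the coefficients of the scheme
-/

set_option autoImplicit false

namespace Pool.Agent.TF

open MeasureTheory Set Filter Topology Pool.Agent.TO Pool.Agent.TB Pool.Agent.TC Pool.Agent.TP
open scoped ENNReal NNReal Real InnerProductSpace SchwartzMap LineDeriv ContDiff

namespace ECo

open EIn

variable {r : ℝ}

theorem dE_eq (hr : 0 < r) (i : Fin 3) : dE i r = pd i (et0 r) :=
  funext fun x => (pd_et0 hr i x).symm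

/-- upper bound of the kernel -/
theorem et0_le (hr : 0 < r) (x : E3) : et0 r x ≤ 15 / 2 * c0 / r ^ 3 := by
  have h1 := sg_pos hr x
  have h3 := sg_le_inv hr x
  have hc := c0_pos
  unfold et0
  calc 15 / 2 * c0 * r ^ 4 * sg r x ^ 7 ≤ 15 / 2 * c0 * r ^ 4 * r⁻¹ ^ 7 := by gcongr
    _ = 15 / 2 * c0 / r ^ 3 := by field_simp

/-- the mollified field -/
noncomputable def ff (r : ℝ) (w : V3) : E3 → E3 := cvf (et0 r) w

theorem ff_le (hr : 0 < r) (hr1 : r ≤ 1) (w : V3) (x : E3) :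
    ‖ff r w x‖ ≤ √(15 / 2 * c0) * ‖w‖ / r ^ 3 := by
  have hc := c0_pos
  have h1 := norm_cvf_le_l2 (kk_et0 hr) (C := 15 / 2 * c0 / r ^ 3) (fun y => by
    rw [abs_of_nonneg (et0_nonneg hr y)]
    exact et0_le hr y) w x
  refine h1.trans ?_
  have h2 : √(15 / 2 * c0 / r ^ 3 * 1) ≤ √(15 / 2 * c0) / r ^ 3 := by
    rw [mul_one, Real.sqrt_div (by positivity)]
    apply div_le_div_of_nonneg_left (Real.sqrt_nonneg _) (by positivity)
    apply Real.le_sqrt_of_sq_le
    have h3 : (0:ℝ) ≤ r ^ 3 := by positivity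
    have h4 : r ^ 3 ≤ 1 := pow_le_one₀ hr.le hr1
    nlinarith
  calc √(15 / 2 * c0 / r ^ 3 * 1) * ‖w‖ ≤ √(15 / 2 * c0) / r ^ 3 * ‖w‖ := by gcongr
    _ = _ := by ring

theorem dff_le (hr : 0 < r) (hr1 : r ≤ 1) (w : V3) (i : Fin 3) (x : E3) :
    ‖cvf (dE i r) w x‖ ≤ 7 * √(15 / 2 * c0) * ‖w‖ / r ^ 3 := by
  have hc := c0_pos
  rw [dE_eq hr]
  have h1 := norm_cvf_le_l2 (kk1 hr i) (C := 7 / r * (15 / 2 * c0 / r ^ 3)) (fun y =>
    (pd_et0_le hr i y).trans (by gcongr; exact et0_le hr y)) w x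
  refine h1.trans ?_
  have h2 : √(7 / r * (15 / 2 * c0 / r ^ 3) * (7 / r)) ≤ 7 * √(15 / 2 * c0) / r ^ 3 := by
    have h3 : 7 / r * (15 / 2 * c0 / r ^ 3) * (7 / r) = (7 ^ 2 * (15 / 2 * c0)) / r ^ 5 := by
      field_simp
    rw [h3, Real.sqrt_div (by positivity), Real.sqrt_mul (by positivity),
      Real.sqrt_sq (by norm_num)]
    apply div_le_div_of_nonneg_left (by positivity) (by positivity)
    apply Real.le_sqrt_of_sq_le
    have h5 : r ^ 6 ≤ r ^ 5 := pow_le_pow_of_le_one hr.le hr1 (by norm_num)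
    calc (r ^ 3) ^ 2 = r ^ 6 := by ring
      _ ≤ r ^ 5 := h5
  calc √(7 / r * (15 / 2 * c0 / r ^ 3) * (7 / r)) * ‖w‖
      ≤ 7 * √(15 / 2 * c0) / r ^ 3 * ‖w‖ := by gcongr
    _ = _ := by ring

theorem continuous_dff (hr : 0 < r) (w : V3) (i : Fin 3) : Continuous (cvf (dE i r) w) := by
  rw [dE_eq hr]
  have h : SmN 1 (pd i (et0 r)) := (smN_et0 hr).pd i
  exact (contDiff_cvf (gf_l2 (Lp.memLp w)) h).continuous

theorem pd_ff (hr : 0 < r) (w : V3) (i : Fin 3) : pd i (ff r w) = cvf (dE i r) w := by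
  rw [dE_eq hr]
  exact pd_moll hr i w

/-! ### the function `gS` -/

theorem gS_nonneg (w : V3) (x : E3) : 0 ≤ gS r w x := Real.sqrt_nonneg _

theorem gS_le (hr : 0 < r) (hr1 : r ≤ 1) (w : V3) (x : E3) :
    gS r w x ≤ 21 * √(15 / 2 * c0) * ‖w‖ / r ^ 3 := by
  have hc := c0_pos
  set B : ℝ := 7 * √(15 / 2 * c0) * ‖w‖ / r ^ 3 with hB
  have hB0 : 0 ≤ B := by positivity
  have e : 21 * √(15 / 2 * c0) * ‖w‖ / r ^ 3 = 3 * B := by
    rw [hB]
    ring
  rw [e]
  unfold gS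
  apply Real.sqrt_le_iff.2
  refine ⟨by positivity, ?_⟩
  calc ∑ i, ‖cvf (dE i r) w x‖ ^ 2 ≤ ∑ _i : Fin 3, B ^ 2 := by
        refine Finset.sum_le_sum fun i _ => ?_
        exact pow_le_pow_left₀ (norm_nonneg _) (dff_le hr hr1 w i x) 2
    _ = 3 * B ^ 2 := by
        rw [Finset.sum_const, Finset.card_univ, Fintype.card_fin, nsmul_eq_mul]
        push_cast
        ring
    _ ≤ (3 * B) ^ 2 := by nlinarith [sq_nonneg B]

theorem continuous_gS (hr : 0 < r) (w : V3) : Continuous (gS r w) := by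
  unfold gS
  refine Continuous.sqrt ?_
  refine continuous_finsetSum _ fun i _ => ?_
  exact (continuous_dff hr w i).norm.pow 2

theorem norm_le_gS (w : V3) (i : Fin 3) (x : E3) : ‖cvf (dE i r) w x‖ ≤ gS r w x := by
  unfold gS
  apply Real.le_sqrt_of_sq_le
  exact Finset.single_le_sum (f := fun i => ‖cvf (dE i r) w x‖ ^ 2) (fun i _ => by positivity)
    (Finset.mem_univ i)

theorem gf_gS (hr : 0 < r) (hr1 : r ≤ 1) (w : V3) : Gf (gS r w) :=
  gf_bdd (C := 21 * √(15 / 2 * c0) * ‖w‖ / r ^ 3) (continuous_gS hr w).aestronglyMeasurable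
    (Eventually.of_forall fun x => by
      rw [Real.norm_eq_abs, abs_of_nonneg (gS_nonneg w x)]
      exact gS_le hr hr1 w x)

/-- domination of a kernel -/
theorem int_dom {κ : E3 → ℝ} {L : ℝ} (h : KK κ L) (hr : 0 < r) (hr1 : r ≤ 1) (w : V3) (x : E3) :
    Integrable (fun y => κ y * gS r w (x - y)) (volume : Measure E3) := by
  refine Integrable.mono' (h.int.norm.mul_const (21 * √(15 / 2 * c0) * ‖w‖ / r ^ 3))
    (h.int.aestronglyMeasurable.mul
      ((continuous_gS hr w).comp (continuous_const.sub continuous_id)).aestronglyMeasurable)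
    (Eventually.of_forall fun y => ?_)
  rw [norm_mul, Real.norm_eq_abs (gS r w (x - y)), abs_of_nonneg (gS_nonneg w _)]
  gcongr
  exact gS_le hr hr1 w _

theorem cvf_dom {F : Type} [NormedAddCommGroup F] [NormedSpace ℝ F] {κ : E3 → ℝ} {L c : ℝ}
    (h : KK κ L) (hr : 0 < r) (hr1 : r ≤ 1) (w : V3) (hκ : ∀ y, |κ y| ≤ c * et0 r y)
    {g : E3 → F} (hg : ∀ x, ‖g x‖ ≤ gS r w x) (x : E3) :
    ‖cvf κ g x‖ ≤ c * cvf (et0 r) (gS r w) x := by
  unfold cvf
  calc ‖∫ y, κ y • g (x - y)‖ ≤ ∫ y, c * (et0 r y * gS r w (x - y)) := by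
        apply norm_integral_le_of_norm_le ((int_dom (kk_et0 hr) hr hr1 w x).const_mul c)
        refine Eventually.of_forall fun y => ?_
        rw [norm_smul, Real.norm_eq_abs, ← mul_assoc]
        exact mul_le_mul (hκ y) (hg _) (norm_nonneg _) ((abs_nonneg _).trans (hκ y))
    _ = c * ∫ y, et0 r y • gS r w (x - y) := by
        rw [integral_const_mul]
        rfl

/-! ### the field `bO` -/

theorem bO_eq (hr : 0 < r) (w : V3) : bO r w = cvf (et0 r) (ff r w) := by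
  funext x
  exact cvf_congr (coe_cvO (kk_et0 hr) w) x

theorem gf_ff (hr : 0 < r) (w : V3) : Gf (ff r w) := gf_l2 (memLp_cvf (kk_et0 hr) w)

theorem pd_bO (hr : 0 < r) (hr1 : r ≤ 1) (w : V3) (i : Fin 3) :
    pd i (bO r w) = cvf (et0 r) (cvf (dE i r) w) := by
  rw [bO_eq hr, ← pd_ff hr]
  refine pd_cvf_right (C' := 7 * √(15 / 2 * c0) * ‖w‖ / r ^ 3) (kk_et0 hr).int
    ((contDiff_cvf (gf_l2 (Lp.memLp w)) (smN_et0 hr)).of_le (by norm_num))
    (fun x => ff_le hr hr1 w x) (fun i x => ?_) i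
  change ‖pd i (ff r w) x‖ ≤ _
  rw [pd_ff hr]
  exact dff_le hr hr1 w i x

theorem gf_dff (hr : 0 < r) (hr1 : r ≤ 1) (w : V3) (i : Fin 3) : Gf (cvf (dE i r) w) :=
  gf_bdd (continuous_dff hr w i).aestronglyMeasurable
    (Eventually.of_forall fun x => dff_le hr hr1 w i x)

theorem pd_pd_bO (hr : 0 < r) (hr1 : r ≤ 1) (w : V3) (i j : Fin 3) :
    pd i (pd j (bO r w)) = cvf (pd i (et0 r)) (cvf (dE j r) w) := by
  rw [pd_bO hr hr1]
  exact pd_cvf (gf_dff hr hr1 w j) ((smN_et0 hr).mono (by norm_num)) i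

/-- Minkowski's inequality -/
theorem bO_one (hr : 0 < r) (hr1 : r ≤ 1) (w : V3) (x : E3) :
    √(∑ i, ‖pd i (bO r w) x‖ ^ 2) ≤ cvf (et0 r) (gS r w) x := by
  set G : E3 → PiLp 2 (fun _ : Fin 3 => E3) := fun z => WithLp.toLp 2 fun i => cvf (dE i r) w z
    with hG
  have hGn : ∀ z, ‖G z‖ = gS r w z := fun z => by
    rw [PiLp.norm_eq_of_L2]
    rfl
  have hGc : Continuous G := by
    refine (PiLp.continuous_toLp 2 _).comp (continuous_pi fun i => continuous_dff hr w i)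
  have hGi : Integrable (fun y => et0 r y • G (x - y)) (volume : Measure E3) := by
    refine Integrable.mono' (int_dom (kk_et0 hr) hr hr1 w x)
      ((continuous_et0 hr).aestronglyMeasurable.smul
        (hGc.comp (continuous_const.sub continuous_id)).aestronglyMeasurable)
      (Eventually.of_forall fun y => ?_)
    rw [norm_smul, hGn, Real.norm_eq_abs, abs_of_nonneg (et0_nonneg hr y)]
  have hc : ∀ i, cvf (et0 r) G x i = pd i (bO r w) x := fun i => by
    rw [pd_bO hr hr1]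
    unfold cvf
    have h2 := (PiLp.proj (𝕜 := ℝ) 2 (fun _ : Fin 3 => E3) i).integral_comp_comm hGi
    exact h2.symm
  have h1 : √(∑ i, ‖pd i (bO r w) x‖ ^ 2) = ‖cvf (et0 r) G x‖ := by
    rw [PiLp.norm_eq_of_L2]
    simp only [hc]
  rw [h1]
  have h3 := cvf_dom (kk_et0 hr) hr hr1 w (c := 1) (fun y => by
    rw [abs_of_nonneg (et0_nonneg hr y), one_mul]) (g := G) (fun z => (hGn z).le) x
  rwa [one_mul] at h3

/-- the field is divergence-free -/
theorem div_bO (hr : 0 < r) {w : V3} (hw : IsDivFree w) (x : E3) : ∑ i, (pd i (bO r w) x) i = 0 := by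
  set W : V3 := cvO (et0 r) w with hW
  have hWd : IsDivFree W := div_cvO _ hw
  have hBd : IsDivFree (cvO (et0 r) W) := div_cvO _ hWd
  have e : ∀ i, pd i (bO r w) = cvf (pd i (et0 r)) W := fun i => pd_moll hr i W
  have hwk : ∀ k, IsWeakDeriv k (cvO (et0 r) W) (cvO (pd k (et0 r)) W) := fun k =>
    weak_kernel (kk_et0 hr) (kk1 hr k) (fun y =>
      (hasFDerivAt_et0 hr y).differentiableAt.hasFDerivAt.hasLineDerivAt (ee k)) W
  have hs := sum_PM_div hBd hwk 0
  have hc : ∀ i, Continuous (pd i (bO r w)) := fun i => by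
    rw [e]
    have h : SmN 1 (pd i (et0 r)) := (smN_et0 hr).pd i
    exact (contDiff_cvf (gf_l2 (Lp.memLp W)) h).continuous
  have hcs : Continuous fun x => ∑ i, (pd i (bO r w) x) i :=
    continuous_finsetSum _ fun i _ =>
      (EuclideanSpace.proj (𝕜 := ℝ) i : E3 →L[ℝ] ℝ).continuous.comp (hc i)
  have hae : (fun x => ∑ i, (pd i (bO r w) x) i) =ᵐ[volume] fun _ => (0 : ℝ) := by
    rw [Fin.sum_univ_three] at hs
    filter_upwards [coe_PM 0 0 (cvO (pd 0 (et0 r)) W), coe_PM 1 0 (cvO (pd 1 (et0 r)) W),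
      coe_PM 2 0 (cvO (pd 2 (et0 r)) W), coe_cvO (kk1 hr 0) W, coe_cvO (kk1 hr 1) W,
      coe_cvO (kk1 hr 2) W, Lp.coeFn_add (PM 0 0 (cvO (pd 0 (et0 r)) W) +
        PM 1 0 (cvO (pd 1 (et0 r)) W)) (PM 2 0 (cvO (pd 2 (et0 r)) W)),
      Lp.coeFn_add (PM 0 0 (cvO (pd 0 (et0 r)) W)) (PM 1 0 (cvO (pd 1 (et0 r)) W)),
      Lp.coeFn_zero E3 2 (volume : Measure E3)] with y h0 h1 h2 c0' c1' c2' a1 a2 z0
    rw [hs, z0, Pi.add_apply, a2, Pi.add_apply, h0, h1, h2, c0', c1', c2'] at a1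
    have h4 := congrArg (fun v : E3 => v 0) a1
    rw [Fin.sum_univ_three, e, e, e]
    simp [ee] at h4
    linarith
  exact congrFun (hcs.ae_eq_iff_eq (volume : Measure E3) continuous_const |>.1 hae) x

end ECo

open EIn ECo in
/-- (E1) the coefficients have the required properties -/
theorem coef_ok : StCoef := by
  have hc := c0_pos
  refine ⟨70, by norm_num, 168 * √(15 / 2 * c0), by positivity, ?_⟩
  intro r hr hr1 w hw
  have hg := gf_gS hr hr1 w
  have hlam : lO r w = fun x => (8 : ℝ) * cvf (et0 r) (gS r w) x := rfl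
  have hcc : ContDiff ℝ 2 (cvf (et0 r) (gS r w)) := contDiff_cvf hg (smN_et0 hr)
  have hp1 : ∀ i, pd i (lO r w) = fun x => 8 * cvf (pd i (et0 r)) (gS r w) x := fun i => by
    rw [← pd_cvf hg ((smN_et0 hr).mono (by norm_num)) i]
    funext x
    unfold pd
    rw [hlam, fderiv_const_mul ((hcc.differentiable (by norm_num)) x)]
    rfl
  have hp2 : ∀ i j, pd i (pd j (lO r w)) = fun x => 8 * cvf (pd i (pd j (et0 r))) (gS r w) x :=
    fun i j => by
      rw [← pd_pd_cvf hg (smN_et0 hr) i j, hp1 j,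
        ← pd_cvf hg ((smN_et0 hr).mono (by norm_num)) j]
      funext x
      have hd : ContDiff ℝ 1 (pd j (cvf (et0 r) (gS r w))) := by
        rw [pd_cvf hg ((smN_et0 hr).mono (by norm_num)) j]
        exact contDiff_cvf (n := 1) hg ((smN_et0 hr).pd j)
      unfold pd at hd ⊢
      rw [fderiv_const_mul ((hd.differentiable (by norm_num)) x)]
      rfl
  have hl0 : ∀ x, 0 ≤ cvf (et0 r) (gS r w) x := fun x =>
    integral_nonneg fun y => mul_nonneg (et0_nonneg hr y) (gS_nonneg w _)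
  refine ⟨contDiff_cvf (gf_l2 (Lp.memLp _)) (smN_et0 hr), ?_, fun x => ?_, fun x => ?_, fun x => ?_,
    fun x => div_bO hr hw x, fun x => ?_, fun i j x => ?_, fun i x => ?_, fun i j x => ?_⟩
  · rw [hlam]
    exact contDiff_const.mul hcc
  · rw [hlam]
    have := hl0 x
    positivity
  · have h2 : cvf (et0 r) (gS r w) x ≤ 21 * √(15 / 2 * c0) * ‖w‖ / r ^ 3 := by
      have h3 : cvf (et0 r) (gS r w) x ≤ ∫ y, et0 r y * (21 * √(15 / 2 * c0) * ‖w‖ / r ^ 3) := by
        refine integral_mono (int_dom (kk_et0 hr) hr hr1 w x) ((integrable_et0 hr).mul_const _)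
          fun y => ?_
        exact mul_le_mul_of_nonneg_left (gS_le hr hr1 w _) (et0_nonneg hr y)
      rwa [integral_mul_const, integral_et0 hr, one_mul] at h3
    rw [hlam]
    calc 8 * cvf (et0 r) (gS r w) x ≤ 8 * (21 * √(15 / 2 * c0) * ‖w‖ / r ^ 3) := by gcongr
      _ = _ := by ring
  · rw [bO_eq hr]
    have h1 := cvf_le (kk_et0 hr) (f := ff r w) (A := √(15 / 2 * c0) * ‖w‖ / r ^ 3)
      (by positivity) (Eventually.of_forall fun x => ff_le hr hr1 w x) x
    refine h1.trans ?_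
    rw [one_mul]
    have h5 : 0 ≤ √(15 / 2 * c0) * ‖w‖ / r ^ 3 := by positivity
    calc √(15 / 2 * c0) * ‖w‖ / r ^ 3 ≤ 168 * (√(15 / 2 * c0) * ‖w‖ / r ^ 3) := by linarith
      _ = _ := by ring
  · have h1 := bO_one hr hr1 w x
    rw [Real.sqrt_le_iff] at h1
    have e : lO r w x / 8 = cvf (et0 r) (gS r w) x := by
      rw [hlam]
      ring
    rw [e]
    exact h1.2
  · rw [pd_pd_bO hr hr1]
    have h1 := cvf_dom (kk1 hr i) hr hr1 w (pd_et0_le hr i) (norm_le_gS w j) x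
    refine h1.trans ?_
    have e : 70 * lO r w x / r = 560 / r * cvf (et0 r) (gS r w) x := by
      rw [hlam]
      ring
    rw [e]
    have := hl0 x
    gcongr
    norm_num
  · rw [hp1]
    have h1 := cvf_dom (kk1 hr i) hr hr1 w (pd_et0_le hr i) (g := gS r w) (fun x => by
      rw [Real.norm_eq_abs, abs_of_nonneg (gS_nonneg w x)]) x
    rw [Real.norm_eq_abs] at h1
    have := hl0 x
    rw [abs_mul, abs_of_pos (by norm_num : (0:ℝ) < 8)]
    calc 8 * |cvf (pd i (et0 r)) (gS r w) x| ≤ 8 * (7 / r * cvf (et0 r) (gS r w) x) := by gcongr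
      _ ≤ 70 / r * (8 * cvf (et0 r) (gS r w) x) := by
          rw [show 8 * (7 / r * cvf (et0 r) (gS r w) x) = 7 / r * (8 * cvf (et0 r) (gS r w) x) by
            ring]
          gcongr
          norm_num
      _ = _ := by
          rw [hlam]
          ring
  · rw [hp2]
    have h1 := cvf_dom (kk2 hr i j) hr hr1 w (pd_pd_et0_le hr i j) (g := gS r w) (fun x => by
      rw [Real.norm_eq_abs, abs_of_nonneg (gS_nonneg w x)]) x
    rw [Real.norm_eq_abs] at h1
    rw [abs_mul, abs_of_pos (by norm_num : (0:ℝ) < 8)]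
    calc 8 * |cvf (pd i (pd j (et0 r))) (gS r w) x|
        ≤ 8 * (70 / r ^ 2 * cvf (et0 r) (gS r w) x) := by gcongr
      _ = _ := by
          rw [hlam]
          ring

end Pool.Agent.TF
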