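import Pool.Agent.TF.Flow
import Pool.Agent.TP.Pot

/-!
# Project TF, block E: the field of a state is divergence-free
-/

set_option autoImplicit false

namespace Pool.Agent.TF

open MeasureTheory Set Filter Topology Pool.Agent.TO Pool.Agent.TB Pool.Agent.TC Pool.Agent.TP
open scoped ENNReal NNReal Real InnerProductSpace SchwartzMap LineDeriv

variable {R : Fin 3 → V3 →L[ℝ] V3}

/-! ### The class of a nice function and its derivatives -/

theorem dv_vL {f : E3 → E3} (h : MemLp f 2 (volume : Measure E3)) : vL f = h.toLp := by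
  unfold vL
  rw [dif_pos h]

/-- the classical derivative is the weak derivative -/
theorem dv_weak_vL {f : E3 → E3} (hf : Differentiable ℝ f)
    (h0 : MemLp f 2 (volume : Measure E3)) (k : Fin 3)
    (h1 : MemLp (pd k f) 2 (volume : Measure E3)) : IsWeakDeriv k (vL f) (vL (pd k f)) := by
  rw [dv_vL h0, dv_vL h1]
  exact weak_of_line h0 h1 fun x => (hf x).hasFDerivAt.hasLineDerivAt (ee k)

theorem dv_weak_Nc {f : E3 → E3} (hf : Nc f) (k : Fin 3) :
    IsWeakDeriv k (vL f) (vL (pd k f)) :=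
  dv_weak_vL (hf.c2.differentiable (by norm_num)) hf.m0 k (hf.m1 k)

/-! ### Coordinates -/

theorem dv_PM_PM (l i m : Fin 3) (f : V3) : PM l m (PM i l f) = PM i m f := by
  apply Lp.ext
  filter_upwards [coe_PM l m (PM i l f), coe_PM i l f, coe_PM i m f] with x h1 h2 h3
  rw [h1, h2, h3]
  congr 1
  simp [ee]

theorem dv_inner_comp (f g : V3) : ⟪f, g⟫_ℝ = ∑ i, ⟪PM i 0 f, PM i 0 g⟫_ℝ := by
  simp only [inner_PM, dv_PM_PM]
  rw [← sum_inner, sum_PM]

/-- a symmetric and an antisymmetric family are orthogonal -/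
theorem dv_sum_zero {D g : Fin 3 → V3} (hD : ∀ i k, PM i 0 (D k) = PM k 0 (D i))
    (hg : ∀ i k, PM i 0 (g k) = -PM k 0 (g i)) : ∑ k, ⟪D k, g k⟫_ℝ = 0 := by
  have h1 : ∑ k, ⟪D k, g k⟫_ℝ = -∑ k, ⟪D k, g k⟫_ℝ := by
    calc ∑ k, ⟪D k, g k⟫_ℝ = ∑ k, ∑ i, ⟪PM i 0 (D k), PM i 0 (g k)⟫_ℝ :=
          Finset.sum_congr rfl fun k _ => dv_inner_comp _ _
      _ = ∑ k, ∑ i, -⟪PM k 0 (D i), PM k 0 (g i)⟫_ℝ := by
          refine Finset.sum_congr rfl fun k _ => Finset.sum_congr rfl fun i _ => ?_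
          rw [hD i k, hg i k, inner_neg_right]
      _ = ∑ i, ∑ k, -⟪PM k 0 (D i), PM k 0 (g i)⟫_ℝ := Finset.sum_comm
      _ = -∑ k, ⟪D k, g k⟫_ℝ := by
          simp only [Finset.sum_neg_distrib]
          congr 1
          exact Finset.sum_congr rfl fun k _ => (dv_inner_comp _ _).symm
  linarith

/-! ### The operators `T_j` -/

theorem dv_To_weak (hR : RZ R) (j : Option (Fin 3)) {k : Fin 3} {f g : V3}
    (h : IsWeakDeriv k f g) : IsWeakDeriv k (To R j f) (To R j g) := by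
  cases j with
  | none => exact h
  | some j => exact hR.weak j k f g h

theorem dv_To_pm (hR : RZ R) (j : Option (Fin 3)) (i k : Fin 3) (f : V3) :
    To R j (PM i k f) = PM i k (To R j f) := by
  cases j with
  | none => rfl
  | some j => exact hR.pm j i k f

theorem dv_To_adj (hR : RZ R) (j : Option (Fin 3)) :
    ∃ s : ℝ, ∀ f g : V3, ⟪f, To R j g⟫_ℝ = s * ⟪To R j f, g⟫_ℝ := by
  cases j with
  | none => exact ⟨1, fun f g => by rw [one_mul]; rfl⟩
  | some j => exact ⟨-1, fun f g => by rw [neg_one_mul]; exact hR.anti j f g⟩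

/-- symmetry of the second derivatives -/
theorem dv_PM_gR (φ : 𝓢(E3, ℝ)) (i k : Fin 3) :
    PM i 0 (emb (∂_{ee k} (gR φ))) = PM k 0 (emb (∂_{ee i} (gR φ))) := by
  rw [← emb_PS, ← emb_PS]
  congr 1
  ext x m
  rw [PS_apply, PS_apply, lineDeriv_gR, lineDeriv_gR, lineDeriv_comm_R]

/-- the divergence of `∑_k T ∂_k g_k` for an antisymmetric family `g` -/
theorem dv_div_anti (hR : RZ R) (j : Option (Fin 3)) {g : Fin 3 → V3} {dg : Fin 3 → V3}
    (hg : ∀ k, IsWeakDeriv k (g k) (dg k)) (ha : ∀ i k, PM i 0 (g k) = -PM k 0 (g i)) :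
    IsDivFree (∑ k, To R j (dg k)) := by
  rw [div_iff]
  intro φ
  obtain ⟨s, hs⟩ := dv_To_adj hR j
  have h1 : ∀ k, ⟪emb (gR φ), To R j (dg k)⟫_ℝ =
      -s * ⟪To R j (emb (∂_{ee k} (gR φ))), g k⟫_ℝ := by
    intro k
    have h2 := weak_parts (k := k) (f := To R j (emb (gR φ)))
      (df := fun k => To R j (emb (∂_{ee k} (gR φ)))) (g := g k) (dg := fun _ => dg k)
      (fun k => dv_To_weak hR j (weak_schwartz (gR φ) k)) (hg k)
    rw [hs, h2]
    ring
  rw [inner_sum]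
  simp only [h1]
  rw [← Finset.mul_sum, dv_sum_zero (D := fun k => To R j (emb (∂_{ee k} (gR φ)))) ?_ ha, mul_zero]
  intro i k
  rw [← dv_To_pm hR, ← dv_To_pm hR, dv_PM_gR]

/-! ### The Leray projection -/

/-- `R_j ∂_i = R_i ∂_j` -/
theorem dv_swap (hR : RZ R) (i j : Fin 3) {f fi fj : V3} (hi : IsWeakDeriv i f fi)
    (hj : IsWeakDeriv j f fj) : R j fi = R i fj := by
  have h1 : ∀ y : ℝ, 0 < y → Pp y (R j fi) = Pp y (R i fj) := by
    intro y hy
    have a1 : Pp y (R j fi) = Dp i y (R j f) :=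
      weak_unique (weak_cvO (pk y) (hR.weak j i f fi hi)) (weak_Pp i hy (R j f))
    have a2 : Pp y (R i fj) = Dp j y (R i f) :=
      weak_unique (weak_cvO (pk y) (hR.weak i j f fj hj)) (weak_Pp j hy (R i f))
    rw [a1, a2, hR.dp i j y hy f]
  have h2 := tendsto_Pp_zero (R j fi)
  have h3 := tendsto_Pp_zero (R i fj)
  refine tendsto_nhds_unique (h2.congr' ?_) h3
  filter_upwards [self_mem_nhdsWithin] with y hy
  exact h1 y hy

theorem dv_PM_R (hR : RZ R) (φ : 𝓢(E3, ℝ)) (i l m : Fin 3) :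
    PM i m (R l (emb (gR φ))) = PM l m (R i (emb (gR φ))) := by
  rw [← hR.pm, ← hR.pm, ← emb_PS, ← emb_PS, PS_gR, PS_gR]
  exact dv_swap hR i l (weak_schwartz _ i) (weak_schwartz _ l)

theorem dv_RR_gR (hR : RZ R) (φ : 𝓢(E3, ℝ)) :
    ∑ i, ∑ l, PM i l (R l (R i (emb (gR φ)))) = -emb (gR φ) := by
  have h1 : ∀ i l, PM i l (R l (R i (emb (gR φ)))) = R i (R i (PM l l (emb (gR φ)))) := by
    intro i l
    rw [hR.comm l i, ← hR.pm, dv_PM_R hR φ i l l, ← hR.pm]
  simp only [h1]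
  have h2 : ∀ i, ∑ l, R i (R i (PM l l (emb (gR φ)))) = R i (R i (emb (gR φ))) := by
    intro i
    rw [← map_sum, ← map_sum, sum_PM]
  simp only [h2]
  exact hR.sum_sq _

/-- the Leray projection of a field in `L²` is divergence-free -/
theorem dv_div_LP (hR : RZ R) (X : V3) : IsDivFree (LP R X) := by
  rw [div_iff]
  intro φ
  unfold LP
  rw [inner_add_right, inner_sum]
  have h1 : ∀ i l, ⟪emb (gR φ), R i (R l (PM l i X))⟫_ℝ =
      ⟪PM i l (R l (R i (emb (gR φ)))), X⟫_ℝ := by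
    intro i l
    rw [hR.anti, hR.anti, neg_neg, inner_PM]
  simp only [inner_sum, h1]
  simp only [← sum_inner]
  rw [dv_RR_gR hR φ, inner_neg_left, add_neg_cancel]

/-! ### Convolutions -/

/-- translates of a divergence-free field -/
theorem dv_div_tau {f : V3} (hf : IsDivFree f) (a : E3) : IsDivFree (tau a f) := by
  intro φ
  have e0 : ∀ x : E3, (φ.compSubConstCLM ℝ (-a)) x = φ (x + a) := by
    intro x
    rw [SchwartzMap.compSubConstCLM_apply, sub_neg_eq_add]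
  have e1 : ∀ x : E3, fderiv ℝ (φ.compSubConstCLM ℝ (-a)) x = fderiv ℝ φ (x + a) := by
    intro x
    have h1 : (φ.compSubConstCLM ℝ (-a) : E3 → ℝ) = fun x => φ (x + a) := funext e0
    rw [h1, fderiv_comp_add_right]
  have h2 : ∫ x, fderiv ℝ φ x ((tau a f : V3) x) = ∫ x, fderiv ℝ φ x (f (x - a)) := by
    apply integral_congr_ae
    filter_upwards [coe_tau a f] with x hx
    rw [hx]
  have h3 := integral_sub_right_eq_self (μ := (volume : Measure E3))
    (fun x => fderiv ℝ φ (x + a) (f x)) a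
  simp only [sub_add_cancel] at h3
  rw [h2, h3, ← hf (φ.compSubConstCLM ℝ (-a))]
  simp only [e1]

theorem dv_div_cvO {f : V3} (hf : IsDivFree f) (κ : E3 → ℝ) : IsDivFree (cvO κ f) := by
  rw [div_iff]
  intro φ
  unfold cvO
  split_ifs with h
  · rw [inner_cvL_tau]
    have h1 : ∀ y, ⟪emb (gR φ), tau y f⟫_ℝ = 0 := fun y => (div_iff _).1 (dv_div_tau hf y) φ
    simp only [h1, mul_zero, integral_zero]
  · simp

/-! ### The divergence of a field with weak derivatives -/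

theorem dv_sum_ae {W : V3} (hW : IsDivFree W) {dW : Fin 3 → V3}
    (hd : ∀ k, IsWeakDeriv k W (dW k)) : ∀ᵐ x ∂(volume : Measure E3), ∑ i, (dW i) x i = 0 := by
  have h1 := sum_PM_div hW hd 0
  rw [Fin.sum_univ_three] at h1
  have h2 : ((PM 0 0 (dW 0) + PM 1 0 (dW 1) + PM 2 0 (dW 2) : V3) : E3 → E3) =ᵐ[volume] 0 := by
    rw [h1]
    exact Lp.coeFn_zero _ _ _
  filter_upwards [h2, coe_PM 0 0 (dW 0), coe_PM 1 0 (dW 1), coe_PM 2 0 (dW 2),
    Lp.coeFn_add (PM 0 0 (dW 0) + PM 1 0 (dW 1)) (PM 2 0 (dW 2)),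
    Lp.coeFn_add (PM 0 0 (dW 0)) (PM 1 0 (dW 1))] with x h2 h3 h4 h5 h6 h7
  rw [h6, Pi.add_apply, h7, Pi.add_apply, h3, h4, h5] at h2
  have h8 := congrArg (fun v : E3 => v 0) h2
  rw [Fin.sum_univ_three]
  simpa [ee] using h8

/-- the pointwise version for functions with continuous derivatives -/
theorem dv_sum_pt {F : E3 → E3} (hF : ContDiff ℝ 1 F) (h0 : MemLp F 2 (volume : Measure E3))
    (h1 : ∀ i, MemLp (pd i F) 2 (volume : Measure E3)) (hd : IsDivFree (vL F)) (x : E3) :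
    ∑ i, (pd i F x) i = 0 := by
  have h2 := dv_sum_ae hd (dW := fun k => vL (pd k F)) fun k =>
    dv_weak_vL (hF.differentiable (by norm_num)) h0 k (h1 k)
  have hc : Continuous fun x => ∑ i, (pd i F x) i := by
    refine continuous_finsetSum _ fun i _ => ?_
    have h3 : Continuous fun x => pd i F x :=
      (hF.continuous_fderiv (by norm_num)).clm_apply continuous_const
    exact (EuclideanSpace.proj (𝕜 := ℝ) i : E3 →L[ℝ] ℝ).continuous.comp h3
  have h4 : (fun x => ∑ i, (pd i F x) i) =ᵐ[(volume : Measure E3)] fun _ => (0 : ℝ) := by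
    have e : ∀ i, (vL (pd i F) : E3 → E3) =ᵐ[(volume : Measure E3)] pd i F := by
      intro i
      rw [dv_vL (h1 i)]
      exact (h1 i).coeFn_toLp
    filter_upwards [h2, e 0, e 1, e 2] with x a0 a1 a2 a3
    rw [Fin.sum_univ_three] at a0 ⊢
    rw [← a1, ← a2, ← a3]
    exact a0
  exact congrFun (Continuous.ae_eq_iff_eq (volume : Measure E3) hc continuous_const |>.1 h4) x

/-! ### The field of a state -/

theorem dv_anti {σ : Sta} (hn : NcS σ) (ha : Anti σ) (j : Option (Fin 3)) (i k : Fin 3) :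
    PM i 0 (vL (σ.g k j)) = -PM k 0 (vL (σ.g i j)) := by
  rw [dv_vL (hn.1 k j).m0, dv_vL (hn.1 i j).m0]
  apply Lp.ext
  filter_upwards [coe_PM i 0 ((hn.1 k j).m0.toLp), coe_PM k 0 ((hn.1 i j).m0.toLp),
    (hn.1 k j).m0.coeFn_toLp, (hn.1 i j).m0.coeFn_toLp,
    Lp.coeFn_neg (PM k 0 ((hn.1 i j).m0.toLp))] with x h1 h2 h3 h4 h5
  rw [h5, Pi.neg_apply, h1, h2, h3, h4, ha k j i x, neg_smul]

theorem dv_div_add {f g : V3} (hf : IsDivFree f) (hg : IsDivFree g) : IsDivFree (f + g) := by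
  rw [div_iff] at *
  intro φ
  rw [inner_add_right, hf φ, hg φ, add_zero]

theorem dv_div_sum {ι : Type*} (s : Finset ι) {f : ι → V3} (hf : ∀ i ∈ s, IsDivFree (f i)) :
    IsDivFree (∑ i ∈ s, f i) := by
  rw [div_iff]
  intro φ
  rw [inner_sum]
  exact Finset.sum_eq_zero fun i hi => (div_iff _).1 (hf i hi) φ

theorem stDiv : StDiv := by
  intro R hR σ hn ha hl
  unfold Hh
  refine dv_div_add (dv_div_add ?_ (dv_div_LP hR _)) hl
  rw [Finset.sum_comm]
  refine dv_div_sum _ fun j _ => ?_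
  exact dv_div_anti hR j (g := fun k => vL (σ.g k j)) (dg := fun k => vL (pd k (σ.g k j)))
    (fun k => dv_weak_Nc (hn.1 k j) k) (dv_anti hn ha j)

end Pool.Agent.TF
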