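import Pool.Agent.TF.Flow

/-!
# Convolutions with smooth kernels
-/

set_option autoImplicit false

namespace Pool.Agent.TF

open MeasureTheory Set Filter Topology Pool.Agent.TO Pool.Agent.TB Pool.Agent.TC Pool.Agent.TP
open scoped ENNReal NNReal Real InnerProductSpace SchwartzMap LineDeriv ContDiff

section gen

variable {F : Type} [NormedAddCommGroup F] [NormedSpace ℝ F] {f : E3 → F} {K : E3 → ℝ}

/-- the convolution with a bilinear map -/
noncomputable def cvB {G H : Type} [NormedAddCommGroup G] [NormedSpace ℝ G]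
    [NormedAddCommGroup H] [NormedSpace ℝ H] (B : G →L[ℝ] F →L[ℝ] H) (κ : E3 → G) (f : E3 → F)
    (x : E3) : H := ∫ y, B (κ (x - y)) (f y)

theorem norm_precompL_le {G H : Type} [NormedAddCommGroup G] [NormedSpace ℝ G]
    [NormedAddCommGroup H] [NormedSpace ℝ H] (B : G →L[ℝ] F →L[ℝ] H) (A : E3 →L[ℝ] G) (v : F) :
    ‖B.precompL E3 A v‖ ≤ ‖B‖ * ‖A‖ * ‖v‖ := by
  refine ContinuousLinearMap.opNorm_le_bound _ (by positivity) fun e => ?_
  rw [ContinuousLinearMap.precompL_apply]
  calc ‖B (A e) v‖ ≤ ‖B‖ * ‖A e‖ * ‖v‖ := B.le_opNorm₂ _ _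
    _ ≤ ‖B‖ * (‖A‖ * ‖e‖) * ‖v‖ := by
        gcongr
        exact A.le_opNorm e
    _ = _ := by ring

variable (hf : AEStronglyMeasurable f (volume : Measure E3))
  (hi : ∀ x, Integrable (fun y => K (x - y) * ‖f y‖) (volume : Measure E3))

include hf

theorem aesm_cvB {G H : Type} [NormedAddCommGroup G] [NormedSpace ℝ G]
    [NormedAddCommGroup H] [NormedSpace ℝ H] (B : G →L[ℝ] F →L[ℝ] H) {κ : E3 → G}
    (hκ : Continuous κ) (x : E3) :
    AEStronglyMeasurable (fun y => B (κ (x - y)) (f y)) (volume : Measure E3) := by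
  have h1 : AEStronglyMeasurable (fun y => κ (x - y)) (volume : Measure E3) :=
    (hκ.comp (continuous_const.sub continuous_id)).aestronglyMeasurable
  exact B.aestronglyMeasurable_comp₂ h1 hf

include hi

theorem integrable_cvB {G H : Type} [NormedAddCommGroup G] [NormedSpace ℝ G]
    [NormedAddCommGroup H] [NormedSpace ℝ H] (B : G →L[ℝ] F →L[ℝ] H) {κ : E3 → G}
    (hκ : Continuous κ) (hK : ∀ z, ‖κ z‖ ≤ K z) (x : E3) :
    Integrable (fun y => B (κ (x - y)) (f y)) (volume : Measure E3) := by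
  refine Integrable.mono' ((hi x).const_mul ‖B‖) (aesm_cvB hf B hκ x)
    (Eventually.of_forall fun y => ?_)
  refine (B.le_opNorm₂ _ _).trans ?_
  rw [mul_assoc]
  gcongr
  exact hK _

theorem continuous_cvB {G H : Type} [NormedAddCommGroup G] [NormedSpace ℝ G]
    [NormedAddCommGroup H] [NormedSpace ℝ H] (B : G →L[ℝ] F →L[ℝ] H) {κ : E3 → G}
    (hκ : Continuous κ) (hK : ∀ z h : E3, ‖h‖ ≤ 1 → ‖κ (z + h)‖ ≤ K z) :
    Continuous (cvB B κ f) := by
  rw [continuous_iff_continuousAt]
  intro x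
  unfold cvB
  refine continuousAt_of_dominated (bound := fun y => ‖B‖ * (K (x - y) * ‖f y‖)) ?_ ?_
    ((hi x).const_mul ‖B‖) ?_
  · exact Eventually.of_forall fun x' => aesm_cvB hf B hκ x'
  · filter_upwards [Metric.ball_mem_nhds x one_pos] with x' hx'
    refine Eventually.of_forall fun y => ?_
    refine (B.le_opNorm₂ _ _).trans ?_
    rw [mul_assoc]
    gcongr
    have := hK (x - y) (x' - x) (by
      rw [← dist_eq_norm]
      exact (Metric.mem_ball.1 hx').le)
    rwa [show x - y + (x' - x) = x' - y by abel] at this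
  · refine Eventually.of_forall fun y => ?_
    have h1 : Continuous fun x' => B (κ (x' - y)) (f y) := by
      have h2 : Continuous fun x' => κ (x' - y) := hκ.comp (continuous_id.sub continuous_const)
      exact (B.continuous.comp h2).clm_apply continuous_const
    exact h1.continuousAt

theorem hasFDerivAt_cvB {G H : Type} [NormedAddCommGroup G] [NormedSpace ℝ G]
    [NormedAddCommGroup H] [NormedSpace ℝ H] (B : G →L[ℝ] F →L[ℝ] H) {κ : E3 → G}
    (hκ : ContDiff ℝ 1 κ) (hK : ∀ z h : E3, ‖h‖ ≤ 1 → ‖κ (z + h)‖ ≤ K z)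
    (hK' : ∀ z h : E3, ‖h‖ ≤ 1 → ‖fderiv ℝ κ (z + h)‖ ≤ K z) (x : E3) :
    HasFDerivAt (cvB B κ f) (cvB (B.precompL E3) (fderiv ℝ κ) f x) x := by
  have hc' : Continuous (fderiv ℝ κ) := hκ.continuous_fderiv one_ne_zero
  have hd : Differentiable ℝ κ := hκ.differentiable one_ne_zero
  unfold cvB
  refine hasFDerivAt_integral_of_dominated_of_fderiv_le (𝕜 := ℝ) (s := Metric.ball x 1)
    (F' := fun x' y => B.precompL E3 (fderiv ℝ κ (x' - y)) (f y))
    (bound := fun y => ‖B‖ * (K (x - y) * ‖f y‖)) (Metric.ball_mem_nhds x one_pos)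
    ?_ ?_ ?_ ?_ ((hi x).const_mul _) ?_
  · exact Eventually.of_forall fun x' => aesm_cvB hf B hκ.continuous x'
  · refine integrable_cvB hf hi B hκ.continuous (fun z => ?_) x
    have := hK z 0 (by simp)
    rwa [add_zero] at this
  · exact aesm_cvB hf (B.precompL E3) hc' x
  · refine Eventually.of_forall fun y x' hx' => ?_
    refine (norm_precompL_le B _ _).trans ?_
    rw [mul_assoc]
    gcongr
    have := hK' (x - y) (x' - x) (by
      rw [← dist_eq_norm]
      exact (Metric.mem_ball.1 hx').le)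
    rwa [show x - y + (x' - x) = x' - y by abel] at this
  · refine Eventually.of_forall fun y x' _ => ?_
    have h1 : HasFDerivAt (fun x' => κ (x' - y)) (fderiv ℝ κ (x' - y)) x' :=
      (hd (x' - y)).hasFDerivAt.comp x' ((hasFDerivAt_id x').sub_const y)
    have h2 := B.hasFDerivAt_of_bilinear h1 (hasFDerivAt_const (f y) x')
    refine h2.congr_fderiv ?_
    ext v
    simp

/-- convolutions with `C^n` kernels are `C^n` -/
theorem contDiff_cvB (n : ℕ) : ∀ {G H : Type} [NormedAddCommGroup G] [NormedSpace ℝ G]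
    [NormedAddCommGroup H] [NormedSpace ℝ H] (B : G →L[ℝ] F →L[ℝ] H) {κ : E3 → G}
    (_ : ContDiff ℝ n κ)
    (_ : ∀ m ≤ n, ∀ z h : E3, ‖h‖ ≤ 1 → ‖iteratedFDeriv ℝ m κ (z + h)‖ ≤ K z),
    ContDiff ℝ n (cvB B κ f) := by
  induction n with
  | zero =>
    intro G H _ _ _ _ B κ hκ hK
    rw [Nat.cast_zero, contDiff_zero]
    refine continuous_cvB hf hi B hκ.continuous fun z h hh => ?_
    have := hK 0 le_rfl z h hh
    rwa [norm_iteratedFDeriv_zero] at this
  | succ n ih =>
    intro G H _ _ _ _ B κ hκ hK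
    have hκ1 : ContDiff ℝ 1 κ := hκ.of_le (by
      push_cast
      exact le_add_self)
    have hd := fun x => hasFDerivAt_cvB hf hi B hκ1 (fun z h hh => by
      have := hK 0 (Nat.zero_le _) z h hh
      rwa [norm_iteratedFDeriv_zero] at this) (fun z h hh => by
      have := hK 1 (by omega) z h hh
      rwa [norm_iteratedFDeriv_one] at this) x
    have h1 := (contDiff_succ_iff_fderiv (n := (n : WithTop ℕ∞))).1 (by exact_mod_cast hκ)
    push_cast
    refine contDiff_succ_iff_fderiv.2 ⟨fun x => (hd x).differentiableAt, fun h => ?_, ?_⟩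
    · exact absurd h (by simp)
    · have e : fderiv ℝ (cvB B κ f) = cvB (B.precompL E3) (fderiv ℝ κ) f := by
        funext x
        exact (hd x).fderiv
      rw [e]
      refine ih (B.precompL E3) h1.2.2 fun m hm z h hh => ?_
      rw [norm_iteratedFDeriv_fderiv]
      exact hK (m + 1) (by omega) z h hh

end gen

/-! ### scalar kernels -/

/-- `C^n` kernels with integrable local majorants -/
structure SmN (n : ℕ) (κ : E3 → ℝ) : Prop where
  cd : ContDiff ℝ n κ
  dom : ∃ K L, KK K L ∧ ∀ m ≤ n, ∀ z h : E3, ‖h‖ ≤ 1 → ‖iteratedFDeriv ℝ m κ (z + h)‖ ≤ K z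

/-- functions with absolutely convergent convolutions -/
structure Gf {F : Type} [NormedAddCommGroup F] (f : E3 → F) : Prop where
  meas : AEStronglyMeasurable f (volume : Measure E3)
  int : ∀ K L, KK K L → ∀ x, Integrable (fun y => K (x - y) * ‖f y‖) (volume : Measure E3)

theorem ee_norm (i : Fin 3) : ‖(ee i : E3)‖ = 1 := by simp

theorem SmN.mono {n m : ℕ} (hmn : m ≤ n) {κ : E3 → ℝ} (h : SmN n κ) : SmN m κ where
  cd := h.cd.of_le (by exact_mod_cast hmn)
  dom := by
    obtain ⟨K, L, hK, hb⟩ := h.dom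
    exact ⟨K, L, hK, fun l hl => hb l (hl.trans hmn)⟩

theorem SmN.pd {n : ℕ} {κ : E3 → ℝ} (h : SmN (n + 1) κ) (i : Fin 3) : SmN n (pd i κ) := by
  have h1 : ContDiff ℝ n (fderiv ℝ κ) :=
    ((contDiff_succ_iff_fderiv (n := (n : WithTop ℕ∞))).1 (by exact_mod_cast h.cd)).2.2
  have e : TF.pd i κ = (ContinuousLinearMap.apply ℝ ℝ (ee i : E3)) ∘ fderiv ℝ κ := by
    funext x
    rfl
  obtain ⟨K, L, hK, hb⟩ := h.dom
  refine ⟨?_, K, L, hK, fun m hm z a ha => ?_⟩
  · rw [e]
    exact (ContinuousLinearMap.apply ℝ ℝ (ee i : E3)).contDiff.comp h1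
  · rw [e, ContinuousLinearMap.iteratedFDeriv_comp_left _ h1.contDiffAt (by exact_mod_cast hm)]
    refine (ContinuousLinearMap.norm_compContinuousMultilinearMap_le _ _).trans ?_
    rw [norm_iteratedFDeriv_fderiv]
    have h2 : ‖ContinuousLinearMap.apply ℝ ℝ (ee i : E3)‖ ≤ 1 := by
      refine ContinuousLinearMap.opNorm_le_bound _ zero_le_one fun A => ?_
      rw [ContinuousLinearMap.apply_apply, one_mul]
      refine (A.le_opNorm _).trans ?_
      rw [ee_norm, mul_one]
    calc _ ≤ 1 * ‖iteratedFDeriv ℝ (m + 1) κ (z + a)‖ := by gcongr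
      _ ≤ K z := by rw [one_mul]; exact hb (m + 1) (by omega) z a ha

section sc

variable {F : Type} [NormedAddCommGroup F] [NormedSpace ℝ F] {f : E3 → F} {κ : E3 → ℝ}

theorem cvf_eq_cvB (κ : E3 → ℝ) (f : E3 → F) :
    cvf κ f = cvB (ContinuousLinearMap.lsmul ℝ ℝ : ℝ →L[ℝ] F →L[ℝ] F) κ f := by
  funext x
  unfold cvf cvB
  have h := integral_sub_left_eq_self (fun y => κ (x - y) • f y) (volume : Measure E3) x
  simp only [sub_sub_cancel] at h
  rw [h]
  rfl

theorem contDiff_cvf {n : ℕ} (hf : Gf f) (h : SmN n κ) : ContDiff ℝ n (cvf κ f) := by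
  obtain ⟨K, L, hK, hb⟩ := h.dom
  rw [cvf_eq_cvB]
  exact contDiff_cvB hf.meas (hf.int K L hK) n _ h.cd hb

theorem pd_cvf (hf : Gf f) (h : SmN 1 κ) (i : Fin 3) : pd i (cvf κ f) = cvf (pd i κ) f := by
  obtain ⟨K, L, hK, hb⟩ := h.dom
  rw [cvf_eq_cvB, cvf_eq_cvB]
  funext x
  unfold pd
  have hc : Continuous (fderiv ℝ κ) := h.cd.continuous_fderiv one_ne_zero
  have h1 := hasFDerivAt_cvB hf.meas (hf.int K L hK) (ContinuousLinearMap.lsmul ℝ ℝ) h.cd
    (fun z a ha => by
      have := hb 0 (Nat.zero_le _) z a ha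
      rwa [norm_iteratedFDeriv_zero] at this) (fun z a ha => by
      have := hb 1 le_rfl z a ha
      rwa [norm_iteratedFDeriv_one] at this) x
  rw [h1.fderiv]
  unfold cvB
  have h2 : Integrable (fun y => (ContinuousLinearMap.lsmul ℝ ℝ : ℝ →L[ℝ] F →L[ℝ] F).precompL E3
      (fderiv ℝ κ (x - y)) (f y)) (volume : Measure E3) := by
    refine Integrable.mono' ((hf.int K L hK x).const_mul
      ‖(ContinuousLinearMap.lsmul ℝ ℝ : ℝ →L[ℝ] F →L[ℝ] F)‖)
      (aesm_cvB hf.meas _ hc x) (Eventually.of_forall fun y => ?_)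
    refine (norm_precompL_le _ _ _).trans ?_
    rw [mul_assoc]
    gcongr
    have := hb 1 le_rfl (x - y) 0 (by simp)
    rwa [norm_iteratedFDeriv_one, add_zero] at this
  rw [ContinuousLinearMap.integral_apply h2]
  rfl

theorem pd_pd_cvf (hf : Gf f) (h : SmN 2 κ) (i j : Fin 3) :
    pd i (pd j (cvf κ f)) = cvf (pd i (pd j κ)) f := by
  rw [pd_cvf hf (h.mono (by norm_num)) j, pd_cvf hf (h.pd j) i]

/-- `C^n` kernels are admissible -/
theorem SmN.kk {n : ℕ} (h : SmN n κ) : KK κ (∫ y, |κ y|) := by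
  obtain ⟨K, L, hK, hb⟩ := h.dom
  have h1 : ∀ z, |κ z| ≤ K z := fun z => by
    have := hb 0 (Nat.zero_le _) z 0 (by simp)
    rwa [norm_iteratedFDeriv_zero, add_zero, Real.norm_eq_abs] at this
  have h2 : Integrable κ (volume : Measure E3) :=
    Integrable.mono' hK.int h.cd.continuous.aestronglyMeasurable (Eventually.of_forall h1)
  obtain ⟨C, hC, hC'⟩ := hK.bdd
  exact ⟨h.cd.continuous, h2, le_rfl, C, hC, fun y =>
    (h1 y).trans ((le_abs_self _).trans (hC' y))⟩

end sc

/-- bounded functions -/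
theorem gf_bdd {F : Type} [NormedAddCommGroup F] {f : E3 → F} {C : ℝ}
    (hf : AEStronglyMeasurable f (volume : Measure E3)) (hb : ∀ᵐ x, ‖f x‖ ≤ C) : Gf f where
  meas := hf
  int := by
    intro K L hK x
    have h1 : Integrable (fun y => K (x - y)) (volume : Measure E3) := hK.int.comp_sub_left x
    refine Integrable.mono' (h1.norm.mul_const C)
      (h1.aestronglyMeasurable.mul hf.norm) ?_
    filter_upwards [hb] with y hy
    rw [norm_mul, norm_norm]
    gcongr

/-- square integrable functions -/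
theorem gf_l2 {F : Type} [NormedAddCommGroup F] {f : E3 → F}
    (hf : MemLp f 2 (volume : Measure E3)) : Gf f where
  meas := hf.1
  int := by
    intro K L hK x
    obtain ⟨C, hC, hb⟩ := hK.bdd
    have h1 : Integrable (fun y => K (x - y)) (volume : Measure E3) := hK.int.comp_sub_left x
    have h2 : Integrable (fun y => ‖f y‖ ^ 2) (volume : Measure E3) := hf.integrable_norm_pow (by norm_num)
    refine Integrable.mono' ((h1.norm.mul_const C).add h2)
      (h1.aestronglyMeasurable.mul hf.1.norm) (Eventually.of_forall fun y => ?_)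
    rw [norm_mul, norm_norm]
    have h3 : ‖K (x - y)‖ ≤ C := hb _
    have h4 := norm_nonneg (K (x - y))
    simp only [Pi.add_apply]
    nlinarith [sq_nonneg (‖K (x - y)‖ - ‖f y‖), norm_nonneg (f y)]

end Pool.Agent.TF
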