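import Pool.Agent.TF.E.Dk

/-!
# The kernels `et0` and `hk` are smooth kernels
-/

set_option autoImplicit false

namespace Pool.Agent.TF

open MeasureTheory Set Filter Topology Pool.Agent.TO Pool.Agent.TB Pool.Agent.TC Pool.Agent.TP
open scoped ENNReal NNReal Real InnerProductSpace SchwartzMap LineDeriv ContDiff

theorem SmN.const_mul {n : ℕ} {κ : E3 → ℝ} (c : ℝ) (h : SmN n κ) :
    SmN n (fun x => c * κ x) := by
  obtain ⟨K, L, hK, hb⟩ := h.dom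
  refine ⟨contDiff_const.mul h.cd, fun y => |c| * K y, |(|c|)| * L, kk_smul |c| hK,
    fun m hm z a ha => ?_⟩
  have e : (fun x => c * κ x) = c • κ := by
    funext x
    rfl
  rw [e, iteratedFDeriv_const_smul_apply ((h.cd.of_le (by exact_mod_cast hm)).contDiffAt),
    norm_smul, Real.norm_eq_abs]
  exact mul_le_mul_of_nonneg_left (hb m hm z a ha) (abs_nonneg _)

/-- `x ↦ ⟨x, ·⟩` as a real linear map -/
noncomputable def iL : E3 →L[ℝ] (E3 →L[ℝ] ℝ) :=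
  LinearMap.toContinuousLinearMap
    { toFun := fun x => innerSL ℝ x
      map_add' := fun x y => by rw [map_add]
      map_smul' := fun c x => by
        ext v
        simp }

theorem iL_apply (x : E3) : iL x = innerSL ℝ x := rfl

theorem norm_iL_le : ‖iL‖ ≤ 1 := by
  refine ContinuousLinearMap.opNorm_le_bound _ zero_le_one fun x => ?_
  rw [iL_apply, innerSL_apply_norm, one_mul]

/-- a criterion: the derivative is a multiple of `innerSL x` -/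
theorem smN_two {κ q r : E3 → ℝ} (hκ : ContDiff ℝ 2 κ)
    (h1 : ∀ x, HasFDerivAt κ (q x • innerSL ℝ x) x)
    (h2 : ∀ x, HasFDerivAt q (r x • innerSL ℝ x) x) {K : E3 → ℝ} {L : ℝ} (hK : KK K L)
    (b0 : ∀ z h : E3, ‖h‖ ≤ 1 → |κ (z + h)| ≤ K z)
    (b1 : ∀ z h : E3, ‖h‖ ≤ 1 → |q (z + h)| * ‖z + h‖ ≤ K z)
    (b2 : ∀ z h : E3, ‖h‖ ≤ 1 → |q (z + h)| + |r (z + h)| * ‖z + h‖ ^ 2 ≤ K z) :
    SmN 2 κ where
  cd := hκ
  dom := by
    have hn : ∀ x : E3, ‖innerSL ℝ x‖ = ‖x‖ := fun x => innerSL_apply_norm ℝ x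
    have e1 : fderiv ℝ κ = fun x => q x • innerSL ℝ x := funext fun x => (h1 x).fderiv
    refine ⟨K, L, hK, fun m hm z h hh => ?_⟩
    obtain rfl | rfl | rfl : m = 0 ∨ m = 1 ∨ m = 2 := by omega
    · rw [norm_iteratedFDeriv_zero]
      exact b0 z h hh
    · rw [norm_iteratedFDeriv_one, (h1 _).fderiv, norm_smul, hn, Real.norm_eq_abs]
      exact b1 z h hh
    · rw [← norm_iteratedFDeriv_fderiv, norm_iteratedFDeriv_one, e1]
      have h3 : HasFDerivAt (fun x => q x • innerSL ℝ x)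
          (q (z + h) • iL + (r (z + h) • innerSL ℝ (z + h)).smulRight (innerSL ℝ (z + h)))
            (z + h) := (h2 (z + h)).smul (iL.hasFDerivAt)
      rw [h3.fderiv]
      refine (norm_add_le _ _).trans (le_trans ?_ (b2 z h hh))
      have h4 : ‖iL‖ ≤ 1 := norm_iL_le
      have h5 : ‖(r (z + h) • innerSL ℝ (z + h)).smulRight (innerSL ℝ (z + h))‖ ≤
          |r (z + h)| * ‖z + h‖ ^ 2 := by
        rw [ContinuousLinearMap.norm_smulRight_apply, norm_smul, hn, Real.norm_eq_abs]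
        exact le_of_eq (by ring)
      refine add_le_add ?_ h5
      rw [norm_smul, Real.norm_eq_abs]
      exact mul_le_of_le_one_right (abs_nonneg _) h4

/-! ### powers of `sg` -/

theorem contDiff_sg {ρ : ℝ} (hρ : 0 < ρ) {n : WithTop ℕ∞} : ContDiff ℝ n (sg ρ) := by
  unfold sg
  have h1 : ContDiff ℝ n fun x : E3 => ρ ^ 2 + ‖x‖ ^ 2 := contDiff_const.add (contDiff_norm_sq ℝ)
  refine (h1.sqrt fun x => ?_).inv fun x => ?_
  · positivity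
  · positivity

theorem sg_shift {ρ : ℝ} (hρ : 0 < ρ) (z h : E3) (hh : ‖h‖ ≤ 1) :
    sg ρ (z + h) ≤ (2 + 2 / ρ ^ 2) * sg ρ z := by
  have h1 := sg_pos hρ z
  have h2 := sg_pos hρ (z + h)
  have h3 := sg_sq hρ z
  have h4 := sg_sq hρ (z + h)
  set A : ℝ := 2 + 2 / ρ ^ 2 with hA
  have hA1 : 1 ≤ A := by
    have : 0 ≤ 2 / ρ ^ 2 := by positivity
    linarith
  have h5 : ρ ^ 2 + ‖z‖ ^ 2 ≤ A * (ρ ^ 2 + ‖z + h‖ ^ 2) := by
    have h6 : ‖z‖ ≤ ‖z + h‖ + 1 := by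
      calc ‖z‖ = ‖(z + h) - h‖ := by rw [add_sub_cancel_right]
        _ ≤ ‖z + h‖ + ‖h‖ := norm_sub_le _ _
        _ ≤ _ := by linarith
    have h7 : ‖z‖ ^ 2 ≤ 2 * ‖z + h‖ ^ 2 + 2 := by
      nlinarith [norm_nonneg z, norm_nonneg (z + h), sq_nonneg (‖z + h‖ - 1)]
    have h8 : A * (ρ ^ 2 + ‖z + h‖ ^ 2) = 2 * ρ ^ 2 + 2 + 2 * ‖z + h‖ ^ 2 +
        2 / ρ ^ 2 * ‖z + h‖ ^ 2 := by
      rw [hA]
      field_simp
      ring
    rw [h8]
    have h9 : 0 ≤ 2 / ρ ^ 2 * ‖z + h‖ ^ 2 := by positivity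
    nlinarith [sq_nonneg ρ]
  have h10 : sg ρ (z + h) ^ 2 ≤ (A * sg ρ z) ^ 2 := by
    have h11 : sg ρ (z + h) ^ 2 ≤ A * sg ρ z ^ 2 := by
      have h12 : sg ρ (z + h) ^ 2 * sg ρ z ^ 2 * (ρ ^ 2 + ‖z‖ ^ 2) ≤
          sg ρ (z + h) ^ 2 * sg ρ z ^ 2 * (A * (ρ ^ 2 + ‖z + h‖ ^ 2)) :=
        mul_le_mul_of_nonneg_left h5 (by positivity)
      calc sg ρ (z + h) ^ 2 = sg ρ (z + h) ^ 2 * (sg ρ z ^ 2 * (ρ ^ 2 + ‖z‖ ^ 2)) := by
            rw [h3, mul_one]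
        _ ≤ sg ρ (z + h) ^ 2 * sg ρ z ^ 2 * (A * (ρ ^ 2 + ‖z + h‖ ^ 2)) := by
            rw [← mul_assoc]
            exact h12
        _ = A * sg ρ z ^ 2 * (sg ρ (z + h) ^ 2 * (ρ ^ 2 + ‖z + h‖ ^ 2)) := by ring
        _ = _ := by rw [h4, mul_one]
    refine h11.trans ?_
    rw [mul_pow]
    nlinarith [sq_nonneg (sg ρ z), mul_nonneg (sub_nonneg.2 hA1) (sq_nonneg (sg ρ z)),
      mul_nonneg (mul_nonneg (sub_nonneg.2 hA1) (by linarith : (0:ℝ) ≤ A)) (sq_nonneg (sg ρ z))]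
  exact abs_le_of_sq_le_sq' h10 (by positivity) |>.2

theorem smN_sg {ρ : ℝ} (hρ : 0 < ρ) {n : ℕ} (hn : 4 ≤ n) : SmN 2 fun x : E3 => sg ρ x ^ n := by
  set A : ℝ := 2 + 2 / ρ ^ 2 with hA
  have hA0 : 0 < A := by positivity
  set C : ℝ := (1 + n * ρ⁻¹ + (n + n * (n + 2)) * ρ⁻¹ ^ 2) * A ^ n with hC
  have hC0 : 0 ≤ C := by positivity
  have hk0 : KK (fun x : E3 => sg ρ x ^ n) (∫ y : E3, |sg ρ y ^ n|) :=
    ⟨continuous_sg_pow hρ n, integrable_sg hρ hn, le_rfl, ρ⁻¹ ^ n, by positivity, fun y => by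
      rw [abs_of_pos (pow_pos (sg_pos hρ y) n)]
      exact pow_le_pow_left₀ (sg_pos hρ y).le (sg_le_inv hρ y) n⟩
  have hs : ∀ z h : E3, ‖h‖ ≤ 1 → sg ρ (z + h) ^ n ≤ A ^ n * sg ρ z ^ n := by
    intro z h hh
    rw [← mul_pow]
    exact pow_le_pow_left₀ (sg_pos hρ _).le (sg_shift hρ z h hh) n
  have hp : ∀ (m : ℕ) (x : E3), sg ρ x ^ (n + m) ≤ ρ⁻¹ ^ m * sg ρ x ^ n := by
    intro m x
    rw [pow_add, mul_comm]
    exact mul_le_mul_of_nonneg_right (pow_le_pow_left₀ (sg_pos hρ x).le (sg_le_inv hρ x) m)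
      (pow_pos (sg_pos hρ x) n).le
  refine smN_two (q := fun x => -(n * sg ρ x ^ (n + 2)))
    (r := fun x => n * ((n + 2 : ℕ) * sg ρ x ^ (n + 2 + 2))) ((contDiff_sg hρ).pow n)
    (fun x => hasFDerivAt_sg_pow hρ n x) (fun x => ?_) (kk_smul C hk0) ?_ ?_ ?_
  · have h1 := ((hasFDerivAt_sg_pow hρ (n + 2) x).const_mul (n : ℝ)).neg
    refine h1.congr_fderiv ?_
    ext v
    simp only [neg_apply, smul_apply, innerSL_apply_apply, smul_eq_mul]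
    ring
  · intro z h hh
    rw [abs_of_pos (pow_pos (sg_pos hρ _) n)]
    refine (hs z h hh).trans ?_
    rw [hC]
    have h1 : 0 ≤ A ^ n * sg ρ z ^ n := by
      have := sg_pos hρ z
      positivity
    have h2 : (1:ℝ) ≤ 1 + n * ρ⁻¹ + (n + n * (n + 2)) * ρ⁻¹ ^ 2 := by
      have : (0:ℝ) ≤ n * ρ⁻¹ + (n + n * (n + 2)) * ρ⁻¹ ^ 2 := by positivity
      linarith
    calc A ^ n * sg ρ z ^ n = 1 * (A ^ n * sg ρ z ^ n) := (one_mul _).symm
      _ ≤ (1 + n * ρ⁻¹ + (n + n * (n + 2)) * ρ⁻¹ ^ 2) * (A ^ n * sg ρ z ^ n) :=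
        mul_le_mul_of_nonneg_right h2 h1
      _ = _ := by ring
  · intro z h hh
    have h0 := sg_pos hρ (z + h)
    rw [abs_neg, abs_of_nonneg (by positivity)]
    have h1 : n * sg ρ (z + h) ^ (n + 2) * ‖z + h‖ ≤ n * ρ⁻¹ * (A ^ n * sg ρ z ^ n) := by
      calc n * sg ρ (z + h) ^ (n + 2) * ‖z + h‖
          = n * sg ρ (z + h) ^ (n + 1) * (‖z + h‖ * sg ρ (z + h)) := by ring
        _ ≤ n * sg ρ (z + h) ^ (n + 1) * 1 := by
            gcongr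
            exact nrm_sg hρ _
        _ ≤ n * (ρ⁻¹ ^ 1 * sg ρ (z + h) ^ n) := by
            rw [mul_one]
            gcongr
            exact hp 1 _
        _ ≤ n * (ρ⁻¹ ^ 1 * (A ^ n * sg ρ z ^ n)) := by
            gcongr
            exact hs z h hh
        _ = _ := by ring
    refine h1.trans ?_
    rw [hC]
    have h2 : 0 ≤ A ^ n * sg ρ z ^ n := by
      have := sg_pos hρ z
      positivity
    have h3 : n * ρ⁻¹ ≤ 1 + n * ρ⁻¹ + (n + n * (n + 2)) * ρ⁻¹ ^ 2 := by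
      have : (0:ℝ) ≤ 1 + (n + n * (n + 2)) * ρ⁻¹ ^ 2 := by positivity
      linarith
    calc n * ρ⁻¹ * (A ^ n * sg ρ z ^ n)
        ≤ (1 + n * ρ⁻¹ + (n + n * (n + 2)) * ρ⁻¹ ^ 2) * (A ^ n * sg ρ z ^ n) :=
        mul_le_mul_of_nonneg_right h3 h2
      _ = _ := by ring
  · intro z h hh
    have h0 := sg_pos hρ (z + h)
    rw [abs_neg, abs_of_nonneg (by positivity), abs_of_nonneg (by positivity)]
    have h1 : n * sg ρ (z + h) ^ (n + 2) + n * ((n + 2 : ℕ) * sg ρ (z + h) ^ (n + 2 + 2)) *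
        ‖z + h‖ ^ 2 ≤ (n + n * (n + 2)) * ρ⁻¹ ^ 2 * (A ^ n * sg ρ z ^ n) := by
      have h5 : (‖z + h‖ * sg ρ (z + h)) ^ 2 ≤ 1 := pow_le_one₀ (by positivity) (nrm_sg hρ _)
      calc n * sg ρ (z + h) ^ (n + 2) + n * ((n + 2 : ℕ) * sg ρ (z + h) ^ (n + 2 + 2)) *
          ‖z + h‖ ^ 2 = n * sg ρ (z + h) ^ (n + 2) + n * (n + 2) * sg ρ (z + h) ^ (n + 2) *
            (‖z + h‖ * sg ρ (z + h)) ^ 2 := by
            push_cast
            ring
        _ ≤ n * sg ρ (z + h) ^ (n + 2) + n * (n + 2) * sg ρ (z + h) ^ (n + 2) * 1 := by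
            gcongr
        _ = (n + n * (n + 2)) * sg ρ (z + h) ^ (n + 2) := by ring
        _ ≤ (n + n * (n + 2)) * (ρ⁻¹ ^ 2 * sg ρ (z + h) ^ n) := by
            gcongr
            exact hp 2 _
        _ ≤ (n + n * (n + 2)) * (ρ⁻¹ ^ 2 * (A ^ n * sg ρ z ^ n)) := by
            gcongr
            exact hs z h hh
        _ = _ := by ring
    refine h1.trans ?_
    rw [hC]
    have h2 : 0 ≤ A ^ n * sg ρ z ^ n := by
      have := sg_pos hρ z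
      positivity
    have h3 : (n + n * (n + 2)) * ρ⁻¹ ^ 2 ≤ 1 + n * ρ⁻¹ + (n + n * (n + 2)) * ρ⁻¹ ^ 2 := by
      have : (0:ℝ) ≤ 1 + n * ρ⁻¹ := by positivity
      linarith
    calc (n + n * (n + 2)) * ρ⁻¹ ^ 2 * (A ^ n * sg ρ z ^ n)
        ≤ (1 + n * ρ⁻¹ + (n + n * (n + 2)) * ρ⁻¹ ^ 2) * (A ^ n * sg ρ z ^ n) :=
        mul_le_mul_of_nonneg_right h3 h2
      _ = _ := by ring

theorem smN_et0 {ρ : ℝ} (hρ : 0 < ρ) : SmN 2 (et0 ρ) :=
  (smN_sg hρ (n := 7) (by norm_num)).const_mul (15 / 2 * c0 * ρ ^ 4)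

/-! ### the heat kernel -/

theorem hk_eq (σ : ℝ) (y : E3) : hk σ y =
    (4 * π * σ) ^ (-(3 / 2) : ℝ) * Real.exp (-(1 / (4 * σ)) * ‖y‖ ^ 2) := by
  unfold hk
  congr 2
  ring

theorem hasFDerivAt_gau (a : ℝ) (x : E3) :
    HasFDerivAt (fun y : E3 => Real.exp (-a * ‖y‖ ^ 2))
      ((-(2 * a) * Real.exp (-a * ‖x‖ ^ 2)) • innerSL ℝ x) x := by
  have h1 : HasFDerivAt (fun x : E3 => ‖x‖ ^ 2) (2 • innerSL ℝ x) x :=
    (hasStrictFDerivAt_norm_sq x).hasFDerivAt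
  have h2 := (h1.const_mul (-a)).exp
  refine h2.congr_fderiv ?_
  ext v
  simp only [smul_apply, innerSL_apply_apply, smul_eq_mul, nsmul_eq_mul]
  push_cast
  ring

theorem smN_gau {a : ℝ} (ha : 0 < a) : SmN 2 fun y : E3 => Real.exp (-a * ‖y‖ ^ 2) := by
  have hkk : KK (fun y : E3 => Real.exp (-(a / 4) * ‖y‖ ^ 2))
      (∫ y : E3, |Real.exp (-(a / 4) * ‖y‖ ^ 2)|) := by
    refine ⟨by fun_prop, ?_, le_rfl, 1, zero_le_one, fun y => ?_⟩
    · have hp := Real.pi_pos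
      have h1 := (integrable_hk (σ := 1 / a) (by positivity)).const_mul
        ((4 * π * (1 / a)) ^ (-(3 / 2) : ℝ))⁻¹
      refine h1.congr (Eventually.of_forall fun y => ?_)
      simp only [hk_eq]
      have h2 : (4 * π * (1 / a)) ^ (-(3 / 2) : ℝ) ≠ 0 := by positivity
      rw [← mul_assoc, inv_mul_cancel₀ h2, one_mul]
      congr 1
      field_simp
    · rw [abs_of_pos (Real.exp_pos _), Real.exp_le_one_iff]
      nlinarith [sq_nonneg ‖y‖]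
  -- the elementary inequalities
  have hsh : ∀ z h : E3, ‖h‖ ≤ 1 → Real.exp (-(a / 2) * ‖z + h‖ ^ 2) ≤
      Real.exp (a / 2) * Real.exp (-(a / 4) * ‖z‖ ^ 2) := by
    intro z h hh
    rw [← Real.exp_add, Real.exp_le_exp]
    have h6 : ‖z‖ ≤ ‖z + h‖ + 1 := by
      calc ‖z‖ = ‖(z + h) - h‖ := by rw [add_sub_cancel_right]
        _ ≤ ‖z + h‖ + ‖h‖ := norm_sub_le _ _
        _ ≤ _ := by linarith
    have h7 : ‖z‖ ^ 2 ≤ 2 * ‖z + h‖ ^ 2 + 2 := by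
      nlinarith [norm_nonneg z, norm_nonneg (z + h), sq_nonneg (‖z + h‖ - 1)]
    nlinarith
  have hq : ∀ t : ℝ, 0 ≤ t → a / 2 * t * Real.exp (-a * t) ≤ Real.exp (-(a / 2) * t) := by
    intro t ht
    have h1 : a / 2 * t ≤ Real.exp (a / 2 * t) := by
      have := Real.add_one_le_exp (a / 2 * t)
      linarith
    calc a / 2 * t * Real.exp (-a * t) ≤ Real.exp (a / 2 * t) * Real.exp (-a * t) :=
          mul_le_mul_of_nonneg_right h1 (Real.exp_pos _).le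
      _ = _ := by rw [← Real.exp_add]; congr 1; ring
  have hq0 : ∀ t : ℝ, 0 ≤ t → Real.exp (-a * t) ≤ Real.exp (-(a / 2) * t) := by
    intro t ht
    rw [Real.exp_le_exp]
    nlinarith
  set C : ℝ := (1 + 2 * a + 8 * a + 4) * Real.exp (a / 2) with hC
  have hC0 : 0 ≤ C := by positivity
  have fin : ∀ (z h : E3) (u v : ℝ), ‖h‖ ≤ 1 → u ≤ v * Real.exp (-(a / 2) * ‖z + h‖ ^ 2) →
      0 ≤ v → v ≤ 1 + 2 * a + 8 * a + 4 → u ≤ |C| * Real.exp (-(a / 4) * ‖z‖ ^ 2) := by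
    intro z h u v hh h1 h2 h3
    rw [abs_of_nonneg hC0, hC, mul_assoc]
    refine h1.trans (mul_le_mul h3 (hsh z h hh) (Real.exp_pos _).le (by positivity))
  refine smN_two (q := fun x => -(2 * a) * Real.exp (-a * ‖x‖ ^ 2))
    (r := fun x => 4 * a ^ 2 * Real.exp (-a * ‖x‖ ^ 2)) ?_ (hasFDerivAt_gau a) (fun x => ?_)
    (K := fun z => |C| * Real.exp (-(a / 4) * ‖z‖ ^ 2)) (kk_smul |C| hkk) ?_ ?_ ?_
  · exact (contDiff_const.mul (contDiff_norm_sq ℝ)).exp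
  · have h1 := (hasFDerivAt_gau a x).const_mul (-(2 * a))
    refine h1.congr_fderiv ?_
    ext v
    simp only [smul_apply, innerSL_apply_apply, smul_eq_mul]
    ring
  · intro z h hh
    rw [abs_of_pos (Real.exp_pos _)]
    refine fin z h _ 1 hh ?_ zero_le_one (by linarith)
    rw [one_mul]
    exact hq0 _ (sq_nonneg _)
  · intro z h hh
    have e : |-(2 * a) * Real.exp (-a * ‖z + h‖ ^ 2)| = 2 * a * Real.exp (-a * ‖z + h‖ ^ 2) := by
      rw [abs_mul, abs_neg, abs_of_pos (by positivity : (0:ℝ) < 2 * a), abs_of_pos (Real.exp_pos _)]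
    rw [e]
    refine fin z h _ (2 * a + 4) hh ?_ (by positivity) (by linarith)
    have h1 := hq _ (sq_nonneg ‖z + h‖)
    have h2 := hq0 _ (sq_nonneg ‖z + h‖)
    have h3 : ‖z + h‖ ≤ 1 + ‖z + h‖ ^ 2 := by nlinarith [sq_nonneg (‖z + h‖ - 1), norm_nonneg (z + h)]
    calc 2 * a * Real.exp (-a * ‖z + h‖ ^ 2) * ‖z + h‖
        ≤ 2 * a * Real.exp (-a * ‖z + h‖ ^ 2) * (1 + ‖z + h‖ ^ 2) := by gcongr
      _ = 2 * a * Real.exp (-a * ‖z + h‖ ^ 2) +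
          4 * (a / 2 * ‖z + h‖ ^ 2 * Real.exp (-a * ‖z + h‖ ^ 2)) := by ring
      _ ≤ 2 * a * Real.exp (-(a / 2) * ‖z + h‖ ^ 2) + 4 * Real.exp (-(a / 2) * ‖z + h‖ ^ 2) := by
          gcongr
      _ = _ := by ring
  · intro z h hh
    have e : |-(2 * a) * Real.exp (-a * ‖z + h‖ ^ 2)| = 2 * a * Real.exp (-a * ‖z + h‖ ^ 2) := by
      rw [abs_mul, abs_neg, abs_of_pos (by positivity : (0:ℝ) < 2 * a), abs_of_pos (Real.exp_pos _)]
    rw [e, abs_of_pos (by positivity)]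
    refine fin z h _ (2 * a + 8 * a) hh ?_ (by positivity) (by linarith)
    have h1 := hq _ (sq_nonneg ‖z + h‖)
    have h2 := hq0 _ (sq_nonneg ‖z + h‖)
    calc 2 * a * Real.exp (-a * ‖z + h‖ ^ 2) + 4 * a ^ 2 * Real.exp (-a * ‖z + h‖ ^ 2) *
        ‖z + h‖ ^ 2 = 2 * a * Real.exp (-a * ‖z + h‖ ^ 2) +
          8 * a * (a / 2 * ‖z + h‖ ^ 2 * Real.exp (-a * ‖z + h‖ ^ 2)) := by ring
      _ ≤ 2 * a * Real.exp (-(a / 2) * ‖z + h‖ ^ 2) +
          8 * a * Real.exp (-(a / 2) * ‖z + h‖ ^ 2) := by gcongr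
      _ = _ := by ring

theorem smN_hk {σ : ℝ} (hσ : 0 < σ) : SmN 2 (hk σ) := by
  have h := (smN_gau (a := 1 / (4 * σ)) (by positivity)).const_mul
    ((4 * π * σ) ^ (-(3 / 2) : ℝ))
  have e : hk σ = fun y => (4 * π * σ) ^ (-(3 / 2) : ℝ) * Real.exp (-(1 / (4 * σ)) * ‖y‖ ^ 2) :=
    funext fun y => hk_eq σ y
  rw [e]
  exact h

/-- the heat kernel is an admissible kernel -/
theorem kk_hk {σ : ℝ} (hσ : 0 < σ) : KK (hk σ) 1 := by
  have h := (smN_hk hσ).kk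
  refine kk_mono h ?_
  rw [← integral_hk hσ]
  exact le_of_eq (integral_congr_ae (Eventually.of_forall fun y => abs_of_pos (hk_pos hσ y)))

end Pool.Agent.TF
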