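import Pool.Agent.TF.Flow
import Pool.Agent.TF.E.CoV

/-!
# Project TF, block E: `L²` bounds of the transport step (helper82)
-/

set_option autoImplicit false

namespace Pool.Agent.TF

open MeasureTheory Set Filter Topology Pool.Agent.TO Pool.Agent.TB Pool.Agent.TC Pool.Agent.TP
open scoped ENNReal NNReal Real InnerProductSpace SchwartzMap LineDeriv

/-! ### The class of a function in `L²` -/

theorem vL_eq {f : E3 → E3} (h : MemLp f 2 (volume : Measure E3)) : vL f = h.toLp := by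
  unfold vL
  rw [dif_pos h]

theorem vL_coe {f : E3 → E3} (h : MemLp f 2 (volume : Measure E3)) :
    (vL f : E3 → E3) =ᵐ[(volume : Measure E3)] f := by
  rw [vL_eq h]
  exact h.coeFn_toLp

theorem norm_vL {f : E3 → E3} (h : MemLp f 2 (volume : Measure E3)) :
    ‖vL f‖ = (eLpNorm f 2 (volume : Measure E3)).toReal := by
  rw [vL_eq h, Lp.norm_toLp]

theorem enorm_vL {f : E3 → E3} (h : MemLp f 2 (volume : Measure E3)) :
    ENNReal.ofReal ‖vL f‖ = eLpNorm f 2 (volume : Measure E3) := by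
  rw [norm_vL h, ENNReal.ofReal_toReal h.2.ne]

theorem enorm_vL_sq {f : E3 → E3} (h : MemLp f 2 (volume : Measure E3)) :
    ENNReal.ofReal (‖vL f‖ ^ 2) = ∫⁻ x, ‖f x‖ₑ ^ 2 := by
  rw [ENNReal.ofReal_pow (norm_nonneg _), enorm_vL h,
    eLpNorm_eq_lintegral_rpow_enorm_toReal (by norm_num) (by norm_num)]
  have e2 : (2 : ℝ≥0∞).toReal = 2 := by norm_num
  rw [e2, ← ENNReal.rpow_natCast, ← ENNReal.rpow_mul]
  norm_num

theorem vL_congr {f g : E3 → E3} (h : f =ᵐ[(volume : Measure E3)] g) : vL f = vL g := by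
  by_cases hf : MemLp f 2 (volume : Measure E3)
  · have hg : MemLp g 2 (volume : Measure E3) := (memLp_congr_ae h).1 hf
    rw [vL_eq hf, vL_eq hg]
    exact (MemLp.toLp_eq_toLp_iff hf hg).2 h
  · have hg : ¬ MemLp g 2 (volume : Measure E3) := fun hg => hf ((memLp_congr_ae h).2 hg)
    unfold vL
    rw [dif_neg hf, dif_neg hg]

theorem vL_val (f : V3) : vL (f : E3 → E3) = f := by
  rw [vL_eq (Lp.memLp f)]
  exact Lp.toLp_coeFn f (Lp.memLp f)

theorem vL_add {f g : E3 → E3} (hf : MemLp f 2 (volume : Measure E3))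
    (hg : MemLp g 2 (volume : Measure E3)) : vL (fun x => f x + g x) = vL f + vL g := by
  rw [vL_eq hf, vL_eq hg, ← MemLp.toLp_add hf hg, ← vL_eq (hf.add hg)]
  rfl

theorem vL_sub {f g : E3 → E3} (hf : MemLp f 2 (volume : Measure E3))
    (hg : MemLp g 2 (volume : Measure E3)) : vL (fun x => f x - g x) = vL f - vL g := by
  rw [vL_eq hf, vL_eq hg, ← MemLp.toLp_sub hf hg, ← vL_eq (hf.sub hg)]
  rfl

theorem vL_smul (c : ℝ) {f : E3 → E3} (hf : MemLp f 2 (volume : Measure E3)) :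
    vL (fun x => c • f x) = c • vL f := by
  rw [vL_eq hf, ← MemLp.toLp_const_smul c hf, ← vL_eq (hf.const_smul c)]
  rfl

theorem vL_neg {f : E3 → E3} (hf : MemLp f 2 (volume : Measure E3)) :
    vL (fun x => -f x) = -vL f := by
  rw [vL_eq hf, ← MemLp.toLp_neg hf, ← vL_eq hf.neg]
  rfl

theorem vL_zero : vL (fun _ : E3 => (0 : E3)) = 0 := by
  rw [vL_eq (MemLp.zero' : MemLp (fun _ : E3 => (0 : E3)) 2 (volume : Measure E3))]
  exact MemLp.toLp_zero _

theorem vL_sum {ι : Type*} (s : Finset ι) (f : ι → E3 → E3)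
    (hf : ∀ i ∈ s, MemLp (f i) 2 (volume : Measure E3)) :
    vL (fun x => ∑ i ∈ s, f i x) = ∑ i ∈ s, vL (f i) := by
  classical
  induction s using Finset.induction_on with
  | empty => simpa using vL_zero
  | insert a s ha ih =>
    have h1 : MemLp (fun x => ∑ i ∈ s, f i x) 2 (volume : Measure E3) :=
      memLp_finsetSum s fun i hi => hf i (Finset.mem_insert_of_mem hi)
    have e : (fun x => ∑ i ∈ insert a s, f i x) = fun x => f a x + ∑ i ∈ s, f i x := by
      funext x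
      exact Finset.sum_insert ha
    rw [e, vL_add (hf a (Finset.mem_insert_self _ _)) h1, Finset.sum_insert ha,
      ih fun i hi => hf i (Finset.mem_insert_of_mem hi)]

/-- comparison of the norms from an inequality for the integrals of the squares -/
theorem norm_vL_le_of_lintegral {f g : E3 → E3} (hf : AEStronglyMeasurable f (volume : Measure E3))
    (hg : MemLp g 2 (volume : Measure E3)) {C : ℝ} (hC : 0 ≤ C)
    (h : ∫⁻ x, ‖f x‖ₑ ^ 2 ≤ ENNReal.ofReal (C ^ 2) * ∫⁻ x, ‖g x‖ₑ ^ 2) :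
    MemLp f 2 (volume : Measure E3) ∧ ‖vL f‖ ≤ C * ‖vL g‖ := by
  rw [← enorm_vL_sq hg, ← ENNReal.ofReal_mul (sq_nonneg C), ← mul_pow] at h
  have hf2 : MemLp f 2 (volume : Measure E3) := by
    refine ⟨hf, ?_⟩
    rw [eLpNorm_lt_top_iff_lintegral_rpow_enorm_lt_top (by norm_num) (by norm_num)]
    have e2 : (2 : ℝ≥0∞).toReal = 2 := by norm_num
    rw [e2]
    have e3 : ∫⁻ x, ‖f x‖ₑ ^ (2 : ℝ) = ∫⁻ x, ‖f x‖ₑ ^ 2 := by
      refine lintegral_congr fun x => ?_
      rw [← ENNReal.rpow_natCast]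
      norm_num
    rw [e3]
    exact lt_of_le_of_lt h ENNReal.ofReal_lt_top
  refine ⟨hf2, ?_⟩
  rw [← enorm_vL_sq hf2] at h
  have h1 := (ENNReal.ofReal_le_ofReal_iff (sq_nonneg (C * ‖vL g‖))).1 h
  exact abs_le_of_sq_le_sq' h1 (by positivity) |>.2

/-- multiplication by a bounded function -/
theorem norm_vL_mul_le {f : E3 → E3} (hf : MemLp f 2 (volume : Measure E3)) {m : E3 → ℝ}
    (hm : AEStronglyMeasurable m (volume : Measure E3)) {K : ℝ} (hK : ∀ x, |m x| ≤ K) :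
    MemLp (fun x => m x • f x) 2 (volume : Measure E3) ∧
      ‖vL (fun x => m x • f x)‖ ≤ K * ‖vL f‖ := by
  have hK0 : 0 ≤ K := (abs_nonneg _).trans (hK 0)
  refine norm_vL_le_of_lintegral (hm.smul hf.1) hf hK0 ?_
  rw [← lintegral_const_mul' _ _ ENNReal.ofReal_ne_top]
  refine lintegral_mono fun x => ?_
  show ‖m x • f x‖ₑ ^ 2 ≤ _
  rw [ENNReal.ofReal_pow hK0, ← mul_pow, enorm_smul]
  gcongr
  rw [← ofReal_norm, Real.norm_eq_abs]
  exact ENNReal.ofReal_le_ofReal (hK x)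

/-! ### The shift -/

variable {c r Λ : ℝ} {b : E3 → E3} {lam : E3 → ℝ}

theorem Coef.Λ0 (hc : Coef c r Λ b lam) : 0 ≤ Λ := (hc.l0 0).trans (hc.lΛ 0)

theorem Coef.pdb (hc : Coef c r Λ b lam) (i : Fin 3) (x : E3) : ‖pd i b x‖ ≤ lam x / 8 := by
  have h1 : ‖pd i b x‖ ^ 2 ≤ (lam x / 8) ^ 2 :=
    (Finset.single_le_sum (f := fun i => ‖pd i b x‖ ^ 2) (fun j _ => sq_nonneg _)
      (Finset.mem_univ i)).trans (hc.b1 x)
  have h0 := hc.l0 x
  exact abs_le_of_sq_le_sq' h1 (by positivity) |>.2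

theorem Coef.pdb_comp (hc : Coef c r Λ b lam) (i k : Fin 3) (x : E3) :
    |pd i b x k| ≤ lam x / 8 := by
  have h1 : |pd i b x k| ≤ ‖pd i b x‖ := by
    have := PiLp.norm_apply_le (pd i b x) k
    rwa [Real.norm_eq_abs] at this
  exact h1.trans (hc.pdb i x)

/-- change of variables for the shift `x - d b(x)` -/
theorem Coef.lintegral_shift (hc : Coef c r Λ b lam) {d : ℝ} (hd : 0 ≤ d) (h1 : d * Λ ≤ 1)
    (F : E3 → ℝ≥0∞) :
    ∫⁻ x, F (x - d • b x) ≤ ENNReal.ofReal (1 + (d * Λ) ^ 2) * ∫⁻ x, F x := by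
  have hΛ := hc.Λ0
  have hbd : Differentiable ℝ b := hc.cb.differentiable (by norm_num)
  have hfd : ∀ x, fderiv ℝ (fun x => -(d • b x)) x = -(d • fderiv ℝ b x) := by
    intro x
    exact (((hbd x).hasFDerivAt.const_smul d).neg).fderiv
  have key := lintegral_shift_le (a := fun x => -(d • b x)) (δ := d * Λ / 8) (by positivity)
    (by linarith) (fun x => ((hbd x).const_smul d).neg) ?_ ?_ F
  · have e : (fun x => F (x + -(d • b x))) = fun x => F (x - d • b x) := by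
      funext x
      rw [sub_eq_add_neg]
    rw [e] at key
    refine key.trans (mul_le_mul_left (ENNReal.ofReal_le_ofReal ?_) _)
    nlinarith [sq_nonneg (d * Λ)]
  · intro x i k
    rw [hfd]
    show |(-(d • fderiv ℝ b x (ee i)) : E3) k| ≤ _
    have e : (-(d • fderiv ℝ b x (ee i)) : E3) k = -(d * pd i b x k) := rfl
    rw [e, abs_neg, abs_mul, abs_of_nonneg hd]
    calc d * |pd i b x k| ≤ d * (Λ / 8) :=
          mul_le_mul_of_nonneg_left ((hc.pdb_comp i k x).trans (by linarith [hc.lΛ x])) hd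
      _ = _ := by ring
  · intro x
    rw [hfd]
    have e : ∀ i, ((-(d • fderiv ℝ b x)) (ee i) : E3) i = -d * pd i b x i := by
      intro i
      show -(d * pd i b x i) = _
      ring
    rw [Finset.sum_congr rfl fun i _ => e i, ← Finset.mul_sum, hc.div x, mul_zero]

theorem Coef.continuous_shift (hc : Coef c r Λ b lam) (d : ℝ) :
    Continuous fun x : E3 => x - d • b x :=
  continuous_id.sub (hc.cb.continuous.const_smul d)

/-- `L²` bound of a shifted function, with a bounded factor -/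
theorem Coef.memLp_shift (hc : Coef c r Λ b lam) {d : ℝ} (hd : 0 ≤ d) (h1 : d * Λ ≤ 1)
    {F : E3 → E3} (hF : Continuous F) (hF2 : MemLp F 2 (volume : Measure E3)) :
    MemLp (fun x => F (x - d • b x)) 2 (volume : Measure E3) ∧
      ‖vL (fun x => F (x - d • b x))‖ ≤ (1 + (d * Λ) ^ 2) * ‖vL F‖ := by
  refine norm_vL_le_of_lintegral (hF.comp (hc.continuous_shift d)).aestronglyMeasurable hF2
    (by positivity) ?_
  refine (hc.lintegral_shift hd h1 (fun x => ‖F x‖ₑ ^ 2)).trans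
    (mul_le_mul_left (ENNReal.ofReal_le_ofReal ?_) _)
  nlinarith [sq_nonneg (d * Λ), sq_nonneg ((d * Λ) ^ 2)]

/-- `L²` bound of a shifted function with a bounded continuous factor -/
theorem Coef.memLp_mul_shift (hc : Coef c r Λ b lam) {d : ℝ} (hd : 0 ≤ d) (h1 : d * Λ ≤ 1)
    {F : E3 → E3} (hF : Continuous F) (hF2 : MemLp F 2 (volume : Measure E3)) {m : E3 → ℝ}
    (hm : Continuous m) {K : ℝ} (hK : ∀ x, |m x| ≤ K) :
    MemLp (fun x => m x • F (x - d • b x)) 2 (volume : Measure E3) ∧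
      ‖vL (fun x => m x • F (x - d • b x))‖ ≤ K * ((1 + (d * Λ) ^ 2) * ‖vL F‖) := by
  have hK0 : 0 ≤ K := (abs_nonneg _).trans (hK 0)
  obtain ⟨h2, h3⟩ := hc.memLp_shift hd h1 hF hF2
  obtain ⟨h4, h5⟩ := norm_vL_mul_le h2 hm.aestronglyMeasurable hK
  exact ⟨h4, h5.trans (mul_le_mul_of_nonneg_left h3 hK0)⟩

/-- the factor of the damping -/
theorem Coef.abs_damp (hc : Coef c r Λ b lam) {d : ℝ} (hd : 0 ≤ d) (h1 : d * Λ ≤ 1) (x : E3) :
    |1 - d * lam x| ≤ 1 := by
  have h2 : 0 ≤ d * lam x := mul_nonneg hd (hc.l0 x)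
  have h3 : d * lam x ≤ 1 := (mul_le_mul_of_nonneg_left (hc.lΛ x) hd).trans h1
  rw [abs_le]
  constructor <;> linarith

/-- `L²` bound of the transport step -/
theorem Coef.memLp_Jst (hc : Coef c r Λ b lam) {d : ℝ} (hd : 0 ≤ d) (h1 : d * Λ ≤ 1)
    {F : E3 → E3} (hF : Continuous F) (hF2 : MemLp F 2 (volume : Measure E3)) :
    MemLp (Jst d b lam F) 2 (volume : Measure E3) ∧
      ‖vL (Jst d b lam F)‖ ≤ (1 + (d * Λ) ^ 2) * ‖vL F‖ := by
  have h2 := hc.memLp_mul_shift hd h1 hF hF2 (m := fun x => 1 - d * lam x)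
    (continuous_const.sub (continuous_const.mul hc.cl.continuous)) (K := 1)
    (hc.abs_damp hd h1)
  rw [one_mul] at h2
  exact h2

end Pool.Agent.TF
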