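import Pool.Agent.TF.E.Dk2
import Pool.Agent.TF.E.JL2

/-!
# Convolutions of smooth functions: the derivative falls on the function
-/

set_option autoImplicit false

namespace Pool.Agent.TF

open MeasureTheory Set Filter Topology Pool.Agent.TO Pool.Agent.TB Pool.Agent.TC Pool.Agent.TP
open scoped ENNReal NNReal Real InnerProductSpace SchwartzMap LineDeriv ContDiff

variable {F : Type} [NormedAddCommGroup F] [NormedSpace ℝ F] {f : E3 → F} {κ : E3 → ℝ} {L : ℝ}

/-- a linear map is bounded by its values on the unit vectors -/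
theorem opNorm_le_pd {A : E3 →L[ℝ] F} {δ : ℝ} (h0 : 0 ≤ δ) (hA : ∀ i, ‖A (ee i)‖ ≤ δ) :
    ‖A‖ ≤ 3 * δ := by
  refine A.opNorm_le_bound (by positivity) fun v => ?_
  have hv : v = ∑ i, v i • (ee i : E3) := by
    have := (EuclideanSpace.basisFun (Fin 3) ℝ).sum_repr v
    simpa using this.symm
  have e : A v = ∑ i, v i • A (ee i) := by
    conv_lhs => rw [hv]
    simp [map_sum]
  rw [e]
  calc ‖∑ i, v i • A (ee i)‖ ≤ ∑ i, ‖v i • A (ee i)‖ := norm_sum_le _ _
    _ ≤ ∑ _i : Fin 3, ‖v‖ * δ := by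
        refine Finset.sum_le_sum fun i _ => ?_
        rw [norm_smul]
        exact mul_le_mul (by rw [Real.norm_eq_abs]; exact abs_coord_le v i) (hA i) (norm_nonneg _)
          (norm_nonneg _)
    _ = _ := by
        rw [Finset.sum_const, Finset.card_univ, Fintype.card_fin, nsmul_eq_mul]
        push_cast
        ring

theorem norm_pd_le (f : E3 → F) (i : Fin 3) (x : E3) : ‖pd i f x‖ ≤ ‖fderiv ℝ f x‖ := by
  unfold pd
  refine ((fderiv ℝ f x).le_opNorm _).trans ?_
  rw [ee_norm, mul_one]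

theorem norm_fderiv_le_pd {C : ℝ} {x : E3} (h : ∀ i, ‖pd i f x‖ ≤ C) : ‖fderiv ℝ f x‖ ≤ 3 * C :=
  opNorm_le_pd ((norm_nonneg _).trans (h 0)) h

theorem integrable_cvf_bdd (hκ : Integrable κ (volume : Measure E3)) (hf : Continuous f) {C : ℝ}
    (hb : ∀ x, ‖f x‖ ≤ C) (x : E3) :
    Integrable (fun y => κ y • f (x - y)) (volume : Measure E3) := by
  refine Integrable.mono' (hκ.norm.mul_const C)
    (hκ.aestronglyMeasurable.smul (hf.comp (continuous_const.sub continuous_id)).aestronglyMeasurable)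
    (Eventually.of_forall fun y => ?_)
  rw [norm_smul]
  exact mul_le_mul_of_nonneg_left (hb _) (norm_nonneg _)

/-- convolutions of `C¹` functions with bounded derivatives -/
theorem hasFDerivAt_cvf_right (hκ : Integrable κ (volume : Measure E3)) (hf : ContDiff ℝ 1 f)
    {C C' : ℝ} (hb : ∀ x, ‖f x‖ ≤ C) (hb' : ∀ i x, ‖pd i f x‖ ≤ C') (x : E3) :
    HasFDerivAt (cvf κ f) (∫ y, κ y • fderiv ℝ f (x - y)) x := by
  have hc' : Continuous (fderiv ℝ f) := hf.continuous_fderiv one_ne_zero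
  have hd : Differentiable ℝ f := hf.differentiable one_ne_zero
  unfold cvf
  refine hasFDerivAt_integral_of_dominated_of_fderiv_le (𝕜 := ℝ) (s := univ)
    (F' := fun x' y => κ y • fderiv ℝ f (x' - y))
    (bound := fun y => ‖κ y‖ * (3 * C')) univ_mem
    ?_ (integrable_cvf_bdd hκ hf.continuous hb x) ?_ ?_ (hκ.norm.mul_const _) ?_
  · exact Eventually.of_forall fun x' =>
      (integrable_cvf_bdd hκ hf.continuous hb x').aestronglyMeasurable
  · exact hκ.aestronglyMeasurable.smul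
      (hc'.comp (continuous_const.sub continuous_id)).aestronglyMeasurable
  · refine Eventually.of_forall fun y x' _ => ?_
    rw [norm_smul]
    exact mul_le_mul_of_nonneg_left (norm_fderiv_le_pd fun i => hb' i _) (norm_nonneg _)
  · refine Eventually.of_forall fun y x' _ => ?_
    have h1 : HasFDerivAt (fun x' => f (x' - y)) (fderiv ℝ f (x' - y)) x' :=
      (hd (x' - y)).hasFDerivAt.comp x' ((hasFDerivAt_id x').sub_const y)
    exact h1.const_smul (κ y)

theorem pd_cvf_right (hκ : Integrable κ (volume : Measure E3)) (hf : ContDiff ℝ 1 f)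
    {C C' : ℝ} (hb : ∀ x, ‖f x‖ ≤ C) (hb' : ∀ i x, ‖pd i f x‖ ≤ C') (i : Fin 3) :
    pd i (cvf κ f) = cvf κ (pd i f) := by
  funext x
  have h1 := hasFDerivAt_cvf_right hκ hf hb hb' x
  have hc' : Continuous (fderiv ℝ f) := hf.continuous_fderiv one_ne_zero
  unfold pd
  rw [h1.fderiv]
  have h2 : Integrable (fun y => κ y • fderiv ℝ f (x - y)) (volume : Measure E3) := by
    refine Integrable.mono' (hκ.norm.mul_const (3 * C')) (hκ.aestronglyMeasurable.smul
      (hc'.comp (continuous_const.sub continuous_id)).aestronglyMeasurable)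
      (Eventually.of_forall fun y => ?_)
    rw [norm_smul]
    exact mul_le_mul_of_nonneg_left (norm_fderiv_le_pd fun i => hb' i _) (norm_nonneg _)
  rw [ContinuousLinearMap.integral_apply h2]
  rfl

theorem contDiff_pd_nat {n : ℕ} (hf : ContDiff ℝ (n + 1 : ℕ) f) (i : Fin 3) :
    ContDiff ℝ n (pd i f) := by
  have h1 : ContDiff ℝ n (fderiv ℝ f) :=
    ((contDiff_succ_iff_fderiv (n := (n : WithTop ℕ∞))).1 (by exact_mod_cast hf)).2.2
  exact (ContinuousLinearMap.apply ℝ F (ee i : E3)).contDiff.comp h1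

/-- sup bound of convolutions -/
theorem norm_cvf_le_sup (h : KK κ L) {C : ℝ} (hb : ∀ x, ‖f x‖ ≤ C) (x : E3) :
    ‖cvf κ f x‖ ≤ L * C := by
  have hC : 0 ≤ C := (norm_nonneg _).trans (hb 0)
  unfold cvf
  refine (norm_integral_le_of_norm_le (h.int.norm.mul_const C)
    (Eventually.of_forall fun y => ?_)).trans ?_
  · rw [norm_smul]
    exact mul_le_mul_of_nonneg_left (hb _) (norm_nonneg _)
  · rw [integral_mul_const]
    exact mul_le_mul_of_nonneg_right h.le hC

/-- `L²` bound of convolutions of functions -/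
theorem eLpNorm_cvf_le (h : KK κ L) (hf : StronglyMeasurable f) :
    eLpNorm (cvf κ f) 2 (volume : Measure E3) ≤ ENNReal.ofReal L * eLpNorm f 2 volume := by
  have h1 := lintegral_sq_cvf_le h hf
  have e : ∀ g : E3 → F, eLpNorm g 2 (volume : Measure E3) = (∫⁻ x, ‖g x‖ₑ ^ 2) ^ (1 / 2 : ℝ) := by
    intro g
    rw [eLpNorm_eq_lintegral_rpow_enorm_toReal (by norm_num) (by norm_num)]
    simp only [ENNReal.toReal_ofNat, ENNReal.rpow_ofNat]
  rw [e, e]
  calc (∫⁻ x, ‖cvf κ f x‖ₑ ^ 2) ^ (1 / 2 : ℝ)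
      ≤ (ENNReal.ofReal (L ^ 2) * ∫⁻ x, ‖f x‖ₑ ^ 2) ^ (1 / 2 : ℝ) :=
        ENNReal.rpow_le_rpow h1 (by norm_num)
    _ = _ := by
        rw [ENNReal.mul_rpow_of_nonneg _ _ (by norm_num), ENNReal.ofReal_pow h.nonneg,
          ← ENNReal.rpow_natCast, ← ENNReal.rpow_mul]
        norm_num

theorem memLp_cvf_fun (h : KK κ L) (hf : StronglyMeasurable f)
    (h2 : MemLp f 2 (volume : Measure E3)) : MemLp (cvf κ f) 2 (volume : Measure E3) :=
  ⟨(stronglyMeasurable_cvf h hf).aestronglyMeasurable, (eLpNorm_cvf_le h hf).trans_lt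
    (ENNReal.mul_lt_top ENNReal.ofReal_lt_top h2.2)⟩

/-! ### the class of a function -/

theorem coe_vL {f : E3 → E3} (h : MemLp f 2 (volume : Measure E3)) :
    (vL f : E3 → E3) =ᵐ[volume] f := vL_coe h

theorem norm_vL_le {f g : E3 → E3} (hf : MemLp f 2 (volume : Measure E3))
    (hg : MemLp g 2 (volume : Measure E3)) {C : ℝ} (hC : 0 ≤ C)
    (h : eLpNorm f 2 (volume : Measure E3) ≤ ENNReal.ofReal C * eLpNorm g 2 volume) :
    ‖vL f‖ ≤ C * ‖vL g‖ := by
  rw [norm_vL hf, norm_vL hg, ← ENNReal.toReal_ofReal hC, ← ENNReal.toReal_mul]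
  exact ENNReal.toReal_mono (ENNReal.mul_ne_top ENNReal.ofReal_ne_top hg.2.ne) h

/-- the convolution on functions and on classes -/
theorem vL_cvf (h : KK κ L) {f : E3 → E3} (hf : StronglyMeasurable f)
    (h2 : MemLp f 2 (volume : Measure E3)) : vL (cvf κ f) = cvO κ (vL f) := by
  apply Lp.ext
  filter_upwards [coe_vL (memLp_cvf_fun h hf h2), coe_cvO h (vL f)] with x h3 h4
  rw [h3, h4]
  exact cvf_congr (coe_vL h2).symm x

theorem vL_cvf_V3 (h : KK κ L) (f : V3) : vL (cvf κ f) = cvO κ f := by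
  apply Lp.ext
  filter_upwards [coe_vL (memLp_cvf h f), coe_cvO h f] with x h3 h4
  rw [h3, h4]

theorem norm_vL_cvf_le (h : KK κ L) {f : E3 → E3} (hf : StronglyMeasurable f)
    (h2 : MemLp f 2 (volume : Measure E3)) : ‖vL (cvf κ f)‖ ≤ L * ‖vL f‖ := by
  rw [vL_cvf h hf h2]
  exact norm_cvO_le h _

end Pool.Agent.TF
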