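import Pool.Agent.TF.E.Dk3
import Pool.Agent.TP.Fin

/-!
# Block E, row E3: the initial state
-/

set_option autoImplicit false

namespace Pool.Agent.TF

open MeasureTheory Set Filter Topology Pool.Agent.TO Pool.Agent.TB Pool.Agent.TC Pool.Agent.TP
open scoped ENNReal NNReal Real InnerProductSpace SchwartzMap LineDeriv ContDiff

namespace EIn

/-! ### divergence-free fields and convolutions -/

theorem inner_gR_apply (φ : 𝓢(E3, ℝ)) (x v : E3) : ⟪gR φ x, v⟫_ℝ = fderiv ℝ φ x v := by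
  rw [fderiv_eq_sum, PiLp.inner_apply]
  refine Finset.sum_congr rfl fun j _ => ?_
  rw [gR_apply]
  rfl

theorem div_translate {f : V3} (h : IsDivFree f) (φ : 𝓢(E3, ℝ)) (y : E3) :
    ∫ x, fderiv ℝ φ x (f (x - y)) = 0 := by
  have h1 := h (φ.compSubConstCLM ℝ (-y))
  have e1 : ∀ x : E3, fderiv ℝ (φ.compSubConstCLM ℝ (-y)) x = fderiv ℝ φ (x + y) := by
    intro x
    have : (φ.compSubConstCLM ℝ (-y) : E3 → ℝ) = fun x => φ (x + y) := by
      funext x
      rw [SchwartzMap.compSubConstCLM_apply, sub_neg_eq_add]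
    rw [this, fderiv_comp_add_right]
  simp only [e1] at h1
  refine Eq.trans ?_ h1
  refine (integral_add_right_eq_self (μ := (volume : Measure E3))
      (fun x => fderiv ℝ φ x (f (x - y))) y).symm.trans ?_
  simp only [add_sub_cancel_right]

theorem div_cvO (κ : E3 → ℝ) {f : V3} (hf : IsDivFree f) : IsDivFree (cvO κ f) := by
  unfold cvO
  split_ifs with h
  · rw [div_iff]
    intro φ
    rw [inner_cvL]
    refine (integral_congr_ae (Eventually.of_forall fun y => ?_)).trans (integral_zero _ _)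
    have e : ∫ x, ⟪(emb (gR φ) : V3) x, f (x - y)⟫_ℝ = ∫ x, fderiv ℝ φ x (f (x - y)) := by
      apply integral_congr_ae
      filter_upwards [(gR φ).coeFn_toLp 2 (volume : Measure E3)] with x hx
      rw [emb_apply, hx, inner_gR_apply]
    simp only [e, div_translate hf φ y, mul_zero]
  · intro φ
    rw [← inner_gR]
    simp

/-! ### sup bounds of convolutions -/

variable {κ : E3 → ℝ} {L A : ℝ}

theorem cvf_le (h : KK κ L) {f : E3 → E3} (hA : 0 ≤ A) (hf : ∀ᵐ x ∂(volume : Measure E3), ‖f x‖ ≤ A)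
    (x : E3) : ‖cvf κ f x‖ ≤ L * A := by
  unfold cvf
  calc ‖∫ y, κ y • f (x - y)‖ ≤ ∫ y, |κ y| * A := by
        apply norm_integral_le_of_norm_le (h.int.abs.mul_const A)
        filter_upwards [ae_shift hf x] with y hy
        rw [norm_smul, Real.norm_eq_abs]
        gcongr
    _ = (∫ y, |κ y|) * A := integral_mul_const _ _
    _ ≤ L * A := by
        gcongr
        exact h.le

theorem kk_of_le {r c : ℝ} (hr : 0 < r) (hc : 0 ≤ c) (h : SmN 0 κ)
    (hb : ∀ x, |κ x| ≤ c * et0 r x) : KK κ c := by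
  have h1 := h.kk
  refine ⟨h1.cont, h1.int, ?_, h1.bdd⟩
  calc ∫ y, |κ y| ≤ ∫ y, c * et0 r y :=
        integral_mono h1.int.abs ((integrable_et0 hr).const_mul c) hb
    _ = c := by rw [integral_const_mul, integral_et0 hr, mul_one]

/-! ### the derivatives of the kernel -/

variable {r : ℝ}

theorem inner_ee (x : E3) (i : Fin 3) : ⟪x, (ee i : E3)⟫_ℝ = x i := by
  rw [ee, EuclideanSpace.inner_single_right]
  simp

theorem pd_et0 (hr : 0 < r) (i : Fin 3) (x : E3) :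
    pd i (et0 r) x = -(105 / 2) * c0 * r ^ 4 * sg r x ^ 9 * x i := by
  unfold pd
  rw [(hasFDerivAt_et0 hr x).fderiv]
  simp only [smul_apply, innerSL_apply_apply, smul_eq_mul, inner_ee]

theorem abs_coord_le (x : E3) (i : Fin 3) : |x i| ≤ ‖x‖ := by
  have := PiLp.norm_apply_le x i
  rwa [Real.norm_eq_abs] at this

theorem pd_et0_le (hr : 0 < r) (i : Fin 3) (x : E3) : |pd i (et0 r) x| ≤ 7 / r * et0 r x := by
  have h1 := sg_pos hr x
  have h2 := nrm_sg hr x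
  have h3 := sg_le_inv hr x
  have hc := c0_pos
  rw [pd_et0 hr, abs_mul]
  have e : |-(105 / 2) * c0 * r ^ 4 * sg r x ^ 9| = 105 / 2 * c0 * r ^ 4 * sg r x ^ 9 := by
    rw [show -(105 / 2) * c0 * r ^ 4 * sg r x ^ 9 = -(105 / 2 * c0 * r ^ 4 * sg r x ^ 9) by ring,
      abs_neg, abs_of_pos (by positivity)]
  rw [e]
  calc 105 / 2 * c0 * r ^ 4 * sg r x ^ 9 * |x i| ≤ 105 / 2 * c0 * r ^ 4 * sg r x ^ 9 * ‖x‖ := by
        gcongr
        exact abs_coord_le x i
    _ = 105 / 2 * c0 * r ^ 4 * sg r x ^ 7 * (sg r x * (‖x‖ * sg r x)) := by ring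
    _ ≤ 105 / 2 * c0 * r ^ 4 * sg r x ^ 7 * (r⁻¹ * 1) := by gcongr
    _ = 7 / r * et0 r x := by
        unfold et0
        ring

theorem pd_pd_et0_le (hr : 0 < r) (i j : Fin 3) (x : E3) :
    |pd i (pd j (et0 r)) x| ≤ 70 / r ^ 2 * et0 r x := by
  have h1 := sg_pos hr x
  have h2 := nrm_sg hr x
  have h3 := sg_le_inv hr x
  have hc := c0_pos
  have e0 : pd j (et0 r) = fun x => (-(105 / 2) * c0 * r ^ 4 * sg r x ^ 9) * x j :=
    funext fun x => pd_et0 hr j x
  have d1 : HasFDerivAt (fun x => -(105 / 2) * c0 * r ^ 4 * sg r x ^ 9)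
      ((-(105 / 2) * c0 * r ^ 4 * -(9 * sg r x ^ 11)) • innerSL ℝ x) x := by
    have h4 := (hasFDerivAt_sg_pow hr 9 x).const_mul (-(105 / 2) * c0 * r ^ 4)
    refine h4.congr_fderiv ?_
    ext v
    simp only [smul_apply, innerSL_apply_apply, smul_eq_mul]
    push_cast
    ring
  have d2 : HasFDerivAt (fun x : E3 => x j) (EuclideanSpace.proj (𝕜 := ℝ) j : E3 →L[ℝ] ℝ) x :=
    (EuclideanSpace.proj (𝕜 := ℝ) j : E3 →L[ℝ] ℝ).hasFDerivAt
  have d3 : HasFDerivAt (fun x : E3 => -(105 / 2) * c0 * r ^ 4 * sg r x ^ 9 * x j) _ x := d1.mul d2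
  have e1 : pd i (pd j (et0 r)) x = -(105 / 2) * c0 * r ^ 4 * sg r x ^ 9 * (ee i : E3) j +
      x j * (-(105 / 2) * c0 * r ^ 4 * -(9 * sg r x ^ 11) * x i) := by
    rw [e0]
    unfold pd
    rw [d3.fderiv]
    simp only [add_apply, smul_apply, innerSL_apply_apply, smul_eq_mul, inner_ee]
    rfl
  have hij : |(ee i : E3) j| ≤ 1 := by
    refine (abs_coord_le _ _).trans ?_
    rw [ee_norm]
  have hxx : |x i| * |x j| ≤ ‖x‖ ^ 2 := by
    rw [sq]
    exact mul_le_mul (abs_coord_le x i) (abs_coord_le x j) (abs_nonneg _) (norm_nonneg _)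
  rw [e1]
  refine (abs_add_le _ _).trans ?_
  have a1 : |-(105 / 2) * c0 * r ^ 4 * sg r x ^ 9 * (ee i : E3) j| ≤
      105 / 2 * c0 * r ^ 4 * sg r x ^ 9 := by
    rw [abs_mul, show -(105 / 2) * c0 * r ^ 4 * sg r x ^ 9 =
      -(105 / 2 * c0 * r ^ 4 * sg r x ^ 9) by ring, abs_neg, abs_of_pos (by positivity)]
    exact mul_le_of_le_one_right (by positivity) hij
  have a2 : |x j * (-(105 / 2) * c0 * r ^ 4 * -(9 * sg r x ^ 11) * x i)| ≤
      9 * (105 / 2 * c0 * r ^ 4 * sg r x ^ 11) * ‖x‖ ^ 2 := by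
    rw [show x j * (-(105 / 2) * c0 * r ^ 4 * -(9 * sg r x ^ 11) * x i) =
      9 * (105 / 2 * c0 * r ^ 4 * sg r x ^ 11) * (x i * x j) by ring, abs_mul,
      abs_of_pos (by positivity), abs_mul]
    gcongr
  have hs2 : sg r x ^ 2 ≤ r⁻¹ ^ 2 := pow_le_pow_left₀ h1.le h3 2
  have hn2 : (‖x‖ * sg r x) ^ 2 ≤ 1 := pow_le_one₀ (by positivity) h2
  calc _ ≤ 105 / 2 * c0 * r ^ 4 * sg r x ^ 9 +
        9 * (105 / 2 * c0 * r ^ 4 * sg r x ^ 11) * ‖x‖ ^ 2 := add_le_add a1 a2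
    _ = 105 / 2 * c0 * r ^ 4 * sg r x ^ 7 * (sg r x ^ 2 * (1 + 9 * (‖x‖ * sg r x) ^ 2)) := by ring
    _ ≤ 105 / 2 * c0 * r ^ 4 * sg r x ^ 7 * (r⁻¹ ^ 2 * (1 + 9 * 1)) := by gcongr
    _ = 70 / r ^ 2 * et0 r x := by
        unfold et0
        ring

theorem kk1 (hr : 0 < r) (i : Fin 3) : KK (pd i (et0 r)) (7 / r) :=
  kk_of_le hr (by positivity) (((smN_et0 hr).pd i).mono (by norm_num)) (pd_et0_le hr i)

theorem kk2 (hr : 0 < r) (i j : Fin 3) : KK (pd i (pd j (et0 r))) (70 / r ^ 2) :=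
  kk_of_le hr (by positivity) (((smN_et0 hr).pd j).pd i) (pd_pd_et0_le hr i j)

/-! ### mollified bounded fields -/

variable {f : V3}

theorem pd_moll (hr : 0 < r) (i : Fin 3) (f : V3) :
    pd i (cvf (et0 r) f) = cvf (pd i (et0 r)) f :=
  pd_cvf (gf_l2 (Lp.memLp f)) ((smN_et0 hr).mono (by norm_num)) i

theorem pd_pd_moll (hr : 0 < r) (i j : Fin 3) (f : V3) :
    pd i (pd j (cvf (et0 r) f)) = cvf (pd i (pd j (et0 r))) f :=
  pd_pd_cvf (gf_l2 (Lp.memLp f)) (smN_et0 hr) i j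

theorem moll_le (hr : 0 < r) (hA : 0 ≤ A) (hf : Bd f A) (x : E3) : ‖cvf (et0 r) f x‖ ≤ A := by
  have := cvf_le (kk_et0 hr) hA hf x
  rwa [one_mul] at this

theorem pd_moll_le (hr : 0 < r) (hA : 0 ≤ A) (hf : Bd f A) (i : Fin 3) (x : E3) :
    ‖pd i (cvf (et0 r) f) x‖ ≤ 7 / r * A := by
  rw [pd_moll hr]
  exact cvf_le (kk1 hr i) hA hf x

theorem pd_pd_moll_le (hr : 0 < r) (hA : 0 ≤ A) (hf : Bd f A) (i j : Fin 3) (x : E3) :
    ‖pd i (pd j (cvf (et0 r) f)) x‖ ≤ 70 / r ^ 2 * A := by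
  rw [pd_pd_moll hr]
  exact cvf_le (kk2 hr i j) hA hf x

theorem nc_moll (hr : 0 < r) (hA : 0 ≤ A) (hf : Bd f A) : Nc (cvf (et0 r) f) where
  c2 := contDiff_cvf (gf_l2 (Lp.memLp f)) (smN_et0 hr)
  b0 := ⟨A, fun x => moll_le hr hA hf x⟩
  b1 := ⟨7 / r * A, fun i x => pd_moll_le hr hA hf i x⟩
  b2 := ⟨70 / r ^ 2 * A, fun i j x => pd_pd_moll_le hr hA hf i j x⟩
  m0 := memLp_cvf (kk_et0 hr) f
  m1 i := by
    rw [pd_moll hr]
    exact memLp_cvf (kk1 hr i) f
  m2 i j := by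
    rw [pd_pd_moll hr]
    exact memLp_cvf (kk2 hr i j) f

theorem nc_zero : Nc (fun _ : E3 => (0 : E3)) := by
  have h1 : ∀ i, pd i (fun _ : E3 => (0 : E3)) = fun _ => 0 := fun i => by
    funext x
    simp [pd]
  refine ⟨contDiff_const, ⟨0, fun x => by simp⟩, ⟨0, fun i x => ?_⟩, ⟨0, fun i j x => ?_⟩,
    MemLp.zero', fun i => ?_, fun i j => ?_⟩
  · rw [h1]
    simp
  · rw [h1, h1]
    simp
  · rw [h1]
    exact MemLp.zero'
  · rw [h1, h1]
    exact MemLp.zero'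

theorem vL_pd_moll (hr : 0 < r) {k : Fin 3} {df : V3} (hw : IsWeakDeriv k f df) :
    vL (pd k (cvf (et0 r) f)) = cvO (et0 r) df := by
  rw [pd_moll hr, vL_cvf_V3 (kk1 hr k)]
  refine weak_unique (weak_kernel (kk_et0 hr) (kk1 hr k) (fun y => ?_) f) (weak_cvO _ hw)
  exact (hasFDerivAt_et0 hr y).differentiableAt.hasFDerivAt.hasLineDerivAt (ee k)

theorem To_cvO {R : Fin 3 → V3 →L[ℝ] V3} (hR : RZ R) (κ : E3 → ℝ) (j : Option (Fin 3)) (f : V3) :
    To R j (cvO κ f) = cvO κ (To R j f) := by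
  cases j with
  | none => rfl
  | some j => exact (hR.ti j).cvO κ f

theorem coord_moll (hr : 0 < r) (hA : 0 ≤ A) (hf : Bd f A) (x : E3) (i : Fin 3) :
    cvf (et0 r) f x i = ∫ y, et0 r y * f (x - y) i := by
  have h1 : Integrable (fun y => et0 r y • f (x - y)) (volume : Measure E3) :=
    integrable_cvf (kk_et0 hr) (Lp.stronglyMeasurable f) (lintegral_sq_lt f) x
  have h2 := (EuclideanSpace.proj (𝕜 := ℝ) i : E3 →L[ℝ] ℝ).integral_comp_comm h1
  have h3 : cvf (et0 r) f x i = (EuclideanSpace.proj (𝕜 := ℝ) i : E3 →L[ℝ] ℝ)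
      (∫ y, et0 r y • f (x - y)) := rfl
  rw [h3, ← h2]
  rfl

theorem anti_moll (hr : 0 < r) {f g : V3} (hA : 0 ≤ A) (hf : Bd f A) (hg : Bd g A) {i k : Fin 3}
    (h : PM i 0 f = -PM k 0 g) (x : E3) : cvf (et0 r) f x i = -cvf (et0 r) g x k := by
  rw [coord_moll hr hA hf, coord_moll hr hA hg, ← integral_neg]
  have h0 : ∀ᵐ y ∂(volume : Measure E3), f y i = -g y k := by
    filter_upwards [coe_PM i 0 f, coe_PM k 0 g, Lp.coeFn_neg (PM k 0 g)] with y h1 h2 h3
    rw [h, h3, Pi.neg_apply, h2] at h1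
    have h4 := congrArg (fun v : E3 => v 0) h1
    simp [ee] at h4
    linarith
  apply integral_congr_ae
  filter_upwards [ae_shift h0 x] with y hy
  rw [hy]
  ring

theorem exists_bd {ι : Type*} [Finite ι] (F : ι → ℝ) : ∃ M, ∀ i, F i ≤ M := Finite.exists_le F

end EIn

open EIn in
/-- (E2) the initial state -/
theorem ini_ok : StIni := by
  refine ⟨70, by norm_num, ?_⟩
  intro R hR A L η s u₀ g dg l q hD hA hL hs
  have hr : 0 < √s := Real.sqrt_pos.2 hs
  have hrs : √s ^ 2 = s := Real.sq_sqrt hs.le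
  have hnc : NcS (ini s g l) := ⟨fun k j => nc_moll hr hA (hD.bd k j), fun _ => nc_zero⟩
  have hg1 : ∀ k j i x, ‖pd i ((ini s g l).g k j) x‖ ≤ 70 * A / √s := fun k j i x => by
    refine (pd_moll_le hr hA (hD.bd k j) i x).trans ?_
    rw [div_mul_eq_mul_div]
    gcongr
    norm_num
  have hg2 : ∀ k j i i' x, ‖pd i (pd i' ((ini s g l).g k j)) x‖ ≤ 70 * A / s :=
    fun k j i i' x => by
      refine (pd_pd_moll_le hr hA (hD.bd k j) i i' x).trans ?_
      rw [div_mul_eq_mul_div, hrs]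
  have hh1 : ∀ k i, pd i ((ini s g l).h k) = fun _ => 0 := fun k i => by
    funext x
    change fderiv ℝ (fun _ : E3 => (0 : E3)) x (ee i) = 0
    simp
  have hh2 : ∀ k i i', pd i (pd i' ((ini s g l).h k)) = fun _ => 0 := fun k i i' => by
    rw [hh1]
    funext x
    simp [pd]
  have hv0 : vL (fun _ : E3 => (0 : E3)) = 0 := by
    rw [vL_eq MemLp.zero']
    rfl
  refine ⟨⟨hnc, ?_, ?_, hg1, hg2, fun _ _ => rfl, div_cvO _ hD.div, ?_⟩, ?_, ?_⟩
  · intro k j i x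
    exact anti_moll hr hA (hD.bd k j) (hD.bd i j) (hD.anti k j i) x
  · intro k j x
    exact moll_le hr hA (hD.bd k j) x
  · have := bd_cvO (kk_et0 hr) hL hD.bdl
    rwa [one_mul] at this
  · have e1 : ∀ k j, To R j (vL (pd k ((ini s g l).g k j))) = cvO (et0 (√s)) (To R j (dg k j k)) :=
      fun k j => by
        rw [← To_cvO hR]
        congr 1
        exact vL_pd_moll hr (hD.weak k j k)
    have e2 : LP R (∑ k, vL (pd k ((ini s g l).h k))) = 0 := by
      simp only [hh1, hv0, Finset.sum_const_zero]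
      simp [LP]
    have e3 : u₀ - q = (∑ k, ∑ j : Option (Fin 3), To R j (dg k j k)) + l := by
      have := hD.eq
      rw [this]
      abel
    unfold Hh
    rw [e2, e3, map_add, add_zero, map_sum]
    congr 1
    refine Finset.sum_congr rfl fun k _ => ?_
    rw [map_sum]
    exact Finset.sum_congr rfl fun j _ => e1 k j
  · obtain ⟨M0, h0⟩ := exists_bd fun p : Fin 3 × Option (Fin 3) => ‖vL ((ini s g l).g p.1 p.2)‖
    obtain ⟨M1, h1⟩ := exists_bd fun p : Fin 3 × Option (Fin 3) × Fin 3 =>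
      ‖vL (pd p.2.2 ((ini s g l).g p.1 p.2.1))‖
    obtain ⟨M2, h2⟩ := exists_bd fun p : Fin 3 × Option (Fin 3) × Fin 3 × Fin 3 =>
      ‖vL (pd p.2.2.1 (pd p.2.2.2 ((ini s g l).g p.1 p.2.1)))‖
    have n0 : 0 ≤ M0 := (norm_nonneg _).trans (h0 (0, none))
    have n1 : 0 ≤ M1 := (norm_nonneg _).trans (h1 (0, none, 0))
    have n2 : 0 ≤ M2 := (norm_nonneg _).trans (h2 (0, none, 0, 0))
    have n3 : 0 ≤ 70 * A / s := by positivity
    have n4 : 0 ≤ ‖(ini s g l).l‖ := norm_nonneg _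
    have n5 : 0 ≤ 7 / √s * ‖l‖ := by positivity
    refine ⟨M0 + M1 + M2 + 70 * A / s + ‖(ini s g l).l‖ + 7 / √s * ‖l‖, ?_⟩
    constructor
    · intro k j
      linarith [h0 (k, j)]
    · intro k
      change ‖vL (fun _ : E3 => (0 : E3))‖ ≤ _
      rw [hv0, norm_zero]
      positivity
    · intro k j i
      linarith [h1 (k, j, i)]
    · intro k i
      rw [hh1, hv0, norm_zero]
      positivity
    · intro k j i i'
      linarith [h2 (k, j, i, i')]
    · intro k i i'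
      rw [hh2, hv0, norm_zero]
      positivity
    · intro k j i i' x
      linarith [hg2 k j i i' x]
    · intro k i i' x
      rw [hh2, norm_zero]
      positivity
    · linarith
    · have hd : Differentiable ℝ (et0 (√s)) := (smN_et0 hr).cd.differentiable (by norm_num)
      refine ⟨fun i => cvO (pd i (et0 (√s))) l, fun i => ⟨weak_kernel (kk_et0 hr) (kk1 hr i)
        (fun y => (hd y).hasFDerivAt.hasLineDerivAt (ee i)) l, ?_⟩⟩
      have h5 := norm_cvO_le (kk1 hr i) l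
      linarith

end Pool.Agent.TF
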