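import Pool.Agent.TF.Flow

/-!
# Pointwise bounds of the derivatives of `Jst d b lam f`
-/

set_option autoImplicit false

namespace Pool.Agent.TF

open MeasureTheory Set Filter Topology Pool.Agent.TO Pool.Agent.TB Pool.Agent.TC Pool.Agent.TP
open scoped ENNReal NNReal Real InnerProductSpace SchwartzMap LineDeriv

/-- a linear map in coordinates -/
theorem jb_lin {F : Type*} [NormedAddCommGroup F] [NormedSpace ℝ F] (L : E3 →L[ℝ] F) (v : E3) :
    L v = ∑ k, v k • L (ee k) := by
  have h : v = ∑ k, v k • ee k := by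
    ext j
    rw [Fin.sum_univ_three]
    fin_cases j <;> simp [ee]
  conv_lhs => rw [h]
  rw [map_sum]
  simp only [map_smul]

theorem jb_pd_diff {F : Type*} [NormedAddCommGroup F] [NormedSpace ℝ F] {f : E3 → F}
    (hf : ContDiff ℝ 2 f) (i : Fin 3) : ContDiff ℝ 1 (pd i f) := by
  have h : ContDiff ℝ 1 (fderiv ℝ f) := hf.fderiv_right (by norm_num)
  exact h.clm_apply contDiff_const

/-- chain rule for the shift -/
theorem jb_shift {F : Type*} [NormedAddCommGroup F] [NormedSpace ℝ F] {f : E3 → F} {b : E3 → E3}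
    (d : ℝ) (x : E3) (hf : DifferentiableAt ℝ f (x - d • b x)) (hb : DifferentiableAt ℝ b x)
    (i : Fin 3) : pd i (fun z => f (z - d • b z)) x =
      pd i f (x - d • b x) - d • ∑ k, (pd i b x) k • pd k f (x - d • b x) := by
  have h1 : HasFDerivAt (fun z : E3 => z - d • b z)
      (ContinuousLinearMap.id ℝ E3 - d • fderiv ℝ b x) x :=
    (hasFDerivAt_id x).sub (hb.hasFDerivAt.const_smul d)
  have h2 : HasFDerivAt (fun z => f (z - d • b z))
      ((fderiv ℝ f (x - d • b x)).comp (ContinuousLinearMap.id ℝ E3 - d • fderiv ℝ b x)) x :=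
    hf.hasFDerivAt.comp x h1
  unfold pd
  rw [h2.fderiv]
  simp only [ContinuousLinearMap.comp_apply, ContinuousLinearMap.sub_apply,
    ContinuousLinearMap.id_apply, ContinuousLinearMap.smul_apply, map_sub, map_smul]
  rw [jb_lin (fderiv ℝ f (x - d • b x)) (fderiv ℝ b x (ee i))]

theorem jb_smul {F : Type*} [NormedAddCommGroup F] [NormedSpace ℝ F] {f : E3 → F} {m : E3 → ℝ}
    {x : E3} (hm : DifferentiableAt ℝ m x) (hf : DifferentiableAt ℝ f x) (i : Fin 3) :
    pd i (fun z => m z • f z) x = m x • pd i f x + pd i m x • f x := by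
  have h : HasFDerivAt (fun z => m z • f z)
      (m x • fderiv ℝ f x + (fderiv ℝ m x).smulRight (f x)) x :=
    hm.hasFDerivAt.smul hf.hasFDerivAt
  unfold pd
  rw [h.fderiv]
  simp

/-- first derivatives of `Jst` -/
theorem jb_one {f b : E3 → E3} {lam : E3 → ℝ} (d : ℝ) (x : E3)
    (hf : DifferentiableAt ℝ f (x - d • b x)) (hb : DifferentiableAt ℝ b x)
    (hl : DifferentiableAt ℝ lam x) (i : Fin 3) :
    pd i (Jst d b lam f) x = Jst d b lam (pd i f) x -
      d • ∑ k, (pd i b x) k • Jst d b lam (pd k f) x - (d * pd i lam x) • f (x - d • b x) := by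
  have h1 : DifferentiableAt ℝ (fun z => f (z - d • b z)) x :=
    DifferentiableAt.comp x hf (differentiableAt_id.sub (hb.const_smul d))
  have h2 : DifferentiableAt ℝ (fun z => 1 - d * lam z) x :=
    (differentiableAt_const _).sub (hl.const_mul d)
  have h3 : pd i (fun z => 1 - d * lam z) x = -(d * pd i lam x) := by
    unfold pd
    have h : HasFDerivAt (fun z => 1 - d * lam z) (-(d • fderiv ℝ lam x)) x := by
      have := (hl.hasFDerivAt.const_mul d).const_sub 1
      exact this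
    rw [h.fderiv]
    simp
  have h4 : pd i (Jst d b lam f) x = (1 - d * lam x) • pd i (fun z => f (z - d • b z)) x +
      pd i (fun z => 1 - d * lam z) x • f (x - d • b x) := jb_smul h2 h1 i
  rw [h4, h3, jb_shift d x hf hb i]
  have h5 : ∑ k, (pd i b x) k • Jst d b lam (pd k f) x =
      (1 - d * lam x) • ∑ k, (pd i b x) k • pd k f (x - d • b x) := by
    rw [Finset.smul_sum]
    refine Finset.sum_congr rfl fun k _ => ?_
    unfold Jst
    rw [smul_comm]
  rw [h5]
  unfold Jst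
  rw [smul_sub, neg_smul, ← sub_eq_add_neg, smul_comm (1 - d * lam x) d]

theorem jb_fun {f b : E3 → E3} {lam : E3 → ℝ} (d : ℝ)
    (hf : Differentiable ℝ f) (hb : Differentiable ℝ b) (hl : Differentiable ℝ lam) (i : Fin 3) :
    pd i (Jst d b lam f) = fun x => Jst d b lam (pd i f) x -
      d • ∑ k, (pd i b x) k • Jst d b lam (pd k f) x - (d * pd i lam x) • f (x - d • b x) := by
  funext x
  exact jb_one d x (hf _) (hb _) (hl _) i

theorem jb_J {d : ℝ} {b : E3 → E3} {lam : E3 → ℝ} (f : E3 → E3) (x : E3) (h0 : 0 ≤ d * lam x)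
    (h1 : d * lam x ≤ 1) : ‖Jst d b lam f x‖ ≤ ‖f (x - d • b x)‖ := by
  unfold Jst
  rw [norm_smul, Real.norm_eq_abs, abs_of_nonneg (by linarith)]
  have := norm_nonneg (f (x - d • b x))
  nlinarith

theorem jb_coord (v : E3) (k : Fin 3) : |v k| ≤ ‖v‖ := by
  have := PiLp.norm_apply_le v k
  rwa [Real.norm_eq_abs] at this

/-- bound of the first derivatives, with `|D b| ≤ e`, `|D lam| ≤ K` -/
theorem jb_one_le {f b : E3 → E3} {lam : E3 → ℝ} {d e K : ℝ} (x : E3) (hd : 0 ≤ d)
    (h0 : 0 ≤ d * lam x) (h1 : d * lam x ≤ 1)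
    (hf : DifferentiableAt ℝ f (x - d • b x)) (hb : DifferentiableAt ℝ b x)
    (hl : DifferentiableAt ℝ lam x) (i : Fin 3) (he : ‖pd i b x‖ ≤ e) (hK : |pd i lam x| ≤ K) :
    ‖pd i (Jst d b lam f) x‖ ≤ ‖pd i f (x - d • b x)‖ +
      d * e * ∑ k, ‖pd k f (x - d • b x)‖ + d * K * ‖f (x - d • b x)‖ := by
  rw [jb_one d x hf hb hl i]
  have a1 := jb_J (b := b) (pd i f) x h0 h1
  have a2 : ‖d • ∑ k, (pd i b x) k • Jst d b lam (pd k f) x‖ ≤
      d * e * ∑ k, ‖pd k f (x - d • b x)‖ := by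
    rw [norm_smul, Real.norm_eq_abs, abs_of_nonneg hd, mul_assoc]
    refine mul_le_mul_of_nonneg_left ?_ hd
    rw [Finset.mul_sum]
    refine (norm_sum_le _ _).trans (Finset.sum_le_sum fun k _ => ?_)
    rw [norm_smul, Real.norm_eq_abs]
    exact mul_le_mul ((jb_coord _ _).trans he) (jb_J (b := b) (pd k f) x h0 h1) (norm_nonneg _)
      ((norm_nonneg _).trans he)
  have a3 : ‖(d * pd i lam x) • f (x - d • b x)‖ ≤ d * K * ‖f (x - d • b x)‖ := by
    rw [norm_smul, Real.norm_eq_abs, abs_mul, abs_of_nonneg hd]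
    refine mul_le_mul_of_nonneg_right ?_ (norm_nonneg _)
    exact mul_le_mul_of_nonneg_left hK hd
  have a4 := norm_sub_le (Jst d b lam (pd i f) x - d • ∑ k, (pd i b x) k • Jst d b lam (pd k f) x)
    ((d * pd i lam x) • f (x - d • b x))
  have a5 := norm_sub_le (Jst d b lam (pd i f) x) (d • ∑ k, (pd i b x) k • Jst d b lam (pd k f) x)
  linarith

theorem jb_contDiff {f b : E3 → E3} {lam : E3 → ℝ} {n : WithTop ℕ∞} (d : ℝ)
    (hf : ContDiff ℝ n f) (hb : ContDiff ℝ n b) (hl : ContDiff ℝ n lam) :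
    ContDiff ℝ n (Jst d b lam f) := by
  unfold Jst
  exact (contDiff_const.sub (contDiff_const.mul hl)).smul
    (hf.comp (contDiff_id.sub (hb.const_smul d)))

end Pool.Agent.TF
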