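import Pool.Agent.TF.E.Jb
import Pool.Agent.TF.BernB

/-!
# Pointwise bounds of the second derivatives of `Jst d b lam f`, and `StJb`
-/

set_option autoImplicit false

namespace Pool.Agent.TF

open MeasureTheory Set Filter Topology Pool.Agent.TO Pool.Agent.TB Pool.Agent.TC Pool.Agent.TP
open scoped ENNReal NNReal Real InnerProductSpace SchwartzMap LineDeriv

/-- second derivatives of `Jst` -/
theorem jb_two {f b : E3 → E3} {lam : E3 → ℝ} (d : ℝ) (hf : ContDiff ℝ 2 f) (hb : ContDiff ℝ 2 b)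
    (hl : ContDiff ℝ 2 lam) (i j : Fin 3) (x : E3) :
    pd i (pd j (Jst d b lam f)) x = pd i (Jst d b lam (pd j f)) x -
      d • (∑ k, ((pd j b x) k • pd i (Jst d b lam (pd k f)) x +
        (pd i (pd j b) x) k • Jst d b lam (pd k f) x)) -
      ((d * pd j lam x) • pd i (fun z => f (z - d • b z)) x +
        (d * pd i (pd j lam) x) • f (x - d • b x)) := by
  have hb1 := diff_pd hb
  have hl1 := diff_pd hl
  have hf1 := diff_pd hf
  have hJ : ∀ k, Differentiable ℝ (Jst d b lam (pd k f)) := fun k =>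
    (jb_contDiff (n := 1) d (cd_pd hf k) (hb.of_le (by norm_num))
      (hl.of_le (by norm_num))).differentiable (by norm_num)
  have hc : ∀ k, DifferentiableAt ℝ (fun z => (pd j b z) k) x := fun k =>
    (EuclideanSpace.proj k : E3 →L[ℝ] ℝ).differentiableAt.comp x (hb1 j x)
  have hB : ∀ k, DifferentiableAt ℝ (fun z => (pd j b z) k • Jst d b lam (pd k f) z) x := fun k =>
    (hc k).smul (hJ k x)
  have hs : DifferentiableAt ℝ (fun z => ∑ k, (pd j b z) k • Jst d b lam (pd k f) z) x :=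
    DifferentiableAt.fun_sum fun k _ => hB k
  have hC : DifferentiableAt ℝ (fun z => f (z - d • b z)) x :=
    DifferentiableAt.comp x (diff_of hf _) (differentiableAt_id.sub ((diff_of hb x).const_smul d))
  have hm : DifferentiableAt ℝ (fun z => d * pd j lam z) x := (hl1 j x).const_mul d
  have e1 : DifferentiableAt ℝ (fun z => d • ∑ k, (pd j b z) k • Jst d b lam (pd k f) z) x :=
    hs.const_smul d
  have e2 : DifferentiableAt ℝ (fun z => Jst d b lam (pd j f) z -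
      d • ∑ k, (pd j b z) k • Jst d b lam (pd k f) z) x := (hJ j x).sub e1
  have e3 : DifferentiableAt ℝ (fun z => (d * pd j lam z) • f (z - d • b z)) x := hm.smul hC
  rw [jb_fun d (diff_of hf) (diff_of hb) (diff_of hl) j]
  rw [pd_sub e2 e3, pd_sub (hJ j x) e1, pd_const_smul hs d, pd_sum fun k _ => hB k,
    pd_smul_fun hm hC]
  have h1 : pd i (fun z => d * pd j lam z) x = d * pd i (pd j lam) x := by
    have := pd_const_smul (hl1 j x) d i
    simpa only [smul_eq_mul] using this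
  rw [h1]
  congr 2
  · congr 1
    refine Finset.sum_congr rfl fun k _ => ?_
    rw [pd_smul_fun (hc k) (hJ k x), pd_coord (hb1 j x)]

/-- bound of the second derivatives -/
theorem jb_two_le {f b : E3 → E3} {lam : E3 → ℝ} {d e K : ℝ} (x : E3) (hd : 0 ≤ d)
    (h0 : 0 ≤ d * lam x) (h1 : d * lam x ≤ 1) (hf : ContDiff ℝ 2 f) (hb : ContDiff ℝ 2 b)
    (hl : ContDiff ℝ 2 lam) (he0 : 0 ≤ e) (hde : d * e ≤ 1) (heK : e ≤ K)
    (he : ∀ i, ‖pd i b x‖ ≤ e) (hK : ∀ i, |pd i lam x| ≤ K)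
    (hK2 : ∀ i j, ‖pd i (pd j b) x‖ ≤ K) (hK3 : ∀ i j, |pd i (pd j lam) x| ≤ K) (i j : Fin 3) :
    ‖pd i (pd j (Jst d b lam f)) x‖ ≤ ‖pd i (pd j f) (x - d • b x)‖ +
      5 * K * d * (‖f (x - d • b x)‖ + (∑ k, ‖pd k f (x - d • b x)‖) +
        ∑ k, ∑ l, ‖pd k (pd l f) (x - d • b x)‖) := by
  set y : E3 := x - d • b x with hy
  set S0 : ℝ := ‖f y‖ with hS0
  set S1 : ℝ := ∑ k, ‖pd k f y‖ with hS1
  set S2 : ℝ := ∑ k, ∑ l, ‖pd k (pd l f) y‖ with hS2
  have n0 : 0 ≤ S0 := norm_nonneg _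
  have n1 : 0 ≤ S1 := Finset.sum_nonneg fun _ _ => norm_nonneg _
  have n2 : 0 ≤ S2 := Finset.sum_nonneg fun _ _ => Finset.sum_nonneg fun _ _ => norm_nonneg _
  have hK0 : 0 ≤ K := he0.trans heK
  have hbx := diff_of hb x
  have hlx := diff_of hl x
  have c1 : ∀ k, ‖pd k f y‖ ≤ S1 := fun k =>
    Finset.single_le_sum (f := fun k => ‖pd k f y‖) (fun _ _ => norm_nonneg _) (Finset.mem_univ k)
  have c2 : ∀ l, ∑ k, ‖pd k (pd l f) y‖ ≤ S2 := fun l =>
    Finset.sum_le_sum fun k _ => Finset.single_le_sum (f := fun l => ‖pd k (pd l f) y‖)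
      (fun _ _ => norm_nonneg _) (Finset.mem_univ l)
  have c3 : ∀ k, ∑ l, ‖pd k (pd l f) y‖ ≤ S2 := fun k =>
    Finset.single_le_sum (f := fun k => ∑ l, ‖pd k (pd l f) y‖)
      (fun _ _ => Finset.sum_nonneg fun _ _ => norm_nonneg _) (Finset.mem_univ k)
  have c4 : ∑ l, ∑ k, ‖pd k (pd l f) y‖ = S2 := Finset.sum_comm
  have q1 : ∀ l, ‖pd i (Jst d b lam (pd l f)) x‖ ≤ ‖pd i (pd l f) y‖ +
      d * e * ∑ k, ‖pd k (pd l f) y‖ + d * K * ‖pd l f y‖ := fun l =>
    jb_one_le x hd h0 h1 (diff_pd hf l _) hbx hlx i (he i) (hK i)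
  have hde0 : 0 ≤ d * e := mul_nonneg hd he0
  have hdK0 : 0 ≤ d * K := mul_nonneg hd hK0
  have t1 : ‖pd i (Jst d b lam (pd j f)) x‖ ≤ ‖pd i (pd j f) y‖ + d * K * S2 + d * K * S1 := by
    have a1 := q1 j
    have a2 : d * e * ∑ k, ‖pd k (pd j f) y‖ ≤ d * K * S2 :=
      mul_le_mul (mul_le_mul_of_nonneg_left heK hd) (c2 j)
        (Finset.sum_nonneg fun _ _ => norm_nonneg _) hdK0
    have a3 : d * K * ‖pd j f y‖ ≤ d * K * S1 := mul_le_mul_of_nonneg_left (c1 j) hdK0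
    linarith
  have t2 : ‖d • (∑ k, ((pd j b x) k • pd i (Jst d b lam (pd k f)) x +
        (pd i (pd j b) x) k • Jst d b lam (pd k f) x))‖ ≤ d * (2 * K * S2 + 2 * K * S1) := by
    rw [norm_smul, Real.norm_eq_abs, abs_of_nonneg hd]
    refine mul_le_mul_of_nonneg_left ?_ hd
    have a1 : ∀ k, ‖(pd j b x) k • pd i (Jst d b lam (pd k f)) x +
        (pd i (pd j b) x) k • Jst d b lam (pd k f) x‖ ≤
        e * (‖pd i (pd k f) y‖ + d * e * (∑ l, ‖pd l (pd k f) y‖) + d * K * ‖pd k f y‖) +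
          K * ‖pd k f y‖ := by
      intro k
      refine (norm_add_le _ _).trans (add_le_add ?_ ?_)
      · rw [norm_smul, Real.norm_eq_abs]
        exact mul_le_mul ((jb_coord _ _).trans (he j)) (q1 k) (norm_nonneg _) he0
      · rw [norm_smul, Real.norm_eq_abs]
        exact mul_le_mul ((jb_coord _ _).trans (hK2 i j)) (jb_J (b := b) (pd k f) x h0 h1)
          (norm_nonneg _) hK0
    refine (norm_sum_le _ _).trans ((Finset.sum_le_sum fun k _ => a1 k).trans ?_)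
    have a2 : ∑ k, (e * (‖pd i (pd k f) y‖ + d * e * (∑ l, ‖pd l (pd k f) y‖) +
        d * K * ‖pd k f y‖) + K * ‖pd k f y‖) =
        e * ((∑ k, ‖pd i (pd k f) y‖) + d * e * (∑ k, ∑ l, ‖pd l (pd k f) y‖) + d * K * S1) +
          K * S1 := by
      simp only [Finset.sum_add_distrib, ← Finset.mul_sum, hS1]
    rw [a2, c4]
    have a3 := c3 i
    have a4 : e * (∑ k, ‖pd i (pd k f) y‖) ≤ K * S2 :=
      mul_le_mul heK a3 (Finset.sum_nonneg fun _ _ => norm_nonneg _) hK0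
    have a5 : e * (d * e * S2) ≤ K * S2 := by
      have : d * e * S2 ≤ S2 := by nlinarith
      exact mul_le_mul heK this (mul_nonneg hde0 n2) hK0
    have a6 : e * (d * K * S1) ≤ K * S1 := by
      have h : e * (d * K * S1) = d * e * (K * S1) := by ring
      rw [h]
      have := mul_nonneg hK0 n1
      nlinarith
    nlinarith
  have t3 : ‖(d * pd j lam x) • pd i (fun z => f (z - d • b z)) x +
        (d * pd i (pd j lam) x) • f y‖ ≤ d * K * (2 * S1) + d * K * S0 := by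
    refine (norm_add_le _ _).trans (add_le_add ?_ ?_)
    · rw [norm_smul, Real.norm_eq_abs, abs_mul, abs_of_nonneg hd]
      refine mul_le_mul (mul_le_mul_of_nonneg_left (hK j) hd) ?_ (norm_nonneg _) hdK0
      rw [jb_shift d x (diff_of hf _) hbx i]
      refine (norm_sub_le _ _).trans ?_
      have a1 : ‖d • ∑ k, (pd i b x) k • pd k f (x - d • b x)‖ ≤ d * e * S1 := by
        rw [norm_smul, Real.norm_eq_abs, abs_of_nonneg hd, mul_assoc]
        refine mul_le_mul_of_nonneg_left ?_ hd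
        rw [hS1, Finset.mul_sum]
        refine (norm_sum_le _ _).trans (Finset.sum_le_sum fun k _ => ?_)
        rw [norm_smul, Real.norm_eq_abs]
        exact mul_le_mul ((jb_coord _ _).trans (he i)) le_rfl (norm_nonneg _) he0
      have a2 : d * e * S1 ≤ S1 := by nlinarith
      have a3 := c1 i
      linarith
    · rw [norm_smul, Real.norm_eq_abs, abs_mul, abs_of_nonneg hd]
      exact mul_le_mul_of_nonneg_right (mul_le_mul_of_nonneg_left (hK3 i j) hd) n0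
  rw [jb_two d hf hb hl i j x, ← hy]
  refine (norm_sub_le _ _).trans ?_
  have t4 := norm_sub_le (pd i (Jst d b lam (pd j f)) x)
    (d • (∑ k, ((pd j b x) k • pd i (Jst d b lam (pd k f)) x +
        (pd i (pd j b) x) k • Jst d b lam (pd k f) x)))
  have t5 := mul_nonneg hdK0 n0
  have t6 := mul_nonneg hdK0 n2
  nlinarith

/-- all the bounds of `Jst`, with one constant -/
theorem jb_all {c Λ M : ℝ} (hc : 0 < c) (hΛ : 0 < Λ) (hM : 0 < M) : ∃ C > 0, ∀ d : ℝ, 0 ≤ d →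
    d * Λ ≤ 1 → ∀ (r : ℝ) (b : E3 → E3) (lam : E3 → ℝ), 1 / M ≤ r → Coef c r Λ b lam →
    ∀ f : E3 → E3, ContDiff ℝ 2 f → ContDiff ℝ 2 (Jst d b lam f) ∧
    (∀ x, ‖Jst d b lam f x‖ ≤ ‖f (x - d • b x)‖) ∧
    (∀ i x, ‖pd i (Jst d b lam f) x‖ ≤ ‖pd i f (x - d • b x)‖ +
      C * d * (‖f (x - d • b x)‖ + ∑ k, ‖pd k f (x - d • b x)‖)) ∧
    ∀ i j x, ‖pd i (pd j (Jst d b lam f)) x‖ ≤ ‖pd i (pd j f) (x - d • b x)‖ +
      C * d * (‖f (x - d • b x)‖ + (∑ k, ‖pd k f (x - d • b x)‖) +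
        ∑ k, ∑ l, ‖pd k (pd l f) (x - d • b x)‖) := by
  obtain ⟨K, hK⟩ : ∃ K : ℝ, K = Λ + c * Λ * M + c * Λ * M ^ 2 := ⟨_, rfl⟩
  have hcΛ : 0 < c * Λ := mul_pos hc hΛ
  have p1 : 0 < c * Λ * M := mul_pos hcΛ hM
  have p2 : 0 < c * Λ * M ^ 2 := mul_pos hcΛ (pow_pos hM 2)
  have hK0 : 0 < K := by rw [hK]; positivity
  refine ⟨5 * K, by positivity, fun d hd hdΛ r b lam hr hC f hf => ?_⟩
  have hr0 : 0 < r := lt_of_lt_of_le (by positivity) hr
  have hrM : 1 / r ≤ M := by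
    rw [div_le_iff₀ hr0]
    rw [div_le_iff₀ hM] at hr
    linarith
  have hri : 0 < 1 / r := by positivity
  have hl : ∀ x, 0 ≤ d * lam x := fun x => mul_nonneg hd (hC.l0 x)
  have hl1 : ∀ x, d * lam x ≤ 1 := fun x =>
    (mul_le_mul_of_nonneg_left (hC.lΛ x) hd).trans hdΛ
  have v1 : ∀ x, c * lam x / r ≤ K := by
    intro x
    have h1 : c * lam x / r = c * lam x * (1 / r) := by ring
    have h2 : c * lam x ≤ c * Λ := mul_le_mul_of_nonneg_left (hC.lΛ x) hc.le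
    have h3 : c * lam x * (1 / r) ≤ c * Λ * M :=
      mul_le_mul h2 hrM hri.le hcΛ.le
    rw [h1]
    linarith
  have v2 : ∀ x, c * lam x / r ^ 2 ≤ K := by
    intro x
    have h1 : c * lam x / r ^ 2 = c * lam x * (1 / r) ^ 2 := by ring
    have h2 : c * lam x ≤ c * Λ := mul_le_mul_of_nonneg_left (hC.lΛ x) hc.le
    have h4 : (1 / r) ^ 2 ≤ M ^ 2 := pow_le_pow_left₀ hri.le hrM 2
    have h3 : c * lam x * (1 / r) ^ 2 ≤ c * Λ * M ^ 2 :=
      mul_le_mul h2 h4 (by positivity) hcΛ.le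
    rw [h1]
    linarith
  have he : ∀ i x, ‖pd i b x‖ ≤ Λ := by
    intro i x
    have h1 := hC.b1 x
    have h2 : ‖pd i b x‖ ^ 2 ≤ ∑ i, ‖pd i b x‖ ^ 2 :=
      Finset.single_le_sum (f := fun i => ‖pd i b x‖ ^ 2) (fun _ _ => sq_nonneg _)
        (Finset.mem_univ i)
    have h3 := hC.l0 x
    have h4 := hC.lΛ x
    have h5 : ‖pd i b x‖ ≤ lam x / 8 :=
      (pow_le_pow_iff_left₀ (norm_nonneg _) (by positivity) (by norm_num)).1 (h2.trans h1)
    linarith
  have hΛK : Λ ≤ K := by linarith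
  refine ⟨jb_contDiff d hf hC.cb hC.cl, fun x => jb_J f x (hl x) (hl1 x), fun i x => ?_,
    fun i j x => ?_⟩
  · have h1 := jb_one_le x hd (hl x) (hl1 x) (diff_of hf _) (diff_of hC.cb x) (diff_of hC.cl x) i
      (he i x) ((hC.l1 i x).trans (v1 x))
    have h2 : 0 ≤ ∑ k, ‖pd k f (x - d • b x)‖ := Finset.sum_nonneg fun _ _ => norm_nonneg _
    have h3 : d * Λ * ∑ k, ‖pd k f (x - d • b x)‖ ≤ d * K * ∑ k, ‖pd k f (x - d • b x)‖ :=
      mul_le_mul_of_nonneg_right (mul_le_mul_of_nonneg_left hΛK hd) h2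
    have h5 : 0 ≤ d * K * (∑ k, ‖pd k f (x - d • b x)‖) :=
      mul_nonneg (mul_nonneg hd hK0.le) h2
    have h6 : 0 ≤ d * K * ‖f (x - d • b x)‖ := mul_nonneg (mul_nonneg hd hK0.le) (norm_nonneg _)
    have h7 : 5 * K * d * (‖f (x - d • b x)‖ + ∑ k, ‖pd k f (x - d • b x)‖) =
        5 * (d * K * ‖f (x - d • b x)‖) + 5 * (d * K * ∑ k, ‖pd k f (x - d • b x)‖) := by ring
    rw [h7]
    linarith
  · exact jb_two_le x hd (hl x) (hl1 x) hf hC.cb hC.cl hΛ.le hdΛ hΛK (fun i => he i x)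
      (fun i => (hC.l1 i x).trans (v1 x)) (fun i j => (hC.b2 i j x).trans (v1 x))
      (fun i j => (hC.l2 i j x).trans (v2 x)) i j

end Pool.Agent.TF
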