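import Pool.Agent.TF.E.Bo
import Pool.Agent.TF.E.Ini

/-!
# One step of the scheme
-/

set_option autoImplicit false

namespace Pool.Agent.TF

open MeasureTheory Set Filter Topology Pool.Agent.TO Pool.Agent.TB Pool.Agent.TC Pool.Agent.TP
open scoped ENNReal NNReal Real InnerProductSpace SchwartzMap LineDeriv ContDiff

/-- pointwise bounds of the transport step -/
def StJb : Prop := ∀ c Λ M : ℝ, 0 < c → 0 < Λ → 0 < M → ∃ C > 0, ∀ d : ℝ, 0 ≤ d → d * Λ ≤ 1 →
  ∀ (r : ℝ) (b : E3 → E3) (lam : E3 → ℝ), 1 / M ≤ r → Coef c r Λ b lam → ∀ f : E3 → E3,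
  ContDiff ℝ 2 f → ContDiff ℝ 2 (Jst d b lam f) ∧
  (∀ x, ‖Jst d b lam f x‖ ≤ ‖f (x - d • b x)‖) ∧
  (∀ i x, ‖pd i (Jst d b lam f) x‖ ≤ ‖pd i f (x - d • b x)‖ +
    C * d * (‖f (x - d • b x)‖ + ∑ k, ‖pd k f (x - d • b x)‖)) ∧
  ∀ i j x, ‖pd i (pd j (Jst d b lam f)) x‖ ≤ ‖pd i (pd j f) (x - d • b x)‖ +
    C * d * (‖f (x - d • b x)‖ + (∑ k, ‖pd k f (x - d • b x)‖) +
      ∑ k, ∑ l, ‖pd k (pd l f) (x - d • b x)‖)

/-- the bounds of a potential after the transport step -/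
theorem bo_Jst (hJ : StJb) {c Λ M : ℝ} (hc : 0 < c) (hΛ : 0 < Λ) (hM : 0 < M) : ∃ C > 0,
    ∀ d : ℝ, 0 < d → d ≤ 1 → d * Λ ≤ 1 → ∀ (r : ℝ) (b : E3 → E3) (lam : E3 → ℝ), 1 / M ≤ r →
    Coef c r Λ b lam → ∀ (f : E3 → E3) (A B D : ℝ), Bo A B D D D D f →
    Bo A (B + C * d * (A + B)) (D + C * d * (A + B + D)) (D + C * d * D) (D + C * d * D)
      (D + C * d * D) (Jst d b lam f) := by
  obtain ⟨C, hC, h⟩ := hJ c Λ M hc hΛ hM
  refine ⟨3 * C + 9 * C + Λ ^ 2 + 13 * C * (1 + Λ ^ 2), by positivity, ?_⟩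
  intro d hd hd1 hdΛ r b lam hr hco f A B D hf
  obtain ⟨h2, h3, h4, h5⟩ := h d hd.le hdΛ r b lam hr hco f hf.nc.c2
  have hA : 0 ≤ A := (norm_nonneg _).trans (hf.s0 0)
  have hB : 0 ≤ B := (norm_nonneg _).trans (hf.s1 0 0)
  have hD : 0 ≤ D := (norm_nonneg _).trans hf.t0
  set G := Jst d b lam f with hG
  have g0 : ∀ x, ‖G x‖ ≤ A := fun x => (h3 x).trans (hf.s0 _)
  have hCd : 0 ≤ C * d := by positivity
  have hDL : (d * Λ) ^ 2 ≤ d * Λ ^ 2 := by
    have : d ^ 2 ≤ d := by nlinarith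
    rw [mul_pow]
    exact mul_le_mul_of_nonneg_right this (sq_nonneg _)
  have hDL1 : (d * Λ) ^ 2 ≤ Λ ^ 2 := hDL.trans (by nlinarith [sq_nonneg Λ])
  have sum3 : ∀ {t : ℝ}, (∑ _k : Fin 3, t) = 3 * t := by
    intro t
    rw [Finset.sum_const, Finset.card_univ, Fintype.card_fin, nsmul_eq_mul]
    norm_num
  have g1 : ∀ i x, ‖pd i G x‖ ≤ B + C * d * (A + 3 * B) := by
    intro i x
    refine (h4 i x).trans (add_le_add (hf.s1 _ _) (mul_le_mul_of_nonneg_left ?_ hCd))
    exact add_le_add (hf.s0 _) ((Finset.sum_le_sum fun k _ => hf.s1 k _).trans (le_of_eq sum3))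
  have g2 : ∀ i j x, ‖pd i (pd j G) x‖ ≤ D + C * d * (A + 3 * B + 9 * D) := by
    intro i j x
    refine (h5 i j x).trans (add_le_add (hf.s2 _ _ _) (mul_le_mul_of_nonneg_left ?_ hCd))
    refine add_le_add (add_le_add (hf.s0 _)
      ((Finset.sum_le_sum fun k _ => hf.s1 k _).trans (le_of_eq sum3))) ?_
    refine (Finset.sum_le_sum fun k _ => (Finset.sum_le_sum fun l _ => hf.s2 k l _).trans
      (le_of_eq sum3)).trans ?_
    rw [sum3]
    linarith
  have hGc1 : ∀ i, ContDiff ℝ 1 (pd i G) := fun i => by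
    have h1 : ContDiff ℝ ((1 + 1 : ℕ) : WithTop ℕ∞) G := by exact_mod_cast h2
    exact_mod_cast contDiff_pd_nat (n := 1) h1 i
  have hGc2 : ∀ i j, Continuous (pd i (pd j G)) := fun i j => by
    have h1 : ContDiff ℝ ((0 + 1 : ℕ) : WithTop ℕ∞) (pd j G) := by exact_mod_cast hGc1 j
    exact (contDiff_pd_nat (n := 0) h1 i).continuous
  -- L² bounds
  obtain ⟨k0, k0'⟩ := hco.memLp_Jst hd.le hdΛ hf.nc.cont hf.nc.m0
  have l1 : ∀ i, MemLp (pd i G) 2 (volume : Measure E3) ∧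
      ‖vL (pd i G)‖ ≤ (1 + (d * Λ) ^ 2) * (D + C * d * (D + 3 * D)) := by
    intro i
    have key := l2_of_ptw hco hd.le hdΛ (Finset.univ : Finset (Option (Fin 3)))
      (G := pd i G) (F0 := pd i f) (Fa := fun a => match a with | none => f | some k => pd k f)
      (hGc1 i).continuous (hf.nc.pc i).continuous
      (fun a => by rcases a with _ | k; exacts [hf.nc.cont, (hf.nc.pc k).continuous])
      (hf.nc.m1 i) (fun a => by rcases a with _ | k; exacts [hf.nc.m0, hf.nc.m1 k])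
      (e := C * d) hCd (fun x => by
        rw [Fintype.sum_option]
        exact h4 i x)
    refine ⟨key.1, key.2.trans (mul_le_mul_of_nonneg_left ?_ (by positivity))⟩
    refine add_le_add (hf.t1 i) (mul_le_mul_of_nonneg_left ?_ hCd)
    rw [Fintype.sum_option]
    exact add_le_add hf.t0 ((Finset.sum_le_sum fun k _ => hf.t1 k).trans (le_of_eq sum3))
  have l2 : ∀ i j, MemLp (pd i (pd j G)) 2 (volume : Measure E3) ∧
      ‖vL (pd i (pd j G))‖ ≤ (1 + (d * Λ) ^ 2) * (D + C * d * (D + 3 * D + 9 * D)) := by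
    intro i j
    have key := l2_of_ptw hco hd.le hdΛ (Finset.univ : Finset (Option (Fin 3) ⊕ (Fin 3 × Fin 3)))
      (G := pd i (pd j G)) (F0 := pd i (pd j f))
      (Fa := fun a => match a with
        | Sum.inl none => f | Sum.inl (some k) => pd k f | Sum.inr (k, l) => pd k (pd l f))
      (hGc2 i j) (hf.nc.ppc i j)
      (fun a => by
        rcases a with (_ | k) | ⟨k, l⟩
        exacts [hf.nc.cont, (hf.nc.pc k).continuous, hf.nc.ppc k l])
      (hf.nc.m2 i j) (fun a => by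
        rcases a with (_ | k) | ⟨k, l⟩
        exacts [hf.nc.m0, hf.nc.m1 k, hf.nc.m2 k l])
      (e := C * d) hCd (fun x => by
        rw [Fintype.sum_sum_type, Fintype.sum_option, Fintype.sum_prod_type]
        exact h5 i j x)
    refine ⟨key.1, key.2.trans (mul_le_mul_of_nonneg_left ?_ (by positivity))⟩
    refine add_le_add (hf.t2 i j) (mul_le_mul_of_nonneg_left ?_ hCd)
    rw [Fintype.sum_sum_type, Fintype.sum_option, Fintype.sum_prod_type]
    refine add_le_add (add_le_add hf.t0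
      ((Finset.sum_le_sum fun k _ => hf.t1 k).trans (le_of_eq sum3))) ?_
    refine (Finset.sum_le_sum fun k _ => (Finset.sum_le_sum fun l _ => hf.t2 k l).trans
      (le_of_eq sum3)).trans ?_
    rw [sum3]
    linarith
  have hmain : (1 + (d * Λ) ^ 2) * (D + C * d * (D + 3 * D + 9 * D)) ≤
      D + (3 * C + 9 * C + Λ ^ 2 + 13 * C * (1 + Λ ^ 2)) * d * D := by
    have e : (1 + (d * Λ) ^ 2) * (D + C * d * (D + 3 * D + 9 * D)) =
        D + (d * Λ) ^ 2 * D + 13 * (C * d * D) * (1 + (d * Λ) ^ 2) := by ring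
    rw [e]
    have h6 : (d * Λ) ^ 2 * D ≤ d * Λ ^ 2 * D := mul_le_mul_of_nonneg_right hDL hD
    have h7 : 13 * (C * d * D) * (1 + (d * Λ) ^ 2) ≤ 13 * (C * d * D) * (1 + Λ ^ 2) :=
      mul_le_mul_of_nonneg_left (by linarith) (by positivity)
    have h8 : 0 ≤ 12 * C * d * D := by positivity
    nlinarith
  have hmono : ∀ t : ℝ, t ≤ D + 3 * D + 9 * D → (1 + (d * Λ) ^ 2) * (D + C * d * t) ≤
      D + (3 * C + 9 * C + Λ ^ 2 + 13 * C * (1 + Λ ^ 2)) * d * D := by
    intro t ht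
    refine le_trans ?_ hmain
    gcongr
  have hnc : Nc G := by
    refine ⟨h2, ⟨A, g0⟩, ⟨_, g1⟩, ⟨_, g2⟩, k0, fun i => (l1 i).1, fun i j => (l2 i j).1⟩
  have hCC : 3 * C ≤ 3 * C + 9 * C + Λ ^ 2 + 13 * C * (1 + Λ ^ 2) := by
    have : 0 ≤ 9 * C + Λ ^ 2 + 13 * C * (1 + Λ ^ 2) := by positivity
    linarith
  have hCC9 : 9 * C ≤ 3 * C + 9 * C + Λ ^ 2 + 13 * C * (1 + Λ ^ 2) := by
    have : 0 ≤ 3 * C + Λ ^ 2 + 13 * C * (1 + Λ ^ 2) := by positivity
    linarith
  refine ⟨hnc, g0, fun i x => (g1 i x).trans ?_, fun i j x => (g2 i j x).trans ?_,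
    ?_, fun i => (l1 i).2.trans (hmono _ (by linarith)), fun i j => (l2 i j).2.trans hmain⟩
  · have h6 : C * d * (A + 3 * B) ≤ 3 * C * d * (A + B) := by
      have : 0 ≤ C * d * A := by positivity
      nlinarith
    have h7 : 3 * C * d * (A + B) ≤ (3 * C + 9 * C + Λ ^ 2 + 13 * C * (1 + Λ ^ 2)) * d * (A + B) := by
      gcongr
    linarith
  · have h6 : C * d * (A + 3 * B + 9 * D) ≤ 9 * C * d * (A + B + D) := by
      have h8 : 0 ≤ C * d * A := by positivity
      have h9 : 0 ≤ C * d * B := by positivity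
      nlinarith
    have h7 : 9 * C * d * (A + B + D) ≤
        (3 * C + 9 * C + Λ ^ 2 + 13 * C * (1 + Λ ^ 2)) * d * (A + B + D) := by
      gcongr
    linarith
  · have h6 := hmono 0 (by linarith)
    have h7 : ‖vL (Jst d b lam f)‖ ≤ (1 + (d * Λ) ^ 2) * D :=
      k0'.trans (mul_le_mul_of_nonneg_left hf.t0 (by positivity))
    refine h7.trans (le_trans (le_of_eq ?_) h6)
    ring

/-- coordinates of a convolution of a bounded continuous function -/
theorem cvf_coord {κ : E3 → ℝ} (hκ : Integrable κ (volume : Measure E3)) {F : E3 → E3}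
    (hF : Continuous F) {C : ℝ} (hb : ∀ x, ‖F x‖ ≤ C) (x : E3) (i : Fin 3) :
    cvf κ F x i = ∫ y, κ y * F (x - y) i := by
  have h1 := integrable_cvf_bdd hκ hF hb x
  have h2 := (EuclideanSpace.proj (𝕜 := ℝ) i : E3 →L[ℝ] ℝ).integral_comp_comm h1
  have h3 : cvf κ F x i = (EuclideanSpace.proj (𝕜 := ℝ) i : E3 →L[ℝ] ℝ)
      (∫ y, κ y • F (x - y)) := rfl
  rw [h3, ← h2]
  rfl

theorem anti_heat_Jst {s : ℝ} (hs : 0 < s) {b : E3 → E3} {lam : E3 → ℝ} {f g : E3 → E3}
    {i k : Fin 3} (hf : Nc (Jst s b lam f)) (hg : Nc (Jst s b lam g))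
    (h : ∀ x, f x i = -g x k) (x : E3) :
    heat s (Jst s b lam f) x i = -heat s (Jst s b lam g) x k := by
  obtain ⟨C, hC⟩ := hf.b0
  obtain ⟨C', hC'⟩ := hg.b0
  rw [heat_eq_cvf, heat_eq_cvf, cvf_coord (integrable_hk hs) hf.cont hC,
    cvf_coord (integrable_hk hs) hg.cont hC', ← integral_neg]
  apply integral_congr_ae
  refine Eventually.of_forall fun y => ?_
  have e : ∀ (u : E3 → E3) (z : E3) (j : Fin 3), Jst s b lam u z j =
      (1 - s * lam z) * u (z - s • b z) j := fun _ _ _ => rfl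
  simp only
  rw [e, e, h]
  ring

/-- (E4) one step preserves the structure -/
theorem step_ok (hJ : StJb) : StStep := by
  intro c Λ M η hc hΛ hM hη
  obtain ⟨C0, hC0, hJ'⟩ := bo_Jst hJ hc hΛ hM
  set K := kC (hk η) with hK
  have hK0 : 0 ≤ K := kC_nonneg _
  refine ⟨C0 + (1 + K) * M ^ 2 + 43 * (1 + K) * M, by positivity, min 1 (1 / Λ), by positivity, ?_⟩
  intro d hd hd0 R hR r b lam hr hco σ M' L A B hnc hanti hdiv hU hN hL hl hA hB
  have hd1 : d ≤ 1 := (hd0.trans_le (min_le_left _ _)).le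
  have hdΛ : d * Λ ≤ 1 := by
    have := (hd0.trans_le (min_le_right _ _)).le
    rw [le_div_iff₀ hΛ] at this
    exact this
  have hM' : 0 ≤ M' := (norm_nonneg _).trans hN.l0
  have hA0 : 0 ≤ A := (norm_nonneg _).trans (hA.2 0 0)
  have hB0 : 0 ≤ B := (norm_nonneg _).trans (hB.2 0 0 0)
  set C := C0 + (1 + K) * M ^ 2 + 43 * (1 + K) * M with hC
  -- the bounds of the potentials of the data
  have bg : ∀ k j, Bo A B M' M' M' M' (σ.g k j) := fun k j =>
    ⟨hnc.1 k j, hA.1 k j, hB.1 k j, hN.gs k j, hN.g0 k j, hN.g1 k j, hN.g2 k j⟩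
  have bh : ∀ k, Bo A B M' M' M' M' (σ.h k) := fun k =>
    ⟨hnc.2 k, hA.2 k, hB.2 k, hN.hs k, hN.h0 k, hN.h1 k, hN.h2 k⟩
  have jg := fun k j => hJ' d hd hd1 hdΛ r b lam hr hco (σ.g k j) A B M' (bg k j)
  have jh := fun k => hJ' d hd hd1 hdΛ r b lam hr hco (σ.h k) A B M' (bh k)
  have hHM := norm_Hh_le hR hN
  have hUM : M * ‖Hh R σ‖ ≤ 43 * M * M' := by
    calc M * ‖Hh R σ‖ ≤ M * (43 * M') := mul_le_mul_of_nonneg_left hHM hM.le
      _ = _ := by ring
  have bs : ∀ k, Bo (d * M ^ 2) (d * (K * M ^ 2)) (d * (K * M ^ 2)) (d * (43 * M * M'))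
      (d * (K * (43 * M * M'))) (d * (K * (43 * M * M'))) (fun x => d • src R η σ k x) := by
    intro k
    have h1 := (src_bounds hη hM.le hU k).bo.neg.smul d
    rw [abs_of_pos hd] at h1
    refine h1.mono le_rfl le_rfl le_rfl ?_ ?_ ?_
    · exact mul_le_mul_of_nonneg_left hUM hd.le
    · exact mul_le_mul_of_nonneg_left (mul_le_mul_of_nonneg_left hUM hK0) hd.le
    · exact mul_le_mul_of_nonneg_left (mul_le_mul_of_nonneg_left hUM hK0) hd.le
  have e1 : C0 ≤ C := by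
    have : 0 ≤ (1 + K) * M ^ 2 + 43 * (1 + K) * M := by positivity
    linarith
  -- comparison of constants
  have c1 : C0 * d * (A + B) + d * (K * M ^ 2) ≤ C * d * (A + B + 1) := by
    have h2 : 0 ≤ d * M ^ 2 := by positivity
    have h3 : 0 ≤ 43 * (1 + K) * M * d := by positivity
    have h4 : C * d * (A + B + 1) = C0 * d * (A + B) + C0 * d + (C - C0) * d * (A + B + 1) := by
      ring
    have h5 : (C - C0) * d * 1 ≤ (C - C0) * d * (A + B + 1) :=
      mul_le_mul_of_nonneg_left (by linarith) (mul_nonneg (by linarith) hd.le)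
    have h6 : (C - C0) * d * 1 = d * M ^ 2 + d * (K * M ^ 2) + 43 * (1 + K) * M * d := by
      rw [hC]; ring
    have h7 : 0 ≤ C0 * d := by positivity
    linarith
  have c2 : C0 * d * (A + B + M') + d * (K * M ^ 2) ≤ C * d * (M' + A + B + 1) := by
    have h2 : 0 ≤ d * M ^ 2 := by positivity
    have h3 : 0 ≤ 43 * (1 + K) * M * d := by positivity
    have h4 : C * d * (M' + A + B + 1) = C0 * d * (A + B + M') + C0 * d +
      (C - C0) * d * (M' + A + B + 1) := by ring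
    have h5 : (C - C0) * d * 1 ≤ (C - C0) * d * (M' + A + B + 1) :=
      mul_le_mul_of_nonneg_left (by linarith) (mul_nonneg (by linarith) hd.le)
    have h6 : (C - C0) * d * 1 = d * M ^ 2 + d * (K * M ^ 2) + 43 * (1 + K) * M * d := by
      rw [hC]; ring
    have h7 : 0 ≤ C0 * d := by positivity
    linarith
  have c3 : ∀ t : ℝ, t ≤ 43 * (1 + K) * M * M' → C0 * d * M' + d * t ≤
      C * d * (M' + A + B + 1) := by
    intro t ht
    have h2 : d * t ≤ d * (43 * (1 + K) * M * M') := mul_le_mul_of_nonneg_left ht hd.le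
    have h3 : C0 * d * M' + d * (43 * (1 + K) * M * M') ≤ C * d * M' := by
      have h4 : 0 ≤ (1 + K) * M ^ 2 * d * M' := by positivity
      have h5 : C * d * M' = C0 * d * M' + (1 + K) * M ^ 2 * d * M' +
        d * (43 * (1 + K) * M * M') := by rw [hC]; ring
      linarith
    have h6 : C * d * M' ≤ C * d * (M' + A + B + 1) :=
      mul_le_mul_of_nonneg_left (by linarith) (mul_nonneg (by linarith) hd.le)
    linarith
  have t1 : 43 * M * M' ≤ 43 * (1 + K) * M * M' := by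
    have : 0 ≤ K * (43 * M * M') := by positivity
    nlinarith
  have t2 : K * (43 * M * M') ≤ 43 * (1 + K) * M * M' := by
    have : 0 ≤ 43 * M * M' := by positivity
    nlinarith
  have fg : ∀ k j, Bo A (B + C * d * (A + B + 1)) (M' + C * d * (M' + A + B + 1))
      (M' + C * d * (M' + A + B + 1)) (M' + C * d * (M' + A + B + 1))
      (M' + C * d * (M' + A + B + 1)) ((nxt R η d b lam σ).g k j) := by
    intro k j
    have h3 : 0 ≤ d * (K * M ^ 2) := by positivity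
    have h4 := c3 0 (by positivity)
    refine ((jg k j).heat hd).mono le_rfl ?_ ?_ ?_ ?_ ?_ <;> linarith
  have fh : ∀ k, Bo (A + d * M ^ 2) (B + C * d * (A + B + 1)) (M' + C * d * (M' + A + B + 1))
      (M' + C * d * (M' + A + B + 1)) (M' + C * d * (M' + A + B + 1))
      (M' + C * d * (M' + A + B + 1)) ((nxt R η d b lam σ).h k) := by
    intro k
    have h4 := c3 _ t1
    have h5 := c3 _ t2
    refine (((jh k).add (bs k)).heat hd).mono le_rfl ?_ ?_ ?_ ?_ ?_ <;> linarith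
  refine ⟨⟨fun k j => (fg k j).nc, fun k => (fh k).nc⟩, ?_, EIn.div_cvO _ hdiv, ?_,
    ⟨fun k j x => ((fg k j).s0 x).trans ?_, fun k => (fh k).s0⟩,
    ⟨fun k j => (fg k j).s1, fun k => (fh k).s1⟩, ?_⟩
  · intro k j i x
    exact anti_heat_Jst hd (jg k j).nc (jg i j).nc (fun y => hanti k j i y) x
  · have := bd_cvO (kk_hk hd) hL hl
    rwa [one_mul] at this
  · have : 0 ≤ d * M ^ 2 := by positivity
    linarith
  · have h7 : 0 ≤ C * d * (M' + A + B + 1) := by
      have := c3 0 (by positivity)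
      have h8 : 0 ≤ C0 * d * M' := by positivity
      linarith
    refine ⟨fun k j => (fg k j).t0, fun k => (fh k).t0, fun k j => (fg k j).t1,
      fun k => (fh k).t1, fun k j => (fg k j).t2, fun k => (fh k).t2, fun k j => (fg k j).s2,
      fun k => (fh k).s2, ?_, ?_⟩
    · have h6 := norm_cvO_le (kk_hk hd) σ.l
      rw [one_mul] at h6
      exact (h6.trans hN.l0).trans (by linarith)
    · obtain ⟨dl, hdl⟩ := hN.l1
      refine ⟨fun i => cvO (hk d) (dl i), fun i => ⟨weak_cvO _ (hdl i).1, ?_⟩⟩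
      have h9 := norm_cvO_le (kk_hk hd) (dl i)
      rw [one_mul] at h9
      exact (h9.trans (hdl i).2).trans (by linarith)

end Pool.Agent.TF
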