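import Pool.Agent.TF.E.Jb2
import Pool.Agent.TF.E.Step

/-!
# `StJb`
-/

set_option autoImplicit false

namespace Pool.Agent.TF

theorem jb_ok : StJb := by
  intro c L M hc hL hM
  exact jb_all hc hL hM

end Pool.Agent.TF
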