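import Pool.Agent.TF.E.NcC
import Pool.Agent.TP.Est

/-!
# Bounds of the source, bound of the field of a state
-/

set_option autoImplicit false

namespace Pool.Agent.TF

open MeasureTheory Set Filter Topology Pool.Agent.TO Pool.Agent.TB Pool.Agent.TC Pool.Agent.TP
open scoped ENNReal NNReal Real InnerProductSpace SchwartzMap LineDeriv ContDiff

variable {κ : E3 → ℝ} {L : ℝ}

/-- sup bound of the convolution of a bounded class -/
theorem norm_cvf_le_bd (h : KK κ L) {f : V3} {A : ℝ} (hA : 0 ≤ A) (hf : Bd f A) (x : E3) :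
    ‖cvf κ f x‖ ≤ L * A := by
  unfold cvf
  refine (norm_integral_le_of_norm_le (h.int.norm.mul_const A) ?_).trans ?_
  · filter_upwards [ae_shift hf x] with y hy
    rw [norm_smul]
    exact mul_le_mul_of_nonneg_left hy (norm_nonneg _)
  · rw [integral_mul_const]
    exact mul_le_mul_of_nonneg_right h.le hA

/-- the sum of the `L¹` norms of a kernel and its derivatives -/
noncomputable def kC (κ : E3 → ℝ) : ℝ :=
  (∫ y, |κ y|) + (∑ i, ∫ y, |pd i κ y|) + ∑ i, ∑ j, ∫ y, |pd i (pd j κ) y|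

theorem int_abs_nonneg (κ : E3 → ℝ) : 0 ≤ ∫ y, |κ y| := integral_nonneg fun _ => abs_nonneg _

theorem kC_nonneg (κ : E3 → ℝ) : 0 ≤ kC κ := by
  have h1 := int_abs_nonneg κ
  have h2 : 0 ≤ ∑ i, ∫ y, |pd i κ y| := Finset.sum_nonneg fun i _ => int_abs_nonneg _
  have h3 : 0 ≤ ∑ i, ∑ j, ∫ y, |pd i (pd j κ) y| :=
    Finset.sum_nonneg fun i _ => Finset.sum_nonneg fun j _ => int_abs_nonneg _
  unfold kC
  linarith

theorem le_kC1 (κ : E3 → ℝ) (i : Fin 3) : ∫ y, |pd i κ y| ≤ kC κ := by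
  have h1 := int_abs_nonneg κ
  have h2 := Finset.single_le_sum (f := fun i => ∫ y, |pd i κ y|)
    (fun i _ => int_abs_nonneg _) (Finset.mem_univ i)
  have h3 : 0 ≤ ∑ i, ∑ j, ∫ y, |pd i (pd j κ) y| :=
    Finset.sum_nonneg fun i _ => Finset.sum_nonneg fun j _ => int_abs_nonneg _
  unfold kC
  linarith

theorem le_kC2 (κ : E3 → ℝ) (i j : Fin 3) : ∫ y, |pd i (pd j κ) y| ≤ kC κ := by
  have h1 := int_abs_nonneg κ
  have h2 : 0 ≤ ∑ i, ∫ y, |pd i κ y| := Finset.sum_nonneg fun i _ => int_abs_nonneg _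
  have h3 := Finset.single_le_sum (f := fun j => ∫ y, |pd i (pd j κ) y|)
    (fun i _ => int_abs_nonneg _) (Finset.mem_univ j)
  have h4 := Finset.single_le_sum (f := fun i => ∑ j, ∫ y, |pd i (pd j κ) y|)
    (fun i _ => Finset.sum_nonneg fun j _ => int_abs_nonneg _) (Finset.mem_univ i)
  unfold kC
  linarith

theorem norm_vL_cvf_V3_le (h : KK κ L) (f : V3) : ‖vL (cvf κ f)‖ ≤ L * ‖f‖ := by
  rw [vL_cvf_V3 h f]
  exact norm_cvO_le h f

/-- bounds of the smoothed quadratic term -/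
structure SrcB (m C a b : ℝ) (F : E3 → E3) : Prop where
  nc : Nc F
  s0 : ∀ x, ‖F x‖ ≤ m
  s1 : ∀ i x, ‖pd i F x‖ ≤ C * a
  s2 : ∀ i j x, ‖pd i (pd j F) x‖ ≤ C * a
  t0 : ‖vL F‖ ≤ b
  t1 : ∀ i, ‖vL (pd i F)‖ ≤ C * b
  t2 : ∀ i j, ‖vL (pd i (pd j F))‖ ≤ C * b

theorem src_bounds {η M : ℝ} (hη : 0 < η) (hM : 0 ≤ M) {U : V3} (hU : Bd U M) (k : Fin 3) :
    SrcB (M ^ 2) (kC (hk η)) (M ^ 2) (M * ‖U‖) (heat η (tens k U U : V3)) := by
  have hs := smN_hk hη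
  have h1 : SmN 1 (hk η) := hs.mono (by norm_num)
  have hB : Bd (tens k U U) (M ^ 2) := by
    have := bd_tens k hM hU hU
    rwa [← sq] at this
  have hT : ‖tens k U U‖ ≤ M * ‖U‖ := tens_left_le k hU U
  have hf : Gf ((tens k U U : V3) : E3 → E3) := gf_l2 (Lp.memLp _)
  have hMU : 0 ≤ M * ‖U‖ := by positivity
  have hM2 : 0 ≤ M ^ 2 := sq_nonneg _
  have hb1 : ∀ i j x, ‖cvf (pd i (pd j (hk η))) (tens k U U : V3) x‖ ≤ kC (hk η) * M ^ 2 :=
    fun i j x => (norm_cvf_le_bd ((hs.pd (n := 1) j).pd (n := 0) i).kk hM2 hB x).trans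
      (mul_le_mul_of_nonneg_right (le_kC2 _ i j) hM2)
  refine ⟨nc_cvf_V3 hs _, fun x => ?_, fun i x => ?_, fun i j x => ?_, ?_, fun i => ?_,
    fun i j => ?_⟩
  · have := norm_cvf_le_bd (kk_hk hη) hM2 hB x
    rwa [one_mul] at this
  · rw [heat_eq_cvf, pd_cvf hf h1]
    exact (norm_cvf_le_bd (h1.pd (n := 0) i).kk hM2 hB x).trans
      (mul_le_mul_of_nonneg_right (le_kC1 _ i) hM2)
  · rw [heat_eq_cvf, pd_pd_cvf hf hs]
    exact hb1 i j x
  · have := norm_vL_cvf_V3_le (kk_hk hη) (tens k U U)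
    rw [one_mul] at this
    exact this.trans hT
  · rw [heat_eq_cvf, pd_cvf hf h1]
    exact (norm_vL_cvf_V3_le (h1.pd (n := 0) i).kk _).trans
      (mul_le_mul (le_kC1 _ i) hT (norm_nonneg _) (kC_nonneg _))
  · rw [heat_eq_cvf, pd_pd_cvf hf hs]
    exact (norm_vL_cvf_V3_le ((hs.pd (n := 1) j).pd (n := 0) i).kk _).trans
      (mul_le_mul (le_kC2 _ i j) hT (norm_nonneg _) (kC_nonneg _))

/-! ### the field of a state -/

variable {R : Fin 3 → V3 →L[ℝ] V3}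

theorem norm_To_le (hR : RZ R) (j : Option (Fin 3)) (f : V3) : ‖To R j f‖ ≤ ‖f‖ := by
  cases j with
  | none => exact le_of_eq rfl
  | some j => exact hR.le j f

theorem norm_LP_le (hR : RZ R) (f : V3) : ‖LP R f‖ ≤ 10 * ‖f‖ := by
  have h1 : ∀ i l : Fin 3, ‖R i (R l (PM l i f))‖ ≤ ‖f‖ := fun i l =>
    (hR.le _ _).trans ((hR.le _ _).trans (norm_PM_le _ _ _))
  have h2 : ‖∑ i, ∑ l, R i (R l (PM l i f))‖ ≤ ∑ _i : Fin 3, ∑ _l : Fin 3, ‖f‖ :=
    (norm_sum_le _ _).trans (Finset.sum_le_sum fun i _ =>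
      (norm_sum_le _ _).trans (Finset.sum_le_sum fun l _ => h1 i l))
  unfold LP
  refine (norm_add_le _ _).trans ?_
  simp only [Finset.sum_const, Finset.card_univ, Fintype.card_fin, nsmul_eq_mul] at h2
  push_cast at h2
  linarith

theorem norm_Hh_le (hR : RZ R) {σ : Sta} {M : ℝ} (hσ : NrS M σ) : ‖Hh R σ‖ ≤ 43 * M := by
  have hM : 0 ≤ M := (norm_nonneg _).trans hσ.l0
  have h1 : ‖∑ k, ∑ j, To R j (vL (pd k (σ.g k j)))‖ ≤
      ∑ _k : Fin 3, ∑ _j : Option (Fin 3), M :=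
    (norm_sum_le _ _).trans (Finset.sum_le_sum fun k _ =>
      (norm_sum_le _ _).trans (Finset.sum_le_sum fun j _ =>
        (norm_To_le hR j _).trans (hσ.g1 k j k)))
  have h2 : ‖∑ k, vL (pd k (σ.h k))‖ ≤ ∑ _k : Fin 3, M :=
    (norm_sum_le _ _).trans (Finset.sum_le_sum fun k _ => hσ.h1 k k)
  have h3 := norm_LP_le hR (∑ k, vL (pd k (σ.h k)))
  have h4 := hσ.l0
  simp only [Finset.sum_const, Finset.card_univ, Fintype.card_fin, Fintype.card_option,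
    nsmul_eq_mul] at h1 h2
  push_cast at h1 h2
  unfold Hh
  refine (norm_add_le _ _).trans ?_
  have h5 := norm_add_le (∑ k, ∑ j, To R j (vL (pd k (σ.g k j)))) (LP R (∑ k, vL (pd k (σ.h k))))
  linarith

end Pool.Agent.TF
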